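import Mathlib
import Pool.Agent.Lib.H4DMDefs
import Pool.Agent.Lib.H4DMLie
import Pool.Agent.Lib.H4DMFree

/-!
# Level-one coefficients of the double shuffle Lie algebra: basic definitions

`ev g` evaluates noncommutative polynomials.  `EE g r s` is the linear functional on `ℚ⟨Y⟩` which
sends a word `y_{k₁}⋯y_{k_d}` to `∑_i r_{k₁}⋯r_{k_{i-1}} g_{k_i} s_{k_{i+1}}⋯s_{k_d}`.
-/

set_option autoImplicit false

namespace Pool.Agent.H44DM

open Pool.Agent.H4DM

noncomputable section

section ev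
variable {α : Type} {B : Type*} [Ring B] [Algebra ℚ B]

/-- Evaluation of noncommutative polynomials. -/
def ev (g : α → B) : NC α →ₐ[ℚ] B :=
  MonoidAlgebra.lift ℚ B (FreeMonoid α) (FreeMonoid.lift g)

@[simp] theorem ev_nil (g : α → B) : ev g (wd []) = 1 := by rw [wd_nil, map_one]

theorem ev_letter (g : α → B) (a : α) : ev g (wd [a]) = g a := by simp [ev, wd]

theorem ev_cons (g : α → B) (a : α) (l : List α) : ev g (wd (a :: l)) = g a * ev g (wd l) := by
  rw [wd_cons, map_mul, ev_letter]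

theorem ev_x0 (g : Fin 2 → B) : ev g x0 = g 0 := ev_letter g 0
theorem ev_x1 (g : Fin 2 → B) : ev g x1 = g 1 := ev_letter g 1

end ev

section words
variable {R : Type*} [CommRing R]

/-- The sequence `k ↦ a^(k-1)`, the coefficients of `t/(1-at)`. -/
def ge (a : R) (k : ℕ+) : R := a ^ ((k : ℕ) - 1)

/-- The value of `EE g r s` on a word. -/
def Ew (g r s : ℕ+ → R) : List ℕ+ → R
  | [] => 0
  | k :: t => g k * (t.map s).prod + r k * Ew g r s t

@[simp] theorem Ew_nil (g r s : ℕ+ → R) : Ew g r s [] = 0 := rfl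
theorem Ew_cons (g r s : ℕ+ → R) (k : ℕ+) (t : List ℕ+) :
    Ew g r s (k :: t) = g k * (t.map s).prod + r k * Ew g r s t := rfl

variable [Algebra ℚ R]

/-- `y_{k₁}⋯y_{k_d} ↦ ∑_i r_{k₁}⋯r_{k_{i-1}} g_{k_i} s_{k_{i+1}}⋯s_{k_d}`. -/
def EE (g r s : ℕ+ → R) : NC ℕ+ →ₗ[ℚ] R := linw (Ew g r s)

@[simp] theorem EE_wd (g r s : ℕ+ → R) (t : List ℕ+) : EE g r s (wd t) = Ew g r s t := by
  rw [EE, linw_wd]

theorem ev_wd_prod (r : ℕ+ → R) (t : List ℕ+) : ev r (wd t) = (t.map r).prod := by
  induction t with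
  | nil => simp
  | cons k t ih => rw [ev_cons, ih]; simp

end words

/-! ### Hoffman words -/

/-- Words in the blocks `x₀x₁` (`false`) and `x₀x₀x₁` (`true`). -/
def hw : List Bool → List (Fin 2)
  | [] => []
  | false :: t => 0 :: 1 :: hw t
  | true :: t => 0 :: 0 :: 1 :: hw t

/-- The level: the number of blocks `x₀x₀x₁`. -/
def lev (b : List Bool) : ℕ := b.count true

/-- The block word `2^a 3 2^b`. -/
def hb (a b : ℕ) : List Bool := List.replicate a false ++ true :: List.replicate b false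

/-- `f` is homogeneous of weight `2r+1` in `Lie[x₀,x₁]` and its level-one coefficients satisfy
the 2-adic estimates needed for the triangularity argument. -/
structure LevelOne (f : NC (Fin 2)) (r : ℕ) (G : ℚ) : Prop where
  lie : f ∈ Lie01
  hom : Hg wX (2 * r + 1) f
  hr : 1 ≤ r
  pos : 0 < G
  bound : ∀ a b, a + b + 1 = r → padicNorm 2 (cf f (hw (hb a b))) ≤ G
  rev : ∀ a b, a + b + 1 = r →
    padicNorm 2 (cf f (hw (hb a b)) - cf f (hw (hb b a))) ≤ G / 2
  alt : padicNorm 2 (cf f (hw (List.replicate r false) ++ [0])) ≤ G / 2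
  top : padicNorm 2 (cf f (hw (hb (r - 1) 0))) = G

/-- The contribution of the removal of a prefix to the coefficient of `hw b` in `S_f(h)`. -/
def pre (f h : NC (Fin 2)) (r : ℕ) (b : List Bool) : ℚ :=
  ∑ i ∈ Finset.range (b.length + 1),
    if (hw (b.take i)).length = 2 * r + 1 then cf f (hw (b.take i)) * cf h (hw (b.drop i)) else 0

end

end Pool.Agent.H44DM
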