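import Mathlib
import Pool.Agent.H44DM.Defs

/-!
# Relations from the Lie property (module LIEREL)

(1) `tensor_lie`: the value of a Lie element on `M × M` with a rank-two block structure.
(2) `bridge`: evaluation on a vector killed by `X 0` only sees `piY f`.
(3) Explicit recursions in dimension 3 and 2.
-/

set_option autoImplicit false

namespace Pool.Agent.H44DM

open Pool.Agent.H4DM

noncomputable section

/-! ### The two general lemmas -/

section general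
variable {M : Type*} [AddCommGroup M] [Module ℚ M]

/-- The operator `(x, y) ↦ (V x + u x + n y, V y)`. -/
def TLop (V : Fin 2 → Module.End ℚ M) (u n : Fin 2 → ℚ) (i : Fin 2) : Module.End ℚ (M × M) where
  toFun w := (V i w.1 + u i • w.1 + n i • w.2, V i w.2)
  map_add' a b := by
    ext <;> simp only [Prod.fst_add, Prod.snd_add, map_add, smul_add] <;> abel
  map_smul' c a := by
    ext
    · simp only [Prod.smul_fst, Prod.smul_snd, map_smul, RingHom.id_apply, smul_add]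
      rw [smul_comm c (u i), smul_comm c (n i)]
    · simp

theorem TLop_apply (V : Fin 2 → Module.End ℚ M) (u n : Fin 2 → ℚ) (i : Fin 2) (x y : M) :
    TLop V u n i (x, y) = (V i x + u i • x + n i • y, V i y) := rfl

theorem tensor_lie (V : Fin 2 → Module.End ℚ M) (u n : Fin 2 → ℚ) {f : NC (Fin 2)}
    (hf : f ∈ Lie01) : ∃ p s : ℚ, ∀ x y : M,
      ev (TLop V u n) f (x, y) = (ev V f x + p • x + s • y, ev V f y) := by
  induction hf using LieSubalgebra.lieSpan_induction with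
  | mem x hx =>
    rcases hx with rfl | hx
    · exact ⟨u 0, n 0, fun x y => by rw [ev_x0, ev_x0, TLop_apply]⟩
    · rw [Set.mem_singleton_iff] at hx
      subst hx
      exact ⟨u 1, n 1, fun x y => by rw [ev_x1, ev_x1, TLop_apply]⟩
  | zero => exact ⟨0, 0, fun x y => by simp; rfl⟩
  | add a b _ _ ha hb =>
    obtain ⟨p, s, h⟩ := ha
    obtain ⟨p', s', h'⟩ := hb
    refine ⟨p + p', s + s', fun x y => ?_⟩
    rw [map_add, map_add, LinearMap.add_apply, h, h', Prod.mk_add_mk]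
    simp only [LinearMap.add_apply, add_smul]
    congr 1
    abel
  | smul c a _ ha =>
    obtain ⟨p, s, h⟩ := ha
    refine ⟨c * p, c * s, fun x y => ?_⟩
    rw [map_smul, map_smul, LinearMap.smul_apply, h, Prod.smul_mk]
    simp only [LinearMap.smul_apply, smul_add, mul_smul]
  | lie a b _ _ ha hb =>
    obtain ⟨p, s, h⟩ := ha
    obtain ⟨p', s', h'⟩ := hb
    refine ⟨0, p * s' - s * p', fun x y => ?_⟩
    rw [LieRing.of_associative_ring_bracket, map_sub, map_mul, map_mul, map_sub, map_mul, map_mul]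
    simp only [LinearMap.sub_apply, Module.End.mul_apply]
    rw [h, h', h, h']
    simp only [map_add, map_smul, smul_add, Prod.mk_sub_mk, zero_smul, add_zero, sub_smul, mul_smul]
    congr 1
    rw [smul_comm p' p x, smul_comm p' s y, smul_comm p s' y]
    abel

end general

theorem bridge {W : Type*} [AddCommGroup W] [Module ℚ W] (X : Fin 2 → Module.End ℚ W) (e : W)
    (he : X 0 e = 0) (f : NC (Fin 2)) :
    ev X f e = ev (fun k : ℕ+ => X 0 ^ ((k : ℕ) - 1) * X 1) (piY f) e := by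
  have hj : ∀ P : NC ℕ+, ev X (jA P) = ev (fun k : ℕ+ => X 0 ^ ((k : ℕ) - 1) * X 1) P := by
    intro P
    induction P using nc_induction with
    | hw t =>
      induction t with
      | nil => rw [wd_nil, map_one, map_one, map_one]
      | cons k t ih =>
        rw [ev_cons, ← ih, wd_cons, map_mul, map_mul, jA_letter, map_mul, map_pow, ev_x0, ev_x1]
    | zero => simp
    | add p q hp hq => rw [map_add, map_add, hp, hq, map_add]
    | smul c p hp => rw [map_smul, map_smul, hp, map_smul]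
  induction f using nc_induction with
  | hw l =>
    rw [piY_word, wd_eq, map_mul, hj, map_pow, ev_x0]
    by_cases hb : (parse l).2 = 0
    · rw [if_pos hb, hb, pow_zero, mul_one]
    · rw [if_neg hb, map_zero]
      obtain ⟨m, hm⟩ := Nat.exists_eq_succ_of_ne_zero hb
      rw [hm, pow_succ, Module.End.mul_apply, Module.End.mul_apply, he, map_zero, map_zero,
        LinearMap.zero_apply]
  | zero => simp
  | add p q hp hq => rw [map_add, LinearMap.add_apply, hp, hq, map_add, map_add, LinearMap.add_apply]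
  | smul c p hp =>
    rw [map_smul, LinearMap.smul_apply, hp, map_smul, map_smul, LinearMap.smul_apply]

/-! ### Tools for the recursions -/

/-- A linear functional on `ℚ⟨Y⟩` of the form `P ↦ φ (ev Z P e)` has the values `φ (ev Z (wd t) e)`. -/
theorem fun_eq {W : Type*} [AddCommGroup W] [Module ℚ W] (Z : ℕ+ → Module.End ℚ W) (e : W)
    (φ : W →ₗ[ℚ] ℚ) (L : NC ℕ+ →ₗ[ℚ] ℚ) (h : ∀ t, L (wd t) = φ (ev Z (wd t) e)) (P : NC ℕ+) :
    L P = φ (ev Z P e) := by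
  induction P using nc_induction with
  | hw t => exact h t
  | zero => simp
  | add p q hp hq => rw [map_add, hp, hq, map_add, LinearMap.add_apply, map_add]
  | smul c p hp => rw [map_smul, hp, map_smul, LinearMap.smul_apply, map_smul]

/-- products over a word -/
def Pr (r : ℕ+ → ℚ) (t : List ℕ+) : ℚ := (t.map r).prod

@[simp] theorem Pr_nil (r : ℕ+ → ℚ) : Pr r [] = 1 := by simp [Pr]
@[simp] theorem Pr_cons (r : ℕ+ → ℚ) (k : ℕ+) (t : List ℕ+) : Pr r (k :: t) = r k * Pr r t := by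
  simp [Pr]
@[simp] theorem Pr_zero_cons (k : ℕ+) (t : List ℕ+) : Pr 0 (k :: t) = 0 := by
  simp [Pr]

theorem Ew_cons' (g r s : ℕ+ → ℚ) (k : ℕ+) (t : List ℕ+) :
    Ew g r s (k :: t) = g k * Pr s t + r k * Ew g r s t := rfl

/-! ### Three-dimensional case -/

/-- the explicit `V` for `relL3` -/
def V3 (q c : ℚ) (i : Fin 2) : Module.End ℚ (ℚ × ℚ × ℚ) :=
  if i = 0 then
    { toFun := fun v => (0, q * v.2.1, 0)
      map_add' := fun a b => by ext <;> simp [mul_add]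
      map_smul' := fun a b => by ext <;> simp [mul_left_comm] }
  else
    { toFun := fun v => (v.2.1, -c * v.2.1 + v.2.2, 0)
      map_add' := fun a b => by ext <;> simp <;> ring
      map_smul' := fun a b => by ext <;> simp <;> ring }

theorem V3_zero (q c : ℚ) (v : ℚ × ℚ × ℚ) : V3 q c 0 v = (0, q * v.2.1, 0) := rfl
theorem V3_one (q c : ℚ) (v : ℚ × ℚ × ℚ) : V3 q c 1 v = (v.2.1, -c * v.2.1 + v.2.2, 0) := rfl

theorem TLop3_pow (q c p : ℚ) (u : ℚ) (m : ℕ) (x y : ℚ × ℚ × ℚ) :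
    (TLop (V3 q c) ![p, u] ![0, 1] 0 ^ m) (x, y) =
      ((p ^ m * x.1, (p + q) ^ m * x.2.1, p ^ m * x.2.2),
        ((0 : ℚ) ^ m * y.1, q ^ m * y.2.1, (0 : ℚ) ^ m * y.2.2)) := by
  induction m with
  | zero => simp
  | succ m ih =>
    rw [pow_succ', Module.End.mul_apply, ih, TLop_apply, V3_zero, V3_zero]
    simp only [Matrix.cons_val_zero, Prod.smul_mk, smul_eq_mul, Prod.mk_add_mk, zero_mul, zero_add,
      add_zero, pow_succ']
    ext <;> simp <;> ring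

/-- one step of the recursion -/
theorem step3 (q c p : ℚ) (k : ℕ+) (x1 x2 x3 y1 y2 y3 : ℚ) :
    (TLop (V3 q c) ![p, c] ![0, 1] 0 ^ ((k : ℕ) - 1) * TLop (V3 q c) ![p, c] ![0, 1] 1)
      ((x1, x2, x3), (y1, y2, y3)) =
      ((ge p k * (x2 + c * x1 + y1), ge (p + q) k * (x3 + y2), ge p k * (c * x3 + y3)),
        (ge 0 k * y2, ge q k * (-c * y2 + y3), 0)) := by
  rw [Module.End.mul_apply, TLop_apply, V3_one, V3_one]
  simp only [Matrix.cons_val_one, Matrix.cons_val_zero, Prod.smul_mk, smul_eq_mul, Prod.mk_add_mk,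
    one_smul]
  rw [TLop3_pow]
  simp only [ge]
  ext <;> simp <;> ring

theorem closed3 (h c : ℚ) (t : List ℕ+) :
    ∃ x1 x2 x3 y1 y2 y3 : ℚ,
      ev (fun k : ℕ+ => TLop (V3 (h - c) c) ![h + c, c] ![0, 1] 0 ^ ((k : ℕ) - 1) *
        TLop (V3 (h - c) c) ![h + c, c] ![0, 1] 1) (wd t) ((0, 0, 0), (0, 0, 1)) =
        ((x1, x2, x3), (y1, y2, y3)) ∧
      y3 = Pr 0 t ∧ c * y2 = Pr 0 t - Pr ((-c) • ge (h - c)) t ∧
      c * x3 = Pr (c • ge (h + c)) t - Pr 0 t ∧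
      c * x2 + c * y1 = -Ew (ge 0 + ge (2 * h)) 0 ((-c) • ge (h - c)) t
        + Ew (ge (2 * h)) 0 (c • ge (h + c)) t + Ew (ge 0) 0 0 t ∧
      c ^ 2 * x1 = -Ew (ge 0 + ge (2 * h)) (c • ge (h + c)) ((-c) • ge (h - c)) t
        + Ew (ge 0 + ge (2 * h)) 0 ((-c) • ge (h - c)) t
        + Ew (ge (2 * h)) (c • ge (h + c)) (c • ge (h + c)) t
        - Ew (ge (2 * h)) 0 (c • ge (h + c)) t
        + Ew (ge 0) (c • ge (h + c)) 0 t - Ew (ge 0) 0 0 t := by
  induction t with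
  | nil =>
    refine ⟨0, 0, 0, 0, 0, 1, by rw [ev_nil]; rfl, ?_⟩
    simp
  | cons k t ih =>
    obtain ⟨x1, x2, x3, y1, y2, y3, he, h1, h2, h3, h4, h5⟩ := ih
    refine ⟨ge (h + c) k * (x2 + c * x1 + y1), ge (h + c + (h - c)) k * (x3 + y2),
      ge (h + c) k * (c * x3 + y3), ge 0 k * y2, ge (h - c) k * (-c * y2 + y3), 0, ?_, ?_⟩
    · rw [ev_cons, Module.End.mul_apply, he]
      exact step3 (h - c) c (h + c) k x1 x2 x3 y1 y2 y3
    · have e2 : h + c + (h - c) = 2 * h := by ring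
      rw [e2]
      simp only [Ew_cons', Pr_cons, Pi.zero_apply, zero_mul, Pi.add_apply, Pi.smul_apply,
        smul_eq_mul, add_zero]
      refine ⟨trivial, ?_, ?_, ?_, ?_⟩
      · linear_combination (-c * ge (h - c) k) * h2 + (c * ge (h - c) k) * h1
      · linear_combination (c * ge (h + c) k) * h3 + (c * ge (h + c) k) * h1
      · linear_combination (ge (2 * h) k) * h3 + (ge (2 * h) k) * h2 + (ge 0 k) * h2
      · linear_combination (c * ge (h + c) k) * h5 + (c * ge (h + c) k) * h4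

theorem relL3 {f : NC (Fin 2)} (hf : f ∈ Lie01) (h c : ℚ) (hc : c ≠ 0) :
    -EE (ge 0 + ge (2 * h)) (c • ge (h + c)) ((-c) • ge (h - c)) (piY f)
    + EE (ge 0 + ge (2 * h)) 0 ((-c) • ge (h - c)) (piY f)
    + EE (ge (2 * h)) (c • ge (h + c)) (c • ge (h + c)) (piY f)
    - EE (ge (2 * h)) 0 (c • ge (h + c)) (piY f)
    + EE (ge 0) (c • ge (h + c)) 0 (piY f) - EE (ge 0) 0 0 (piY f) = 0 := by
  obtain ⟨p, s, hps⟩ := tensor_lie (V3 (h - c) c) ![h + c, c] ![0, 1] hf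
  have h1 := hps (0, 0, 0) (0, 0, 1)
  rw [bridge _ _ (by rw [TLop_apply, V3_zero, V3_zero]; simp)] at h1
  let φ : (ℚ × ℚ × ℚ) × (ℚ × ℚ × ℚ) →ₗ[ℚ] ℚ :=
    c ^ 2 • (LinearMap.fst ℚ ℚ (ℚ × ℚ)) ∘ₗ (LinearMap.fst ℚ (ℚ × ℚ × ℚ) (ℚ × ℚ × ℚ))
  let L : NC ℕ+ →ₗ[ℚ] ℚ := -EE (ge 0 + ge (2 * h)) (c • ge (h + c)) ((-c) • ge (h - c))
    + EE (ge 0 + ge (2 * h)) 0 ((-c) • ge (h - c))
    + EE (ge (2 * h)) (c • ge (h + c)) (c • ge (h + c))
    - EE (ge (2 * h)) 0 (c • ge (h + c))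
    + EE (ge 0) (c • ge (h + c)) 0 - EE (ge 0) 0 0
  have h2 := fun_eq (fun k : ℕ+ => TLop (V3 (h - c) c) ![h + c, c] ![0, 1] 0 ^ ((k : ℕ) - 1) *
        TLop (V3 (h - c) c) ![h + c, c] ![0, 1] 1) ((0, 0, 0), (0, 0, 1)) φ L (by
    intro t
    obtain ⟨x1, x2, x3, y1, y2, y3, he, _, _, _, _, h5⟩ := closed3 h c t
    rw [he]
    change _ = c ^ 2 * x1
    rw [h5]
    simp only [L, LinearMap.add_apply, LinearMap.sub_apply, LinearMap.neg_apply, EE_wd]) (piY f)
  rw [h1] at h2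
  change _ = c ^ 2 * ((ev (V3 (h - c) c) f) 0 + p • (0 : ℚ × ℚ × ℚ) + s • ((0, 0, 1) : ℚ × ℚ × ℚ)).1
    at h2
  rw [map_zero] at h2
  simp at h2
  simpa [L] using h2

/-! ### Two-dimensional cases -/

/-- the explicit `V` for `relB1a` (`c`) and `relB1b` (`c = 0`) -/
def V2 (q c : ℚ) (i : Fin 2) : Module.End ℚ (ℚ × ℚ) :=
  if i = 0 then
    { toFun := fun v => (q * v.1, 0)
      map_add' := fun a b => by ext <;> simp [mul_add]
      map_smul' := fun a b => by ext <;> simp [mul_left_comm] }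
  else
    { toFun := fun v => (-c * v.1 + v.2, 0)
      map_add' := fun a b => by
        ext
        · simp only [Prod.fst_add, Prod.snd_add]; ring
        · simp
      map_smul' := fun a b => by
        ext
        · simp only [Prod.smul_fst, Prod.smul_snd, smul_eq_mul, RingHom.id_apply]; ring
        · simp }

theorem V2_zero (q c : ℚ) (v : ℚ × ℚ) : V2 q c 0 v = (q * v.1, 0) := rfl
theorem V2_one (q c : ℚ) (v : ℚ × ℚ) : V2 q c 1 v = (-c * v.1 + v.2, 0) := rfl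

theorem TLop2_pow (q c p : ℚ) (u : ℚ) (m : ℕ) (x y : ℚ × ℚ) :
    (TLop (V2 q c) ![p, u] ![0, 1] 0 ^ m) (x, y) =
      (((p + q) ^ m * x.1, p ^ m * x.2), (q ^ m * y.1, (0 : ℚ) ^ m * y.2)) := by
  induction m with
  | zero => simp
  | succ m ih =>
    rw [pow_succ', Module.End.mul_apply, ih, TLop_apply, V2_zero, V2_zero]
    simp only [Matrix.cons_val_zero, Prod.smul_mk, smul_eq_mul, Prod.mk_add_mk, zero_mul, zero_add,
      add_zero, pow_succ']
    ext <;> simp <;> ring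

theorem step2 (q c p u : ℚ) (k : ℕ+) (x1 x2 y1 y2 : ℚ) :
    (TLop (V2 q c) ![p, u] ![0, 1] 0 ^ ((k : ℕ) - 1) * TLop (V2 q c) ![p, u] ![0, 1] 1)
      ((x1, x2), (y1, y2)) =
      ((ge (p + q) k * ((u - c) * x1 + x2 + y1), ge p k * (u * x2 + y2)),
        (ge q k * (-c * y1 + y2), 0)) := by
  rw [Module.End.mul_apply, TLop_apply, V2_one, V2_one]
  simp only [Matrix.cons_val_one, Matrix.cons_val_zero, Prod.smul_mk, smul_eq_mul, Prod.mk_add_mk,
    one_smul]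
  rw [TLop2_pow]
  simp only [ge]
  refine Prod.ext (Prod.ext ?_ ?_) (Prod.ext ?_ ?_)
  · change _ = (p + q) ^ ((k : ℕ) - 1) * ((u - c) * x1 + x2 + y1)
    ring
  · change _ = p ^ ((k : ℕ) - 1) * (u * x2 + y2)
    ring
  · rfl
  · change (0 : ℚ) ^ ((k : ℕ) - 1) * 0 = 0
    ring

theorem closed2a (h c : ℚ) (t : List ℕ+) :
    ∃ x1 x2 y1 y2 : ℚ,
      ev (fun k : ℕ+ => TLop (V2 (h - c) c) ![h + c, c] ![0, 1] 0 ^ ((k : ℕ) - 1) *
        TLop (V2 (h - c) c) ![h + c, c] ![0, 1] 1) (wd t) ((0, 0), (0, 1)) =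
        ((x1, x2), (y1, y2)) ∧
      y2 = Pr 0 t ∧ c * y1 = Pr 0 t - Pr ((-c) • ge (h - c)) t ∧
      c * x2 = Pr (c • ge (h + c)) t - Pr 0 t ∧
      c * x1 = Ew (ge (2 * h)) 0 (c • ge (h + c)) t
        - Ew (ge (2 * h)) 0 ((-c) • ge (h - c)) t := by
  induction t with
  | nil =>
    refine ⟨0, 0, 0, 1, by rw [ev_nil]; rfl, ?_⟩
    simp
  | cons k t ih =>
    obtain ⟨x1, x2, y1, y2, he, h1, h2, h3, h4⟩ := ih
    refine ⟨ge (h + c + (h - c)) k * ((c - c) * x1 + x2 + y1), ge (h + c) k * (c * x2 + y2),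
      ge (h - c) k * (-c * y1 + y2), 0, ?_, ?_⟩
    · rw [ev_cons, Module.End.mul_apply, he]
      exact step2 (h - c) c (h + c) c k x1 x2 y1 y2
    · have e2 : h + c + (h - c) = 2 * h := by ring
      rw [e2]
      simp only [Ew_cons', Pr_cons, Pi.zero_apply, zero_mul, Pi.smul_apply,
        smul_eq_mul, add_zero]
      refine ⟨trivial, ?_, ?_, ?_⟩
      · linear_combination (-c * ge (h - c) k) * h2 + (c * ge (h - c) k) * h1
      · linear_combination (c * ge (h + c) k) * h3 + (c * ge (h + c) k) * h1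
      · linear_combination (ge (2 * h) k) * h3 + (ge (2 * h) k) * h2

theorem closed2b (x y : ℚ) (t : List ℕ+) :
    ∃ x1 x2 y1 y2 : ℚ,
      ev (fun k : ℕ+ => TLop (V2 (x + y) 0) ![-x, y - x] ![0, 1] 0 ^ ((k : ℕ) - 1) *
        TLop (V2 (x + y) 0) ![-x, y - x] ![0, 1] 1) (wd t) ((0, 0), (0, 1)) =
        ((x1, x2), (y1, y2)) ∧
      y2 = Pr 0 t ∧ y1 = Ew (ge (x + y)) 0 0 t ∧
      (y - x) * x2 = Pr ((y - x) • ge (-x)) t - Pr 0 t ∧
      (y - x) * x1 = Ew (ge y) ((y - x) • ge y) ((y - x) • ge (-x)) t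
        + Ew (ge (x + y) - ge y) ((y - x) • ge y) 0 t - Ew (ge (x + y)) 0 0 t := by
  induction t with
  | nil =>
    refine ⟨0, 0, 0, 1, by rw [ev_nil]; rfl, ?_⟩
    simp
  | cons k t ih =>
    obtain ⟨x1, x2, y1, y2, he, h1, h2, h3, h4⟩ := ih
    refine ⟨ge (-x + (x + y)) k * ((y - x - 0) * x1 + x2 + y1), ge (-x) k * ((y - x) * x2 + y2),
      ge (x + y) k * (-0 * y1 + y2), 0, ?_, ?_⟩
    · rw [ev_cons, Module.End.mul_apply, he]
      exact step2 (x + y) 0 (-x) (y - x) k x1 x2 y1 y2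
    · have e2 : -x + (x + y) = y := by ring
      rw [e2]
      simp only [Ew_cons', Pr_cons, Pi.zero_apply, zero_mul, Pi.smul_apply, Pi.sub_apply,
        smul_eq_mul, add_zero]
      refine ⟨trivial, ?_, ?_, ?_⟩
      · rw [h1]; ring
      · linear_combination ((y - x) * ge (-x) k) * h3 + ((y - x) * ge (-x) k) * h1
      · linear_combination ((y - x) * ge y k) * h4 + ((y - x) * ge y k) * h2 + (ge y k) * h3

theorem relB1a {f : NC (Fin 2)} (hf : f ∈ Lie01) (h c : ℚ) (hc : c ≠ 0) :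
    EE (ge (2 * h)) 0 (c • ge (h + c)) (piY f) =
      EE (ge (2 * h)) 0 ((-c) • ge (h - c)) (piY f) := by
  obtain ⟨p, s, hps⟩ := tensor_lie (V2 (h - c) c) ![h + c, c] ![0, 1] hf
  have h1 := hps (0, 0) (0, 1)
  rw [bridge _ _ (by rw [TLop_apply, V2_zero, V2_zero]; simp)] at h1
  let φ : (ℚ × ℚ) × (ℚ × ℚ) →ₗ[ℚ] ℚ :=
    c • (LinearMap.fst ℚ ℚ ℚ) ∘ₗ (LinearMap.fst ℚ (ℚ × ℚ) (ℚ × ℚ))
  let L : NC ℕ+ →ₗ[ℚ] ℚ := EE (ge (2 * h)) 0 (c • ge (h + c))
    - EE (ge (2 * h)) 0 ((-c) • ge (h - c))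
  have h2 := fun_eq (fun k : ℕ+ => TLop (V2 (h - c) c) ![h + c, c] ![0, 1] 0 ^ ((k : ℕ) - 1) *
        TLop (V2 (h - c) c) ![h + c, c] ![0, 1] 1) ((0, 0), (0, 1)) φ L (by
    intro t
    obtain ⟨x1, x2, y1, y2, he, _, _, _, h5⟩ := closed2a h c t
    rw [he]
    change _ = c * x1
    rw [h5]
    simp only [L, LinearMap.sub_apply, EE_wd]) (piY f)
  rw [h1] at h2
  change _ = c * ((ev (V2 (h - c) c) f) 0 + p • (0 : ℚ × ℚ) + s • ((0, 1) : ℚ × ℚ)).1
    at h2
  rw [map_zero] at h2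
  simp at h2
  simpa [L, sub_eq_zero] using h2

theorem relB1b {f : NC (Fin 2)} (hf : f ∈ Lie01) (x y : ℚ) (hxy : y - x ≠ 0) :
    EE (ge y) ((y - x) • ge y) ((y - x) • ge (-x)) (piY f)
    + EE (ge (x + y) - ge y) ((y - x) • ge y) 0 (piY f)
    - EE (ge (x + y)) 0 0 (piY f) = 0 := by
  obtain ⟨p, s, hps⟩ := tensor_lie (V2 (x + y) 0) ![-x, y - x] ![0, 1] hf
  have h1 := hps (0, 0) (0, 1)
  rw [bridge _ _ (by rw [TLop_apply, V2_zero, V2_zero]; simp)] at h1
  let φ : (ℚ × ℚ) × (ℚ × ℚ) →ₗ[ℚ] ℚ :=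
    (y - x) • (LinearMap.fst ℚ ℚ ℚ) ∘ₗ (LinearMap.fst ℚ (ℚ × ℚ) (ℚ × ℚ))
  let L : NC ℕ+ →ₗ[ℚ] ℚ := EE (ge y) ((y - x) • ge y) ((y - x) • ge (-x))
    + EE (ge (x + y) - ge y) ((y - x) • ge y) 0 - EE (ge (x + y)) 0 0
  have h2 := fun_eq (fun k : ℕ+ => TLop (V2 (x + y) 0) ![-x, y - x] ![0, 1] 0 ^ ((k : ℕ) - 1) *
        TLop (V2 (x + y) 0) ![-x, y - x] ![0, 1] 1) ((0, 0), (0, 1)) φ L (by
    intro t
    obtain ⟨x1, x2, y1, y2, he, _, _, _, h5⟩ := closed2b x y t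
    rw [he]
    change _ = (y - x) * x1
    rw [h5]
    simp only [L, LinearMap.add_apply, LinearMap.sub_apply, EE_wd]) (piY f)
  rw [h1] at h2
  change _ = (y - x) * ((ev (V2 (x + y) 0) f) 0 + p • (0 : ℚ × ℚ) + s • ((0, 1) : ℚ × ℚ)).1
    at h2
  rw [map_zero] at h2
  simp at h2
  simpa [L] using h2

end

end Pool.Agent.H44DM
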