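import Mathlib
import Pool.Agent.H44DM.Defs

/-!
# Consequences of the primitivity for the stuffle coproduct

`EP G R S` is the functional `EE` for the coefficients of three power series; a primitive element
does not change it if `G, R, S` are multiplied by a power series with constant coefficient `1`.
-/

set_option autoImplicit false

open PowerSeries
open scoped TensorProduct

namespace Pool.Agent.H44DM

open Pool.Agent.H4DM

noncomputable section

/-- The coefficients of positive degree. -/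
def sq (P : ℚ⟦X⟧) (k : ℕ+) : ℚ := coeff (k : ℕ) P

/-- The power series `t/(1-at)`. -/
def gp (a : ℚ) : ℚ⟦X⟧ := X * mk (fun n => a ^ n)

theorem coeff_gp (a : ℚ) (k : ℕ+) : coeff (k : ℕ) (gp a) = a ^ ((k : ℕ) - 1) := by
  obtain ⟨n, hn⟩ : ∃ n, (k : ℕ) = n + 1 := ⟨k - 1, by have := k.pos; omega⟩
  rw [hn, gp, coeff_succ_X_mul, coeff_mk]; rfl

theorem sq_gp (a : ℚ) : sq (gp a) = ge a := by
  funext k; exact coeff_gp a k

theorem constCoeff_gp (a : ℚ) : constantCoeff (gp a) = 0 := by
  simp [gp]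

theorem sq_one_add (P : ℚ⟦X⟧) : sq (1 + P) = sq P := by
  funext k
  rw [sq, map_add, coeff_one, if_neg k.pos.ne', zero_add]; rfl

theorem sq_one : sq 1 = 0 := by
  funext k
  rw [sq, coeff_one, if_neg k.pos.ne']; rfl

theorem sq_smul (c : ℚ) (P : ℚ⟦X⟧) : sq (c • P) = c • sq P := by
  funext k; simp [sq]

theorem sq_add (P Q : ℚ⟦X⟧) : sq (P + Q) = sq P + sq Q := by
  funext k; simp [sq]

theorem sq_sub (P Q : ℚ⟦X⟧) : sq (P - Q) = sq P - sq Q := by
  funext k; simp [sq]

theorem gp_lin (c : ℚ) : gp c * (1 - C c * X) = X := by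
  have h2 : (mk (fun n => c ^ n) : ℚ⟦X⟧) * (1 - C c * X) = 1 := by
    ext n
    rcases n with _ | n
    · simp
    · rw [mul_sub, mul_one, map_sub, coeff_mk, ← mul_assoc, coeff_succ_mul_X,
        mul_comm _ (C c), coeff_C_mul, coeff_mk, coeff_one, if_neg (by omega), pow_succ']
      ring
  rw [gp, mul_assoc, h2, mul_one]

/-- The product rule for `t/(1-at)`. -/
theorem gp_mul {a b : ℚ} (h : a ≠ b) : gp a * gp b = (a - b)⁻¹ • (gp a - gp b) := by
  have h0 : a - b ≠ 0 := sub_ne_zero.mpr h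
  have hU : ((1 : ℚ⟦X⟧) - C a * X) * (1 - C b * X) ≠ 0 := by
    intro h2
    have := congrArg (constantCoeff (R := ℚ)) h2
    simp at this
  apply mul_right_cancel₀ hU
  have ha := gp_lin a
  have hb := gp_lin b
  have hs : (C ((a - b)⁻¹) : ℚ⟦X⟧) * (C a - C b) = 1 := by
    rw [← map_sub, ← map_mul, inv_mul_cancel₀ h0, map_one]
  rw [PowerSeries.smul_eq_C_mul]
  linear_combination (gp b * (1 - C b * X) - C ((a - b)⁻¹) * (1 - C b * X)) * ha
    + (X + C ((a - b)⁻¹) * (1 - C a * X)) * hb - X * X * hs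

/-- Multiplication by `1 + c t/(1-bt)`. -/
theorem gp_tw {a b : ℚ} (c : ℚ) (h : a ≠ b) :
    gp a * (1 + c • gp b) = (1 + c / (a - b)) • gp a - (c / (a - b)) • gp b := by
  rw [mul_add, mul_one, mul_smul_comm, gp_mul h]
  module

/-- The functional attached to three power series. -/
def EP (G R S : ℚ⟦X⟧) : NC ℕ+ →ₗ[ℚ] ℚ := EE (sq G) (sq R) (sq S)

/-- The matrices giving `EE`. -/
def mt (G R S : ℚ⟦X⟧) (n : ℕ) : Matrix (Fin 2) (Fin 2) ℚ :=
  !![coeff n R, coeff n G; 0, coeff n S]

theorem ev_mt (G R S : ℚ⟦X⟧) (F : NC ℕ+) :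
    ev (fun k : ℕ+ => mt G R S k) F = !![ev (sq R) F, EP G R S F; 0, ev (sq S) F] := by
  induction F using nc_induction with
  | hw l =>
    induction l with
    | nil =>
      have h0 : EP G R S (wd []) = 0 := by rw [EP, EE_wd, Ew_nil]
      rw [h0, ev_nil, ev_nil, ev_nil]
      exact Matrix.one_fin_two
    | cons k t ih =>
      have h1 : EP G R S (wd (k :: t)) = sq G k * ev (sq S) (wd t) + sq R k * EP G R S (wd t) := by
        rw [EP, EE_wd, EE_wd, Ew_cons, ev_wd_prod]
      rw [ev_cons, ih, ev_cons, ev_cons, h1, mt]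
      ext i j
      fin_cases i <;> fin_cases j <;> simp [sq, Matrix.mul_apply, Fin.sum_univ_two]
      ring
  | zero => ext i j; fin_cases i <;> fin_cases j <;> simp
  | add p q hp hq =>
    rw [map_add, hp, hq]; ext i j; fin_cases i <;> fin_cases j <;> simp
  | smul c p hp =>
    rw [map_smul, hp]; ext i j; fin_cases i <;> fin_cases j <;> simp

theorem algHom_ext_letters {α : Type} {B : Type*} [Ring B] [Algebra ℚ B] {θ η : NC α →ₐ[ℚ] B}
    (h : ∀ a, θ (wd [a]) = η (wd [a])) : θ = η := by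
  apply AlgHom.ext
  intro p
  induction p using nc_induction with
  | hw l =>
    induction l with
    | nil => rw [wd_nil, map_one, map_one]
    | cons a l ih => rw [wd_cons, map_mul, map_mul, ih, h]
  | zero => simp
  | add p q hp hq => rw [map_add, map_add, hp, hq]
  | smul c p hp => rw [map_smul, map_smul, hp]

theorem ev_mt_yy {G R S : ℚ⟦X⟧} (hG : constantCoeff G = 0) (hR : constantCoeff R = 1)
    (hS : constantCoeff S = 1) (n : ℕ) : ev (fun k : ℕ+ => mt G R S k) (yy n) = mt G R S n := by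
  rcases n with _ | n
  · rw [yy, map_one, mt]
    rw [coeff_zero_eq_constantCoeff_apply, coeff_zero_eq_constantCoeff_apply,
      coeff_zero_eq_constantCoeff_apply, hG, hR, hS]
    exact Matrix.one_fin_two
  · rw [yy, ev_letter]; rfl

theorem ev_sq_yy {P : ℚ⟦X⟧} (hP : constantCoeff P = 1) (n : ℕ) :
    ev (sq P) (yy n) = coeff n P := by
  rcases n with _ | n
  · rw [yy, map_one, coeff_zero_eq_constantCoeff_apply, hP]
  · rw [yy, ev_letter]; rfl

theorem conv_eq {G R S P : ℚ⟦X⟧} (hG : constantCoeff G = 0) (hR : constantCoeff R = 1)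
    (hS : constantCoeff S = 1) (hP : constantCoeff P = 1) :
    (Algebra.TensorProduct.lift (ev (fun k : ℕ+ => mt G R S k))
      ((Algebra.ofId ℚ (Matrix (Fin 2) (Fin 2) ℚ)).comp (ev (sq P)))
      (fun x y => by
        rw [AlgHom.comp_apply, Algebra.ofId_apply]
        exact (Algebra.commutes _ _).symm)).comp stuffleCoproduct =
    ev (fun k : ℕ+ => mt (G * P) (R * P) (S * P) k) := by
  apply algHom_ext_letters
  intro n
  rw [AlgHom.comp_apply, Delta_wd_letter, map_sum, ev_letter]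
  ext i j
  rw [Matrix.sum_apply]
  have key : ∀ x : ℕ × ℕ, (Algebra.TensorProduct.lift (ev (fun k : ℕ+ => mt G R S k))
      ((Algebra.ofId ℚ (Matrix (Fin 2) (Fin 2) ℚ)).comp (ev (sq P)))
      (fun x y => by
        rw [AlgHom.comp_apply, Algebra.ofId_apply]
        exact (Algebra.commutes _ _).symm)) (yy x.1 ⊗ₜ[ℚ] yy x.2) i j =
      mt G R S x.1 i j * coeff x.2 P := by
    intro x
    rw [Algebra.TensorProduct.lift_tmul, ev_mt_yy hG hR hS, AlgHom.comp_apply, ev_sq_yy hP,
      Algebra.ofId_apply, Algebra.algebraMap_eq_smul_one, mul_smul_comm, mul_one,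
      Matrix.smul_apply, smul_eq_mul, mul_comm]
  rw [Finset.sum_congr rfl (fun x _ => key x)]
  fin_cases i <;> fin_cases j <;> simp [mt, coeff_mul]

theorem conv_prim {G R S P : ℚ⟦X⟧} (hG : constantCoeff G = 0) (hR : constantCoeff R = 1)
    (hS : constantCoeff S = 1) (hP : constantCoeff P = 1) {F : NC ℕ+} (hF : Prim F) :
    ev (fun k : ℕ+ => mt (G * P) (R * P) (S * P) k) F =
      ev (fun k : ℕ+ => mt G R S k) F + (ev (sq P) F) • 1 := by
  rw [← conv_eq hG hR hS hP, AlgHom.comp_apply, hF, map_add, Algebra.TensorProduct.lift_tmul,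
    Algebra.TensorProduct.lift_tmul, map_one, map_one, mul_one, one_mul, AlgHom.comp_apply,
    Algebra.ofId_apply, Algebra.algebraMap_eq_smul_one]

theorem EP_twist {G R S P : ℚ⟦X⟧} (hG : constantCoeff G = 0) (hR : constantCoeff R = 1)
    (hS : constantCoeff S = 1) (hP : constantCoeff P = 1) {F : NC ℕ+} (hF : Prim F) :
    EP (G * P) (R * P) (S * P) F = EP G R S F := by
  have h := conv_prim hG hR hS hP hF
  rw [ev_mt, ev_mt] at h
  have h1 := congrFun (congrFun h 0) 1
  simpa using h1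

theorem ph_mul {R P : ℚ⟦X⟧} (hR : constantCoeff R = 1) (hP : constantCoeff P = 1)
    {F : NC ℕ+} (hF : Prim F) :
    ev (sq (R * P)) F = ev (sq R) F + ev (sq P) F := by
  have h := conv_prim (G := 0) (S := 1) (by simp) hR (by simp) hP hF
  rw [ev_mt, ev_mt] at h
  have h1 := congrFun (congrFun h 0) 0
  simpa using h1

/-- A convenient form of the twist. -/
theorem EP_tw {G R S G' R' S' : ℚ⟦X⟧} (P : ℚ⟦X⟧) (hG : constantCoeff G = 0)
    (hR : constantCoeff R = 1)
    (hS : constantCoeff S = 1) (hP : constantCoeff P = 1) {F : NC ℕ+} (hF : Prim F)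
    (eG : G * P = G') (eR : R * P = R') (eS : S * P = S') :
    EP G R S F = EP G' R' S' F := by
  rw [← EP_twist hG hR hS hP hF, eG, eR, eS]

/-! ### Linearity -/

theorem Ew_add (g g' r s : ℕ+ → ℚ) (t : List ℕ+) : Ew (g + g') r s t = Ew g r s t + Ew g' r s t := by
  induction t with
  | nil => simp
  | cons k t ih => rw [Ew_cons, ih, Ew_cons, Ew_cons, Pi.add_apply]; ring

theorem Ew_smul (c : ℚ) (g r s : ℕ+ → ℚ) (t : List ℕ+) : Ew (c • g) r s t = c * Ew g r s t := by
  induction t with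
  | nil => simp
  | cons k t ih => rw [Ew_cons, ih, Ew_cons, Pi.smul_apply, smul_eq_mul]; ring

theorem EE_add (g g' r s : ℕ+ → ℚ) : EE (g + g') r s = EE g r s + EE g' r s := by
  apply lin_ext
  intro t
  rw [EE_wd, LinearMap.add_apply, EE_wd, EE_wd, Ew_add]

theorem EE_smul (c : ℚ) (g r s : ℕ+ → ℚ) : EE (c • g) r s = c • EE g r s := by
  apply lin_ext
  intro t
  rw [EE_wd, LinearMap.smul_apply, EE_wd, Ew_smul, smul_eq_mul]

theorem EP_add (G G' R S : ℚ⟦X⟧) (F : NC ℕ+) : EP (G + G') R S F = EP G R S F + EP G' R S F := by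
  rw [EP, sq_add, EE_add]; rfl

theorem EP_smul (c : ℚ) (G R S : ℚ⟦X⟧) (F : NC ℕ+) : EP (c • G) R S F = c * EP G R S F := by
  rw [EP, sq_smul, EE_smul]; rfl

theorem EP_sub (G G' R S : ℚ⟦X⟧) (F : NC ℕ+) : EP (G - G') R S F = EP G R S F - EP G' R S F := by
  have h : G - G' = G + (-1 : ℚ) • G' := by module
  rw [h, EP_add, EP_smul]; ring

/-! ### Telescoping -/

theorem Ew_telescope (r s : ℕ+ → ℚ) (t : List ℕ+) :
    Ew (r - s) r s t = (t.map r).prod - (t.map s).prod := by
  induction t with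
  | nil => simp
  | cons k t ih =>
    rw [Ew_cons, ih, List.map_cons, List.map_cons, List.prod_cons, List.prod_cons, Pi.sub_apply]
    ring

theorem EP_telescope (R S : ℚ⟦X⟧) (F : NC ℕ+) :
    EP (R - S) R S F = ev (sq R) F - ev (sq S) F := by
  have : EE (sq R - sq S) (sq R) (sq S) = (ev (sq R)).toLinearMap - (ev (sq S)).toLinearMap := by
    apply lin_ext
    intro t
    rw [EE_wd, Ew_telescope, LinearMap.sub_apply, AlgHom.toLinearMap_apply,
      AlgHom.toLinearMap_apply, ev_wd_prod, ev_wd_prod]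
  rw [EP, sq_sub, this]; rfl

/-- `R = 1`, `S = 1 + G`. -/
theorem EP_self (G : ℚ⟦X⟧) (F : NC ℕ+) (hF : cf F [] = 0) :
    EP G 1 (1 + G) F = ev (sq (1 + G)) F := by
  have : EE (sq G) 0 (sq G) = (ev (sq G)).toLinearMap - cfL [] := by
    apply lin_ext
    intro t
    rw [EE_wd, LinearMap.sub_apply, AlgHom.toLinearMap_apply, ev_wd_prod]
    have : cfL [] (wd t) = if t = [] then 1 else 0 := cf_wd t []
    rw [this]
    rcases t with _ | ⟨k, t⟩
    · simp
    · rw [Ew_cons]; simp
  rw [EP, sq_one_add, sq_one, this, LinearMap.sub_apply, AlgHom.toLinearMap_apply]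
  have : cfL [] F = cf F [] := rfl
  rw [this, hF, sub_zero]

/-! ### One letter -/

/-- A primitive element of weight `w`. -/
structure HP (F : NC ℕ+) (w : ℕ+) : Prop where
  prim : Prim F
  hom : Hg wY (w : ℕ) F

theorem EE_zero_zero (g : ℕ+ → ℚ) (w : ℕ+) {F : NC ℕ+} (hF : Hg wY (w : ℕ) F) :
    EE g 0 0 F = g w * cf F [w] := by
  have key : ∀ F : NC ℕ+, EE g 0 0 (comp wY (w : ℕ) F) = g w * cf F [w] := by
    intro F
    induction F using nc_induction with
    | hw l =>
      rw [comp_wd, cf_wd]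
      rcases l with _ | ⟨k, l⟩
      · rw [wt_nil, if_neg (by have := w.pos; omega), map_zero, if_neg (by simp), mul_zero]
      · rcases l with _ | ⟨m, l⟩
        · rw [wt_cons, wt_nil, add_zero]
          by_cases h : k = w
          · subst h
            rw [if_pos rfl, if_pos rfl, EE_wd, Ew_cons]; simp
          · rw [if_neg (fun h' => h (PNat.coe_injective h')), map_zero, if_neg (by simpa using h),
              mul_zero]
        · rw [if_neg (c := k :: m :: l = [w]) (by simp), mul_zero]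
          split_ifs
          · rw [EE_wd, Ew_cons, Ew_cons]; simp
          · rw [map_zero]
    | zero => simp
    | add p q hp hq => rw [map_add, map_add, hp, hq, cf_add]; ring
    | smul c p hp => rw [map_smul, map_smul, hp, cf_smul, smul_eq_mul]; ring
  have := key F
  rwa [hF.comp_eq] at this

theorem EP_one_one (G : ℚ⟦X⟧) (w : ℕ+) {F : NC ℕ+} (hF : Hg wY (w : ℕ) F) :
    EP G 1 1 F = coeff (w : ℕ) G * cf F [w] := by
  rw [EP, sq_one, EE_zero_zero (sq G) w hF]; rfl

/-- `E(QR; R, R) = [t^w]Q · (F | y_w)`. -/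
theorem EP_diag {Q R G : ℚ⟦X⟧} {w : ℕ+} {F : NC ℕ+} (hF : HP F w) (hQ : constantCoeff Q = 0)
    (hR : constantCoeff R = 1) (h : Q * R = G) :
    EP G R R F = coeff (w : ℕ) Q * cf F [w] := by
  rw [← h, ← EP_one_one Q w hF.hom]
  have := EP_twist hQ (map_one _) (map_one _) hR hF.prim (R := 1) (S := 1)
  rwa [one_mul] at this

/-! ### The characters -/

theorem ev_pow (a : ℚ) (w : ℕ+) {F : NC ℕ+} (hF : Hg wY (w : ℕ) F) :
    ev (fun k : ℕ+ => a ^ (k : ℕ)) F = a ^ (w : ℕ) * ev (fun _ : ℕ+ => (1 : ℚ)) F := by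
  have key : ∀ F : NC ℕ+, ev (fun k : ℕ+ => a ^ (k : ℕ)) (comp wY (w : ℕ) F) =
      a ^ (w : ℕ) * ev (fun _ : ℕ+ => (1 : ℚ)) (comp wY (w : ℕ) F) := by
    intro F
    induction F using nc_induction with
    | hw l =>
      rw [comp_wd]
      split_ifs with h
      · rw [← h, ev_wd_prod, ev_wd_prod]
        clear h
        induction l with
        | nil => simp
        | cons k l ih =>
          rw [List.map_cons, List.prod_cons, ih, wt_cons, pow_add, List.map_cons, List.prod_cons]
          show a ^ (k : ℕ) * _ = a ^ (k : ℕ) * _ * _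
          ring
      · simp
    | zero => simp
    | add p q hp hq => rw [map_add, map_add, hp, hq, map_add]; ring
    | smul c p hp => rw [map_smul, map_smul, hp, map_smul, smul_eq_mul, smul_eq_mul]; ring
  have := key F
  rwa [hF.comp_eq] at this

theorem euler (w : ℕ+) {F : NC ℕ+} (hF : Hg wY (w : ℕ) F) :
    EE (fun k : ℕ+ => ((k : ℕ) : ℚ)) 1 1 F = (w : ℕ) * ev (fun _ : ℕ+ => (1 : ℚ)) F := by
  have key : ∀ F : NC ℕ+, EE (fun k : ℕ+ => ((k : ℕ) : ℚ)) 1 1 (comp wY (w : ℕ) F) =
      (w : ℕ) * ev (fun _ : ℕ+ => (1 : ℚ)) (comp wY (w : ℕ) F) := by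
    intro F
    induction F using nc_induction with
    | hw l =>
      rw [comp_wd]
      split_ifs with h
      · rw [← h, ev_wd_prod, EE_wd]
        clear h
        induction l with
        | nil => simp
        | cons k l ih =>
          rw [Ew_cons, ih, wt_cons, List.map_cons, List.prod_cons]
          have h1 : (l.map (1 : ℕ+ → ℚ)).prod = 1 := by
            apply List.prod_eq_one
            intro x hx
            rw [List.mem_map] at hx
            obtain ⟨y, _, rfl⟩ := hx
            rfl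
          have h2 : (l.map (fun _ : ℕ+ => (1 : ℚ))).prod = 1 := h1
          rw [h1, h2, Pi.one_apply]
          push_cast
          show ((k : ℕ) : ℚ) * 1 + _ = (((k : ℕ) : ℚ) + _) * _
          ring
      · simp
    | zero => simp
    | add p q hp hq => rw [map_add, map_add, hp, hq, map_add]; ring
    | smul c p hp => rw [map_smul, map_smul, hp, map_smul, smul_eq_mul, smul_eq_mul]; ring
  have := key F
  rwa [hF.comp_eq] at this

theorem ev_ones {w : ℕ+} {F : NC ℕ+} (hF : HP F w) :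
    ev (fun _ : ℕ+ => (1 : ℚ)) F = cf F [w] / (w : ℕ) := by
  have h1 : sq (1 + gp 1) = 1 := by
    rw [sq_one_add, sq_gp]; funext k; simp [ge]
  have h2 : sq (gp 1 * (1 + gp 1)) = fun k : ℕ+ => ((k : ℕ) : ℚ) := by
    funext k
    obtain ⟨n, hn⟩ : ∃ n, (k : ℕ) = n + 1 := ⟨k - 1, by have := k.pos; omega⟩
    rw [sq, hn]
    have h3 : (1 + gp 1 : ℚ⟦X⟧) = mk (fun _ => (1 : ℚ)) := by
      ext m
      rcases m with _ | m
      · simp [gp]
      · rw [map_add, gp, coeff_succ_X_mul]; simp [coeff_one]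
    rw [h3, gp, mul_assoc, coeff_succ_X_mul, coeff_mul]
    simp
  have h3 : EP (gp 1 * (1 + gp 1)) (1 + gp 1) (1 + gp 1) F = coeff (w : ℕ) (gp 1) * cf F [w] :=
    EP_diag hF (constCoeff_gp 1) (by simp [constCoeff_gp]) rfl
  rw [EP, h1, h2, euler w hF.hom, coeff_gp, one_pow, one_mul] at h3
  have hw : ((w : ℕ) : ℚ) ≠ 0 := by exact_mod_cast w.pos.ne'
  rw [← h3]
  field_simp

theorem ev_geo (a : ℚ) {w : ℕ+} {F : NC ℕ+} (hF : HP F w) :
    ev (sq (1 + a • gp a)) F = cf F [w] / (w : ℕ) * a ^ (w : ℕ) := by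
  have h1 : sq (1 + a • gp a) = fun k : ℕ+ => a ^ (k : ℕ) := by
    funext k
    obtain ⟨n, hn⟩ : ∃ n, (k : ℕ) = n + 1 := ⟨k - 1, by have := k.pos; omega⟩
    rw [sq_one_add, sq_smul, sq_gp, Pi.smul_apply, ge, smul_eq_mul, hn, pow_succ']
    rfl
  rw [h1, ev_pow a w hF.hom, ev_ones hF]
  ring

/-- The character attached to `(1-(p-c)t)/(1-pt)`. -/
theorem ev_tw (p c : ℚ) {w : ℕ+} {F : NC ℕ+} (hF : HP F w) :
    ev (sq (1 + c • gp p)) F = cf F [w] / (w : ℕ) * (p ^ (w : ℕ) - (p - c) ^ (w : ℕ)) := by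
  by_cases hc : c = 0
  · subst hc
    rw [zero_smul, add_zero, sub_zero, sub_self, mul_zero]
    have h := ph_mul (R := 1) (P := 1) (by simp) (by simp) hF.prim
    rw [one_mul] at h
    linarith
  · have hne : p ≠ p - c := by intro h; apply hc; linarith
    have h1 : (1 + c • gp p) * (1 + (p - c) • gp (p - c)) = 1 + p • gp p := by
      rw [mul_add, mul_one, add_mul, smul_mul_assoc, mul_smul_comm, mul_smul_comm, gp_mul hne,
        one_mul]
      have h2 : p - (p - c) = c := by ring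
      rw [h2]
      match_scalars <;> field_simp <;> ring
    have h3 := ph_mul (R := 1 + c • gp p) (P := 1 + (p - c) • gp (p - c))
      (by simp [constCoeff_gp]) (by simp [constCoeff_gp]) hF.prim
    rw [h1, ev_geo p hF, ev_geo (p - c) hF] at h3
    linear_combination -h3

end

end Pool.Agent.H44DM
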