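import Mathlib
import Pool.Agent.H44DM.Defs

/-!
# Relations from trace zero and transposition (module TRACE)

PROOF SKETCH.  Let `S = DualNumber ℚ` (`= TrivSqZeroExt ℚ ℚ`, `ε² = 0`), a commutative `ℚ`-algebra.
Let `e, α : Fin n → S`, `X 0 = diag e`, `X 1 i j = α j` in `Matrix (Fin n) (Fin n) S`.
For `f ∈ Lie01` with `cf f [0] = cf f [1] = 0`, homogeneous of odd weight `w`:

(1) trace `Matrix.trace (ev X f) = 0` (Lie induction: trace of a commutator is `0`; keep track of
    the coefficients of the letters, `trace (ev X f) = cf f [0] • trace (X 0) + cf f [1] • trace (X 1)`).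
(2) translation: `ev (X + scalars) f = ev X f` (Lie induction; `ev (X + c) f = ev X f +
    (cf f [0] • c₀ + cf f [1] • c₁)`).
(3) bridge: if `X 0 *ᵥ v = 0` then `ev X f *ᵥ v = ev (fun k => X 0 ^ (k-1) * X 1) (piY f) *ᵥ v`.
(4) with base `e j` (subtract the scalar `e j` from `X 0`): `ev X f i j = α j * T i j` where
    `T i j = EE (ge (e i - e j)) 0 (fun k => ∑ l, α l * ge (e l - e j) k) (piY f)`:
    the matrices `M k = (X 0 - e j)^(k-1) * X 1` have entries `(e i - e j)^(k-1) α l`, rank one.
(5) transposition: `ev (fun i => (X i)ᵀ) f = (ev X f)ᵀ` for odd weight (the map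
    `f ↦ -(ev (-X) f)ᵀ` is a Lie homomorphism agreeing with `ev Xᵀ` on the letters; or use
    `cf_reverse`).  For `Xᵀ` the same computation gives `ev Xᵀ f i j = α i * T i j`.  Hence
    `α i * T i j = α i * T j i`.
(6) telescoping: `∑ i, α i * T i j = ev (∑ l, α l ge (e l - e j)) (piY f)` because
    `Ew r 0 r t = (t.map r).prod - [t = []]` and `cf (piY f) [] = 0`.
(7) trace: `∑ j, α j * T j j = 0`.

`relTr1`: `n = 2`, `e = (a, 0)`, `α = (γ, ε)`.  (6) for `j = 0`: `γ T 0 0 + ε T 1 0 = ev(...)`,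
(7): `γ T 0 0 + ε T 1 1 = 0`; subtract and take the `ε`-part (`TrivSqZeroExt.snd`); `fst (T 1 0) =
fst (T 0 1)` by (5); `snd (prod (r + ε s)) = Ew s r r`.
`relTr2`: `n = 3`, `e = (x, -x, 0)`, `α = (a, -a, ε)`: add (6) for `j = 0` and `j = 1`, use
`T 0 1 = T 1 0`, and subtract (7).
-/

set_option autoImplicit false

namespace Pool.Agent.H44DM

open Pool.Agent.H4DM

noncomputable section

attribute [local instance] LieRing.ofAssociativeRing

/-! ### Lie elements in a general algebra -/

theorem cf_mul_single {a b : NC (Fin 2)} (ha : cf a [] = 0) (hb : cf b [] = 0) (i : Fin 2) :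
    cf (a * b) [i] = 0 := by
  rw [← cf_lq1, lq1_mul, cf_add, cf_smul, cf_mul_nil, ha, hb]
  ring

/-- Translation by a central element of the value of `x₀`. -/
theorem ev_translate {B : Type*} [Ring B] [Algebra ℚ B] (X Y : Fin 2 → B) (c : B)
    (hc : ∀ b, c * b = b * c) (h0 : Y 0 = X 0 - c) (h1 : Y 1 = X 1) {f : NC (Fin 2)}
    (hf : f ∈ Lie01) : ev Y f = ev X f - cf f [0] • c := by
  induction hf using LieSubalgebra.lieSpan_induction with
  | mem x hx =>
    rcases hx with rfl | hx
    · rw [ev_x0, ev_x0, h0, x0, cf_wd, if_pos rfl, one_smul]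
    · rw [Set.mem_singleton_iff] at hx
      subst hx
      rw [ev_x1, ev_x1, h1, x1, cf_wd, if_neg (by decide), zero_smul, sub_zero]
  | zero => simp
  | add a b _ _ ha hb => rw [map_add, map_add, ha, hb, cf_add, add_smul]; abel
  | smul e a _ ha => rw [map_smul, map_smul, ha, cf_smul, smul_sub, smul_smul]
  | lie a b ha' hb' ha hb =>
    have ka := cf_lie_nil ha'
    have kb := cf_lie_nil hb'
    rw [LieRing.of_associative_ring_bracket, cf_sub, cf_mul_single ka kb, cf_mul_single kb ka,
      map_sub, map_sub, map_mul, map_mul, map_mul, map_mul, ha, hb]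
    have e1 : ev X a * c = c * ev X a := (hc _).symm
    have e2 : ev X b * c = c * ev X b := (hc _).symm
    simp only [sub_mul, mul_sub, smul_mul_assoc, mul_smul_comm, e1, e2, sub_zero, zero_smul,
      smul_sub, smul_smul]
    rw [mul_comm (cf b [0]) (cf a [0])]
    abel

set_option linter.unusedSectionVars false
set_option linter.unusedSimpArgs false

section mat
variable {S : Type*} [CommRing S] [Algebra ℚ S] {n : Type*} [Fintype n] [DecidableEq n]

theorem trace_ev (X : Fin 2 → Matrix n n S) {f : NC (Fin 2)} (hf : f ∈ Lie01) :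
    (ev X f).trace = cf f [0] • (X 0).trace + cf f [1] • (X 1).trace := by
  induction hf using LieSubalgebra.lieSpan_induction with
  | mem x hx =>
    rcases hx with rfl | hx
    · rw [ev_x0, x0, cf_wd, if_pos rfl, cf_wd, if_neg (by decide), one_smul, zero_smul, add_zero]
    · rw [Set.mem_singleton_iff] at hx
      subst hx
      rw [ev_x1, x1, cf_wd, if_neg (by decide), cf_wd, if_pos rfl, one_smul, zero_smul, zero_add]
  | zero => simp
  | add a b _ _ ha hb =>
    rw [map_add, Matrix.trace_add, ha, hb, cf_add, cf_add, add_smul, add_smul]; abel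
  | smul e a _ ha =>
    rw [map_smul, Matrix.trace_smul, ha, cf_smul, cf_smul, smul_add, smul_smul, smul_smul]
  | lie a b ha' hb' ha hb =>
    have ka := cf_lie_nil ha'
    have kb := cf_lie_nil hb'
    rw [LieRing.of_associative_ring_bracket, cf_sub, cf_sub, cf_mul_single ka kb,
      cf_mul_single kb ka, cf_mul_single ka kb, cf_mul_single kb ka,
      map_sub, map_mul, map_mul, Matrix.trace_sub, Matrix.trace_mul_comm]
    simp

theorem ev_neg_transpose (X : Fin 2 → Matrix n n S) {f : NC (Fin 2)} (hf : f ∈ Lie01) :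
    ev (fun i => -(X i).transpose) f = -(ev X f).transpose := by
  induction hf using LieSubalgebra.lieSpan_induction with
  | mem x hx =>
    rcases hx with rfl | hx
    · rw [ev_x0, ev_x0]
    · rw [Set.mem_singleton_iff] at hx
      subst hx
      rw [ev_x1, ev_x1]
  | zero => simp
  | add a b _ _ ha hb => rw [map_add, map_add, ha, hb, Matrix.transpose_add]; abel
  | smul e a _ ha => rw [map_smul, map_smul, ha, Matrix.transpose_smul, smul_neg]
  | lie a b _ _ ha hb =>
    rw [LieRing.of_associative_ring_bracket, map_sub, map_sub, map_mul, map_mul, map_mul, map_mul,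
      ha, hb, Matrix.transpose_sub, Matrix.transpose_mul, Matrix.transpose_mul]
    noncomm_ring

end mat

theorem wt_wX' (l : List (Fin 2)) : wt wX l = l.length := by
  induction l with
  | nil => rfl
  | cons a l ih => rw [wt_cons, ih, List.length_cons, add_comm]

theorem ev_neg_hom {B : Type*} [Ring B] [Algebra ℚ B] (X : Fin 2 → B) {f : NC (Fin 2)} {w : ℕ}
    (hf : Hg wX w f) : ev (fun i => -(X i)) f = (-1 : ℚ) ^ w • ev X f := by
  have hword : ∀ l : List (Fin 2), ev (fun i => -(X i)) (wd l) =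
      (-1 : ℚ) ^ l.length • ev X (wd l) := by
    intro l
    induction l with
    | nil => simp
    | cons a l ih =>
      rw [ev_cons, ih, ev_cons, List.length_cons, pow_succ, mul_smul_comm, neg_mul, mul_smul,
        neg_smul, one_smul]
  have key : ∀ p : NC (Fin 2), ev (fun i => -(X i)) (comp wX w p) =
      (-1 : ℚ) ^ w • ev X (comp wX w p) := by
    intro p
    induction p using nc_induction with
    | hw l =>
      rw [comp_wd]
      split_ifs with h
      · rw [hword, ← h, wt_wX']
      · simp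
    | zero => simp
    | add a b ha hb => rw [map_add, map_add, ha, hb, map_add, smul_add]
    | smul c a ha => rw [map_smul, map_smul, ha, map_smul, smul_comm]
  have := key f
  rwa [hf.comp_eq] at this

theorem cf_piY_nil (h : NC (Fin 2)) : cf (piY h) [] = cf h [] := by
  induction h using nc_induction with
  | hw l =>
    have hl := unparse_parse l
    rw [piY_word, cf_wd]
    by_cases hb : (parse l).2 = 0
    · rw [if_pos hb, cf_wd]
      rw [hb, List.replicate_zero, List.append_nil] at hl
      congr 1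
      apply propext
      constructor
      · intro h; rw [← hl, h]; rfl
      · intro h; rw [h]; rfl
    · rw [if_neg hb, cf_zero, if_neg]
      rintro rfl
      exact hb rfl
  | zero => simp
  | add p q hp hq => rw [map_add, cf_add, cf_add, hp, hq]
  | smul c p hp => rw [map_smul, cf_smul, cf_smul, hp]

section mat
variable {S : Type*} [CommRing S] [Algebra ℚ S] {n : Type*} [Fintype n] [DecidableEq n]

theorem ev_transpose_odd (X : Fin 2 → Matrix n n S) {f : NC (Fin 2)} (hf : f ∈ Lie01) {w : ℕ}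
    (hw : Hg wX w f) (hodd : Odd w) :
    ev (fun i => (X i).transpose) f = (ev X f).transpose := by
  have h1 := ev_neg_transpose X hf
  have h2 := ev_neg_hom (fun i => (X i).transpose) hw
  rw [h1, hodd.neg_one_pow, neg_smul, one_smul] at h2
  exact (neg_inj.mp h2).symm

/-! ### The bridge to `ℚ⟨Y⟩` -/

theorem ev_jA {B : Type*} [Ring B] [Algebra ℚ B] (X : Fin 2 → B) (p : NC ℕ+) :
    ev X (jA p) = ev (fun k : ℕ+ => X 0 ^ ((k : ℕ) - 1) * X 1) p := by
  induction p using nc_induction with
  | hw l =>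
    induction l with
    | nil => rw [wd_nil, map_one, map_one, map_one]
    | cons k t ih =>
      rw [wd_cons, map_mul, map_mul, ih, jA_letter, map_mul, map_pow, ev_x0, ev_x1, map_mul,
        ev_letter]
  | zero => simp
  | add a b ha hb => rw [map_add, map_add, ha, hb, map_add]
  | smul c a ha => rw [map_smul, map_smul, ha, map_smul]

/-- The bridge, entrywise: if the `j`-th column of `X 0` vanishes. -/
theorem ev_bridge (X : Fin 2 → Matrix n n S) (j : n) (h0 : ∀ i, X 0 i j = 0) (f : NC (Fin 2))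
    (i : n) :
    ev X f i j = ev (fun k : ℕ+ => X 0 ^ ((k : ℕ) - 1) * X 1) (piY f) i j := by
  induction f using nc_induction with
  | hw l =>
    rw [piY_word]
    rcases hb : (parse l).2 with _ | b
    · rw [if_pos rfl]
      conv_lhs => rw [wd_eq, hb, pow_zero, mul_one, ev_jA]
    · rw [if_neg (by omega), map_zero, wd_eq, hb, pow_succ, ← mul_assoc, map_mul, ev_x0,
        Matrix.mul_apply]
      simp [h0]
  | zero => simp
  | add a b ha hb => rw [map_add, map_add, map_add, Matrix.add_apply, Matrix.add_apply, ha, hb]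
  | smul c a ha => rw [map_smul, map_smul, map_smul, Matrix.smul_apply, Matrix.smul_apply, ha]

/-- The pair of matrices `diag e` and `(u i * v j)`. -/
def XX (e u v : n → S) : Fin 2 → Matrix n n S :=
  ![Matrix.diagonal e, Matrix.of fun i j => u i * v j]

theorem XX_zero (e u v : n → S) : XX e u v 0 = Matrix.diagonal e := rfl
theorem XX_one (e u v : n → S) : XX e u v 1 = Matrix.of fun i j => u i * v j := rfl

theorem ev_word_entry (e u v : n → S) (k : ℕ+) (t : List ℕ+) (i j : n) :
    ev (fun k : ℕ+ => (XX e u v 0) ^ ((k : ℕ) - 1) * XX e u v 1) (wd (k :: t)) i j =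
      u i * v j * (ge (e i) k *
        (t.map (fun k => ∑ l, v l * u l * ge (e l) k)).prod) := by
  have hM : ∀ (k : ℕ+) (i l : n), ((XX e u v 0) ^ ((k : ℕ) - 1) * XX e u v 1) i l =
      ge (e i) k * (u i * v l) := by
    intro k i l
    rw [XX_zero, XX_one, Matrix.diagonal_pow, Matrix.diagonal_mul, Matrix.of_apply]
    rfl
  induction t generalizing k i with
  | nil =>
    rw [ev_letter, hM, List.map_nil, List.prod_nil]
    ring
  | cons k' t ih =>
    rw [ev_cons, Matrix.mul_apply]
    simp only [hM, ih, List.map_cons, List.prod_cons]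
    have : ∀ l : n, ge (e i) k * (u i * v l) * (u l * v j * (ge (e l) k' *
        (t.map (fun k => ∑ l, v l * u l * ge (e l) k)).prod)) =
        (u i * v j * ge (e i) k * (t.map (fun k => ∑ l, v l * u l * ge (e l) k)).prod) *
          (v l * u l * ge (e l) k') := by
      intro l; ring
    simp only [this]
    rw [← Finset.mul_sum]
    ring

/-- Entries in column `j` when the base point is `e j = 0`. -/
theorem ev_entry_base (e u v : n → S) (j : n) (hj : e j = 0) {f : NC (Fin 2)} (hf : f ∈ Lie01)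
    (i : n) :
    ev (XX e u v) f i j = u i * v j *
      EE (ge (e i)) 0 (fun k => ∑ l, v l * u l * ge (e l) k) (piY f) := by
  rw [ev_bridge (XX e u v) j (by
    intro i
    rw [XX_zero, Matrix.diagonal_apply]
    split_ifs with h
    · rw [h, hj]
    · rfl)]
  have hnil : cf (piY f) [] = 0 := by
    rw [cf_piY_nil]; exact cf_lie_nil hf
  generalize piY f = p at hnil
  have key : ∀ p : NC ℕ+,
      ev (fun k : ℕ+ => (XX e u v 0) ^ ((k : ℕ) - 1) * XX e u v 1) p i j =
      u i * v j * EE (ge (e i)) 0 (fun k => ∑ l, v l * u l * ge (e l) k) p +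
        cf p [] • (1 : Matrix n n S) i j := by
    intro p
    induction p using nc_induction with
    | hw t =>
      rcases t with _ | ⟨k, t⟩
      · rw [ev_nil, EE_wd, Ew_nil, cf_wd, if_pos rfl, one_smul, mul_zero, zero_add]
      · rw [ev_word_entry, EE_wd, Ew_cons, cf_wd, if_neg (by simp), zero_smul, add_zero]
        simp
    | zero => simp
    | add a b ha hb => rw [map_add, Matrix.add_apply, ha, hb, map_add, cf_add, add_smul]; ring
    | smul c a ha =>
      rw [map_smul, Matrix.smul_apply, ha, map_smul, cf_smul, smul_add, mul_smul_comm, smul_smul]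
  rw [key p, hnil, zero_smul, add_zero]

/-- The functions `T i j`. -/
def TT (e α : n → S) (f : NC (Fin 2)) (i j : n) : S :=
  EE (ge (e i - e j)) 0 (fun k => ∑ l, α l * ge (e l - e j) k) (piY f)

theorem ev_entry (e u v : n → S) {f : NC (Fin 2)} (hf : f ∈ Lie01) (h0 : cf f [0] = 0)
    (i j : n) :
    ev (XX e u v) f i j = u i * v j * TT e (fun l => v l * u l) f i j := by
  have h := ev_translate (XX e u v) (XX (fun l => e l - e j) u v)
    (Matrix.diagonal fun _ => e j) (fun b => (Matrix.scalar_commute (e j) (fun r => mul_comm _ _) b))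
    (by
      rw [XX_zero, XX_zero, Matrix.diagonal_sub]) rfl hf
  rw [h0, zero_smul, sub_zero] at h
  rw [← h, ev_entry_base _ u v j (sub_self _) hf i]
  rfl

theorem TT_symm (e α : n → S) {f : NC (Fin 2)} (hf : f ∈ Lie01) (h0 : cf f [0] = 0)
    {w : ℕ} (hw : Hg wX w f) (hodd : Odd w) (i j : n) :
    α i * TT e α f i j = α i * TT e α f j i := by
  have h1 := ev_transpose_odd (XX e (fun _ => 1) α) hf hw hodd
  have h2 : (fun i => (XX e (fun _ => 1) α i).transpose) = XX e α (fun _ => 1) := by
    funext m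
    fin_cases m
    · simp [XX]
    · ext a b
      simp [XX]
  rw [h2] at h1
  have h3 := congrFun (congrFun h1 i) j
  rw [Matrix.transpose_apply, ev_entry e α (fun _ => 1) hf h0, ev_entry e (fun _ => 1) α hf h0] at h3
  simpa only [mul_one, one_mul] using h3

theorem TT_trace (e α : n → S) {f : NC (Fin 2)} (hf : f ∈ Lie01) (h0 : cf f [0] = 0)
    (h1 : cf f [1] = 0) : ∑ j, α j * TT e α f j j = 0 := by
  have h := trace_ev (XX e (fun _ => 1) α) hf
  rw [h0, h1, zero_smul, zero_smul, add_zero, Matrix.trace] at h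
  rw [← h]
  apply Finset.sum_congr rfl
  intro j _
  rw [Matrix.diag_apply, ev_entry e (fun _ => 1) α hf h0]
  simp only [mul_one, one_mul]

theorem TT_tel (e α : n → S) {f : NC (Fin 2)} (hf : f ∈ Lie01) (j : n) :
    ∑ i, α i * TT e α f i j = ev (fun k => ∑ l, α l * ge (e l - e j) k) (piY f) := by
  have hnil : cf (piY f) [] = 0 := by
    rw [cf_piY_nil]; exact cf_lie_nil hf
  simp only [TT]
  generalize piY f = p at hnil
  have key : ∀ p : NC ℕ+,
      ∑ i, α i * EE (ge (e i - e j)) 0 (fun k => ∑ l, α l * ge (e l - e j) k) p +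
        cf p [] • (1 : S) = ev (fun k => ∑ l, α l * ge (e l - e j) k) p := by
    intro p
    induction p using nc_induction with
    | hw t =>
      rcases t with _ | ⟨k, t⟩
      · simp [cf_wd]
      · rw [ev_wd_prod, cf_wd, if_neg (by simp), zero_smul, add_zero, List.map_cons,
          List.prod_cons, Finset.sum_mul]
        apply Finset.sum_congr rfl
        intro i _
        rw [EE_wd, Ew_cons]
        simp [mul_assoc]
    | zero => simp
    | add a b ha hb =>
      rw [map_add, ← ha, ← hb, cf_add, add_smul]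
      simp only [map_add, mul_add, Finset.sum_add_distrib]
      ring
    | smul c a ha =>
      rw [map_smul, ← ha, cf_smul, smul_add, smul_smul, Finset.smul_sum]
      simp only [map_smul, mul_smul_comm]
  rw [← key p, hnil, zero_smul, add_zero]

end mat

/-! ### Dual numbers -/

theorem fst_EE (g r s : ℕ+ → DualNumber ℚ) (p : NC ℕ+) :
    TrivSqZeroExt.fst (EE g r s p) =
      EE (fun k => TrivSqZeroExt.fst (g k)) (fun k => TrivSqZeroExt.fst (r k))
        (fun k => TrivSqZeroExt.fst (s k)) p := by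
  induction p using nc_induction with
  | hw t =>
    rw [EE_wd, EE_wd]
    induction t with
    | nil => rfl
    | cons k t ih =>
      rw [Ew_cons, Ew_cons, TrivSqZeroExt.fst_add, TrivSqZeroExt.fst_mul, TrivSqZeroExt.fst_mul,
        ih]
      congr 2
      clear ih
      induction t with
      | nil => rfl
      | cons k t ih =>
        rw [List.map_cons, List.map_cons, List.prod_cons, List.prod_cons, TrivSqZeroExt.fst_mul,
          ih]
  | zero => simp
  | add a b ha hb => rw [map_add, map_add, TrivSqZeroExt.fst_add, ha, hb]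
  | smul c a ha => rw [map_smul, map_smul, TrivSqZeroExt.fst_smul, ha]

theorem snd_ev (s : ℕ+ → DualNumber ℚ) (p : NC ℕ+) :
    TrivSqZeroExt.snd (ev s p) =
      EE (fun k => TrivSqZeroExt.snd (s k)) (fun k => TrivSqZeroExt.fst (s k))
        (fun k => TrivSqZeroExt.fst (s k)) p := by
  induction p using nc_induction with
  | hw t =>
    rw [EE_wd, ev_wd_prod]
    induction t with
    | nil => rfl
    | cons k t ih =>
      rw [Ew_cons, List.map_cons, List.prod_cons, TrivSqZeroExt.snd_mul, ih]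
      have : TrivSqZeroExt.fst ((t.map s).prod) =
          (t.map (fun k => TrivSqZeroExt.fst (s k))).prod := by
        clear ih
        induction t with
        | nil => rfl
        | cons k t ih =>
          rw [List.map_cons, List.map_cons, List.prod_cons, List.prod_cons, TrivSqZeroExt.fst_mul,
            ih]
      rw [this]
      simp only [smul_eq_mul, MulOpposite.smul_eq_mul_unop, MulOpposite.unop_op]
      ring
  | zero => simp
  | add a b ha hb => rw [map_add, map_add, TrivSqZeroExt.snd_add, ha, hb]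
  | smul c a ha => rw [map_smul, map_smul, TrivSqZeroExt.snd_smul, ha]

theorem fst_ge (a : DualNumber ℚ) (k : ℕ+) :
    TrivSqZeroExt.fst (ge a k) = ge (TrivSqZeroExt.fst a) k := by
  rw [ge, ge, TrivSqZeroExt.fst_pow]

theorem snd_ge {a : DualNumber ℚ} (ha : TrivSqZeroExt.snd a = 0) (k : ℕ+) :
    TrivSqZeroExt.snd (ge a k) = 0 := by
  rw [ge, TrivSqZeroExt.snd_pow, ha]
  simp

/-- A rational number as a dual number. -/
def ib (a : ℚ) : DualNumber ℚ := TrivSqZeroExt.inl a

theorem fst_ib (a : ℚ) : TrivSqZeroExt.fst (ib a) = a := rfl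
theorem snd_ib (a : ℚ) : TrivSqZeroExt.snd (ib a) = 0 := rfl

theorem fst_TT {n : Type*} [Fintype n] (e α : n → DualNumber ℚ) (f : NC (Fin 2)) (i j : n) :
    TrivSqZeroExt.fst (TT e α f i j) =
      EE (ge (TrivSqZeroExt.fst (e i) - TrivSqZeroExt.fst (e j))) 0
        (fun k => ∑ l, TrivSqZeroExt.fst (α l) *
          ge (TrivSqZeroExt.fst (e l) - TrivSqZeroExt.fst (e j)) k) (piY f) := by
  have h1 : (fun k => TrivSqZeroExt.fst (ge (e i - e j) k)) =
      ge (TrivSqZeroExt.fst (e i) - TrivSqZeroExt.fst (e j)) := by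
    funext k
    rw [fst_ge, TrivSqZeroExt.fst_sub]
  have h2 : (fun k => TrivSqZeroExt.fst (∑ l, α l * ge (e l - e j) k)) =
      fun k => ∑ l, TrivSqZeroExt.fst (α l) *
          ge (TrivSqZeroExt.fst (e l) - TrivSqZeroExt.fst (e j)) k := by
    funext k
    rw [TrivSqZeroExt.fst_sum]
    apply Finset.sum_congr rfl
    intro l _
    rw [TrivSqZeroExt.fst_mul, fst_ge, TrivSqZeroExt.fst_sub]
  rw [TT, fst_EE, h1, h2]
  rfl

theorem ib_sub_snd (a b : ℚ) : TrivSqZeroExt.snd (ib a - ib b) = 0 := by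
  rw [TrivSqZeroExt.snd_sub, snd_ib, snd_ib, sub_zero]

theorem relTr1 {f : NC (Fin 2)} (hf : f ∈ Lie01) (h0 : cf f [0] = 0) (h1 : cf f [1] = 0)
    {w : ℕ} (hw : Hg wX w f) (hodd : Odd w) (a γ : ℚ) (hγ : γ ≠ 0) :
    EE (ge a) 0 (γ • ge a) (piY f) - EE (ge 0) 0 (γ • ge a) (piY f) =
      EE (ge (-a)) (γ • ge 0) (γ • ge 0) (piY f) := by
  set e : Fin 2 → DualNumber ℚ := ![ib a, ib 0] with he
  set α : Fin 2 → DualNumber ℚ := ![ib γ, DualNumber.eps] with hα
  have he0 : e 0 = ib a := rfl
  have he1 : e 1 = ib 0 := rfl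
  have hα0 : α 0 = ib γ := rfl
  have hα1 : α 1 = DualNumber.eps := rfl
  have htel := TT_tel e α hf 0
  have htr := TT_trace e α hf h0 h1
  have hsym := TT_symm e α hf h0 hw hodd 0 1
  rw [Fin.sum_univ_two] at htel htr
  have e1 := congrArg TrivSqZeroExt.snd htel
  have e2 := congrArg TrivSqZeroExt.snd htr
  have e3 := congrArg TrivSqZeroExt.fst hsym
  rw [snd_ev] at e1
  simp only [hα0, hα1, TrivSqZeroExt.snd_add, TrivSqZeroExt.snd_mul, TrivSqZeroExt.fst_mul,
    fst_ib, snd_ib, DualNumber.snd_eps, DualNumber.fst_eps, TrivSqZeroExt.snd_zero, smul_eq_mul,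
    MulOpposite.smul_eq_mul_unop, MulOpposite.unop_op, Fin.sum_univ_two, zero_mul, mul_zero,
    one_mul, mul_one, add_zero, zero_add, TrivSqZeroExt.fst_add] at e1 e2 e3
  have e4 := mul_left_cancel₀ hγ e3
  have T01 : TrivSqZeroExt.fst (TT e α f 0 1) = EE (ge a) 0 (γ • ge a) (piY f) := by
    rw [fst_TT]
    simp only [he0, he1, hα0, hα1, fst_ib, sub_zero, Fin.sum_univ_two, DualNumber.fst_eps,
      zero_mul, add_zero]
    rfl
  have T11 : TrivSqZeroExt.fst (TT e α f 1 1) = EE (ge 0) 0 (γ • ge a) (piY f) := by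
    rw [fst_TT]
    simp only [he0, he1, hα0, hα1, fst_ib, sub_zero, Fin.sum_univ_two, DualNumber.fst_eps,
      zero_mul, add_zero]
    rfl
  have g1 : (fun k : ℕ+ => γ * TrivSqZeroExt.snd (ge (e 0 - e 0) k) +
      TrivSqZeroExt.fst (ge (e 1 - e 0) k)) = ge (-a) := by
    funext k
    rw [snd_ge (by rw [sub_self]; rfl), fst_ge, TrivSqZeroExt.fst_sub, he0, he1, fst_ib, fst_ib]
    simp
  have g2 : (fun k : ℕ+ => γ * TrivSqZeroExt.fst (ge (e 0 - e 0) k)) = γ • ge 0 := by
    funext k
    rw [fst_ge, sub_self]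
    rfl
  rw [g1, g2] at e1
  rw [← T01, ← T11, ← e1, e4]
  linarith

theorem relTr2 {f : NC (Fin 2)} (hf : f ∈ Lie01) (h0 : cf f [0] = 0) (h1 : cf f [1] = 0)
    {w : ℕ} (hw : Hg wX w f) (hodd : Odd w) (x a : ℚ) (ha : a ≠ 0) :
    EE (ge x) 0 (a • (ge x - ge (-x))) (piY f) + EE (ge (-x)) 0 (a • (ge x - ge (-x))) (piY f)
      - EE (ge 0) 0 (a • (ge x - ge (-x))) (piY f) =
    EE (ge (-x)) (a • (ge 0 - ge (-(2 * x)))) (a • (ge 0 - ge (-(2 * x)))) (piY f)
      + EE (ge x) (a • (ge (2 * x) - ge 0)) (a • (ge (2 * x) - ge 0)) (piY f) := by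
  set e : Fin 3 → DualNumber ℚ := ![ib x, ib (-x), ib 0] with he
  set α : Fin 3 → DualNumber ℚ := ![ib a, ib (-a), DualNumber.eps] with hα
  have he0 : e 0 = ib x := rfl
  have he1 : e 1 = ib (-x) := rfl
  have he2 : e 2 = ib 0 := rfl
  have hα0 : α 0 = ib a := rfl
  have hα1 : α 1 = ib (-a) := rfl
  have hα2 : α 2 = DualNumber.eps := rfl
  have htel0 := TT_tel e α hf 0
  have htel1 := TT_tel e α hf 1
  have htr := TT_trace e α hf h0 h1
  have hsym01 := TT_symm e α hf h0 hw hodd 0 1
  have hsym02 := TT_symm e α hf h0 hw hodd 0 2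
  have hsym12 := TT_symm e α hf h0 hw hodd 1 2
  rw [Fin.sum_univ_three] at htel0 htel1 htr
  rw [hα0] at hsym01 hsym02
  rw [hα1] at hsym12
  have hne : a ≠ 0 := ha
  have u0 : ib (1 / a) * ib a = 1 := by
    rw [ib, ib, ← TrivSqZeroExt.inl_mul, one_div, inv_mul_cancel₀ ha, TrivSqZeroExt.inl_one]
  have s01 : TT e α f 0 1 = TT e α f 1 0 := by
    have := congrArg (fun z => ib (1 / a) * z) hsym01
    simp only [← mul_assoc, u0, one_mul] at this
    exact this
  have f02 : TrivSqZeroExt.fst (TT e α f 0 2) = TrivSqZeroExt.fst (TT e α f 2 0) := by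
    have := congrArg TrivSqZeroExt.fst hsym02
    rw [TrivSqZeroExt.fst_mul, TrivSqZeroExt.fst_mul, fst_ib] at this
    exact mul_left_cancel₀ ha this
  have f12 : TrivSqZeroExt.fst (TT e α f 1 2) = TrivSqZeroExt.fst (TT e α f 2 1) := by
    have := congrArg TrivSqZeroExt.fst hsym12
    rw [TrivSqZeroExt.fst_mul, TrivSqZeroExt.fst_mul, fst_ib] at this
    exact mul_left_cancel₀ (neg_ne_zero.mpr ha) this
  have e0 := congrArg TrivSqZeroExt.snd htel0
  have e1 := congrArg TrivSqZeroExt.snd htel1
  have e2 := congrArg TrivSqZeroExt.snd htr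
  rw [snd_ev] at e0 e1
  rw [s01] at e1
  simp only [hα0, hα1, hα2, TrivSqZeroExt.snd_add, TrivSqZeroExt.snd_mul, TrivSqZeroExt.fst_mul,
    fst_ib, snd_ib, DualNumber.snd_eps, DualNumber.fst_eps, TrivSqZeroExt.snd_zero, smul_eq_mul,
    MulOpposite.smul_eq_mul_unop, MulOpposite.unop_op, Fin.sum_univ_three, zero_mul, mul_zero,
    one_mul, mul_one, add_zero, zero_add, TrivSqZeroExt.fst_add] at e0 e1 e2
  have hs : (fun k : ℕ+ => ∑ l, TrivSqZeroExt.fst (α l) *
      ge (TrivSqZeroExt.fst (e l) - TrivSqZeroExt.fst (e 2)) k) = a • (ge x - ge (-x)) := by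
    funext k
    simp only [he0, he1, he2, hα0, hα1, hα2, fst_ib, sub_zero, Fin.sum_univ_three,
      DualNumber.fst_eps, zero_mul, add_zero, Pi.smul_apply, Pi.sub_apply, smul_eq_mul]
    ring
  have T02 : TrivSqZeroExt.fst (TT e α f 0 2) = EE (ge x) 0 (a • (ge x - ge (-x))) (piY f) := by
    rw [fst_TT, hs, he0, he2, fst_ib, fst_ib, sub_zero]
  have T12 : TrivSqZeroExt.fst (TT e α f 1 2) = EE (ge (-x)) 0 (a • (ge x - ge (-x))) (piY f) := by
    rw [fst_TT, hs, he1, he2, fst_ib, fst_ib, sub_zero]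
  have T22 : TrivSqZeroExt.fst (TT e α f 2 2) = EE (ge 0) 0 (a • (ge x - ge (-x))) (piY f) := by
    rw [fst_TT, hs, sub_self]
  have sz : ∀ i j : Fin 3, ∀ k : ℕ+, TrivSqZeroExt.snd (ge (e i - e j) k) = 0 := by
    intro i j k
    apply snd_ge
    fin_cases i <;> fin_cases j <;> exact ib_sub_snd _ _
  have g0 : (fun k : ℕ+ => a * TrivSqZeroExt.snd (ge (e 0 - e 0) k) +
      -a * TrivSqZeroExt.snd (ge (e 1 - e 0) k) +
      TrivSqZeroExt.fst (ge (e 2 - e 0) k)) = ge (-x) := by
    funext k
    rw [sz, sz, fst_ge, TrivSqZeroExt.fst_sub, he0, he2, fst_ib, fst_ib]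
    simp
  have g1 : (fun k : ℕ+ => a * TrivSqZeroExt.fst (ge (e 0 - e 0) k) +
      -a * TrivSqZeroExt.fst (ge (e 1 - e 0) k)) = a • (ge 0 - ge (-(2 * x))) := by
    funext k
    rw [fst_ge, fst_ge, TrivSqZeroExt.fst_sub, TrivSqZeroExt.fst_sub, he0, he1, fst_ib, fst_ib,
      sub_self, show -x - x = -(2 * x) by ring, Pi.smul_apply, Pi.sub_apply, smul_eq_mul]
    ring
  have g2 : (fun k : ℕ+ => a * TrivSqZeroExt.snd (ge (e 0 - e 1) k) +
      -a * TrivSqZeroExt.snd (ge (e 1 - e 1) k) +
      TrivSqZeroExt.fst (ge (e 2 - e 1) k)) = ge x := by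
    funext k
    rw [sz, sz, fst_ge, TrivSqZeroExt.fst_sub, he1, he2, fst_ib, fst_ib]
    simp
  have g3 : (fun k : ℕ+ => a * TrivSqZeroExt.fst (ge (e 0 - e 1) k) +
      -a * TrivSqZeroExt.fst (ge (e 1 - e 1) k)) = a • (ge (2 * x) - ge 0) := by
    funext k
    rw [fst_ge, fst_ge, TrivSqZeroExt.fst_sub, TrivSqZeroExt.fst_sub, he0, he1, fst_ib, fst_ib,
      sub_self, show x - -x = 2 * x by ring, Pi.smul_apply, Pi.sub_apply, smul_eq_mul]
    ring
  rw [g0, g1] at e0
  rw [g2, g3] at e1
  rw [← T02, ← T12, ← T22, ← e0, ← e1, f02, f12]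
  linarith

end

end Pool.Agent.H44DM
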