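import Mathlib
import Pool.Agent.H44DM.Stuffle
import Pool.Agent.H44DM.LieRel
import Pool.Agent.H44DM.Trace

/-!
# The relations for `ψ_*`
-/

set_option autoImplicit false

open PowerSeries

namespace Pool.Agent.H44DM

open Pool.Agent.H4DM

noncomputable section

/-! ### Values at `y₁^n` -/

theorem Ew_ones_succ (g r s : ℕ+ → ℚ) (n : ℕ) :
    Ew g r s (List.replicate (n + 1) 1) = g 1 * s 1 ^ n + r 1 * Ew g r s (List.replicate n 1) := by
  rw [List.replicate_succ, Ew_cons, List.map_replicate, List.prod_replicate]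

theorem Ew_ones_left (g r s : ℕ+ → ℚ) (hr : r 1 = 0) (n : ℕ) :
    Ew g r s (List.replicate (n + 1) 1) = g 1 * s 1 ^ n := by
  rw [Ew_ones_succ, hr, zero_mul, add_zero]

theorem Ew_ones_diag (g r s : ℕ+ → ℚ) (h : r 1 = s 1) (n : ℕ) :
    Ew g r s (List.replicate (n + 1) 1) = (n + 1) * (g 1 * s 1 ^ n) := by
  induction n with
  | zero => rw [Ew_ones_succ]; simp
  | succ n ih => rw [Ew_ones_succ, ih, h]; push_cast; ring

theorem Ew_ones_right (g r s : ℕ+ → ℚ) (hs : s 1 = 0) (n : ℕ) :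
    Ew g r s (List.replicate (n + 1) 1) = g 1 * r 1 ^ n := by
  induction n with
  | zero => rw [Ew_ones_succ]; simp
  | succ n ih => rw [Ew_ones_succ, ih, hs]; ring

theorem Ew_ones_alt (g r s : ℕ+ → ℚ) (h : s 1 = -r 1) (n : ℕ) :
    Ew g r s (List.replicate (2 * n + 1) 1) = g 1 * r 1 ^ (2 * n) := by
  induction n with
  | zero => rw [mul_zero, Ew_ones_succ]; simp
  | succ n ih =>
    rw [show 2 * (n + 1) + 1 = (2 * n + 1) + 1 + 1 from by ring, Ew_ones_succ, Ew_ones_succ, ih, h]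
    have h1 : (-r 1) ^ (2 * n + 1 + 1) = r 1 ^ (2 * n + 1 + 1) := by
      rw [show 2 * n + 1 + 1 = 2 * (n + 1) from by ring, pow_mul, pow_mul]; congr 1; ring
    have h2 : (-r 1) ^ (2 * n + 1) = -(r 1 ^ (2 * n + 1)) := by
      rw [Odd.neg_pow ⟨n, rfl⟩]
    rw [h1, h2, show 2 * (n + 1) = 2 * n + 1 + 1 from by ring]
    ring

/-! ### The correction term -/

theorem corr_eq {f : NC (Fin 2)} {n : ℕ} (hn : 1 ≤ n) (hf : Hg wX (2 * n + 1) f) :
    corr f = (cf f (List.replicate (2 * n) 0 ++ [1]) / (2 * n + 1 : ℕ)) •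
      wd (List.replicate (2 * n + 1) 1) := by
  have key : ∀ f : NC (Fin 2), corr (comp wX (2 * n + 1) f) =
      (cf f (List.replicate (2 * n) 0 ++ [1]) / (2 * n + 1 : ℕ)) •
      wd (List.replicate (2 * n + 1) 1) := by
    intro f
    induction f using nc_induction with
    | hw l =>
      rw [comp_wd, wt_wX, cf_wd]
      split_ifs with h1 h2 h2
      · rw [corr, linw_wd, h1, if_pos ⟨by omega, by rw [h2]; rfl⟩]
        congr 1
        rw [show 2 * n + 1 - 1 = 2 * n from rfl, pow_mul]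
        simp
      · rw [corr, linw_wd, h1, if_neg (by rintro ⟨_, h3⟩; exact h2 h3)]
        simp
      · exfalso; apply h1; rw [h2]; simp
      · simp
    | zero => simp
    | add p q hp hq => rw [map_add, map_add, hp, hq, cf_add, add_div, add_smul]
    | smul c p hp => rw [map_smul, map_smul, hp, cf_smul, smul_smul, mul_div_assoc]
  have := key f
  rwa [hf.comp_eq] at this

/-- The setting: `f ∈ dm` homogeneous of weight `2n+1` and `F = f_*`. -/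
structure Ctx (f : NC (Fin 2)) (n : ℕ) (F : NC ℕ+) (κ : ℚ) : Prop where
  lie : f ∈ Lie01
  h0 : cf f [0] = 0
  h1 : cf f [1] = 0
  hom : Hg wX (2 * n + 1) f
  hn : 1 ≤ n
  prim : Prim F
  homF : Hg wY (2 * n + 1) F
  F_eq : F = piY f + κ • wd (List.replicate (2 * n + 1) 1)
  cw : cf F [(2 * n).succPNat] = κ * (2 * n + 1)

theorem cf_piY_letter (f : NC (Fin 2)) (m : ℕ) :
    cf (piY f) [m.succPNat] = cf f (List.replicate m 0 ++ [1]) := by
  have h1 : yw [m.succPNat] ++ List.replicate 0 0 = List.replicate m 0 ++ [1] := by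
    simp [yw]
  rw [piY_eq, cf_Th, h1]

theorem ctx_of_dm {f : NC (Fin 2)} (hf : IsDM f) {n : ℕ} (hn : 1 ≤ n) (hom : Hg wX (2 * n + 1) f) :
    Ctx f n (psiStar f) (cf f (List.replicate (2 * n) 0 ++ [1]) / (2 * n + 1 : ℕ)) := by
  obtain ⟨h1, h2, h3, h4, h5⟩ := hf
  refine ⟨h1, h2, h3, hom, hn, h5, ?_, ?_, ?_⟩
  · apply Hg_of_comp
    rw [← psiStar_comp, hom.comp_eq]
  · rw [psiStar, corr_eq hn hom]
  · rw [psiStar, corr_eq hn hom, cf_add, cf_piY_letter, cf_smul, cf_wd, if_neg, mul_zero, add_zero]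
    · have : ((2 * n + 1 : ℕ) : ℚ) ≠ 0 := by positivity
      push_cast at this ⊢
      field_simp
    · intro h
      have := congrArg List.length h
      simp at this
      omega

section
variable {f : NC (Fin 2)} {n : ℕ} {F : NC ℕ+} {κ : ℚ}

theorem Ctx.hp (H : Ctx f n F κ) : HP F (2 * n).succPNat := ⟨H.prim, H.homF⟩

theorem Ctx.nil (H : Ctx f n F κ) : cf F [] = 0 := H.prim.cf_nil

theorem Ctx.EP_eq (H : Ctx f n F κ) (G R S : ℚ⟦X⟧) :
    EP G R S F = EE (sq G) (sq R) (sq S) (piY f) +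
      κ * Ew (sq G) (sq R) (sq S) (List.replicate (2 * n + 1) 1) := by
  rw [EP, H.F_eq, map_add, map_smul, EE_wd, smul_eq_mul]

theorem sq_tw (c p : ℚ) : sq (1 + c • gp p) = c • ge p := by
  rw [sq_one_add, sq_smul, sq_gp]

theorem sq_gp_add (a b : ℚ) : sq (gp a + gp b) = ge a + ge b := by
  rw [sq_add, sq_gp, sq_gp]

theorem sq_gp_sub (a b : ℚ) : sq (gp a - gp b) = ge a - ge b := by
  rw [sq_sub, sq_gp, sq_gp]

theorem sq_tw2 (c a b : ℚ) : sq (1 + c • (gp a - gp b)) = c • (ge a - ge b) := by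
  rw [sq_one_add, sq_smul, sq_gp_sub]

theorem ge_one (a : ℚ) : (ge a : ℕ+ → ℚ) 1 = 1 := by simp [ge]

theorem Ctx.relL3 (H : Ctx f n F κ) (h c : ℚ) (hc : c ≠ 0) :
    -EP (gp 0 + gp (2 * h)) (1 + c • gp (h + c)) (1 + (-c) • gp (h - c)) F
    + EP (gp 0 + gp (2 * h)) 1 (1 + (-c) • gp (h - c)) F
    + EP (gp (2 * h)) (1 + c • gp (h + c)) (1 + c • gp (h + c)) F
    - EP (gp (2 * h)) 1 (1 + c • gp (h + c)) F
    + EP (gp 0) (1 + c • gp (h + c)) 1 F - EP (gp 0) 1 1 F = κ * ((2 * n + 1) * c ^ (2 * n)) := by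
  have h0 := Pool.Agent.H44DM.relL3 H.lie h c hc
  obtain ⟨m, hm⟩ : ∃ m, 2 * n = m + 1 := ⟨2 * n - 1, by have := H.hn; omega⟩
  simp only [H.EP_eq, sq_tw, sq_one, sq_gp_add, sq_gp]
  rw [Ew_ones_alt _ _ _ (by simp [ge_one]), Ew_ones_left _ _ _ rfl, Ew_ones_diag _ _ _ rfl,
    Ew_ones_left _ _ _ rfl, Ew_ones_right _ _ _ rfl, Ew_ones_left _ _ _ rfl]
  simp only [Pi.add_apply, ge_one, Pi.smul_apply, smul_eq_mul, mul_one, Pi.zero_apply]
  have e1 : (-c) ^ (2 * n) = c ^ (2 * n) := by rw [Even.neg_pow ⟨n, by ring⟩]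
  have e2 : (0 : ℚ) ^ (2 * n) = 0 := by rw [hm]; simp
  rw [e1, e2]
  push_cast
  linear_combination h0

theorem Ctx.relB1a (H : Ctx f n F κ) (h c : ℚ) (hc : c ≠ 0) :
    EP (gp (2 * h)) 1 (1 + c • gp (h + c)) F = EP (gp (2 * h)) 1 (1 + (-c) • gp (h - c)) F := by
  have h0 := Pool.Agent.H44DM.relB1a H.lie h c hc
  simp only [H.EP_eq, sq_tw, sq_one, sq_gp]
  rw [h0, Ew_ones_left _ _ _ rfl, Ew_ones_left _ _ _ rfl]
  simp only [ge_one, Pi.smul_apply, smul_eq_mul, mul_one]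
  rw [Even.neg_pow ⟨n, by ring⟩]

theorem Ctx.relB1b (H : Ctx f n F κ) (x y : ℚ) (hxy : y - x ≠ 0) :
    EP (gp y) (1 + (y - x) • gp y) (1 + (y - x) • gp (-x)) F
    + EP (gp (x + y) - gp y) (1 + (y - x) • gp y) 1 F
    - EP (gp (x + y)) 1 1 F = κ * ((2 * n + 1) * (y - x) ^ (2 * n)) := by
  have h0 := Pool.Agent.H44DM.relB1b H.lie x y hxy
  obtain ⟨m, hm⟩ : ∃ m, 2 * n = m + 1 := ⟨2 * n - 1, by have := H.hn; omega⟩
  simp only [H.EP_eq, sq_tw, sq_one, sq_gp_sub, sq_gp]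
  rw [Ew_ones_diag _ _ _ (by simp [ge_one]), Ew_ones_right _ _ _ rfl, Ew_ones_left _ _ _ rfl]
  simp only [Pi.sub_apply, ge_one, Pi.smul_apply, smul_eq_mul, mul_one, Pi.zero_apply]
  have e2 : (0 : ℚ) ^ (2 * n) = 0 := by rw [hm]; simp
  rw [e2]
  push_cast
  linear_combination h0

theorem Ctx.relTr1 (H : Ctx f n F κ) (a γ : ℚ) (hγ : γ ≠ 0) :
    EP (gp a) 1 (1 + γ • gp a) F - EP (gp 0) 1 (1 + γ • gp a) F =
      EP (gp (-a)) (1 + γ • gp 0) (1 + γ • gp 0) F - κ * ((2 * n + 1) * γ ^ (2 * n)) := by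
  have h0 := Pool.Agent.H44DM.relTr1 H.lie H.h0 H.h1 H.hom ⟨n, rfl⟩ a γ hγ
  simp only [H.EP_eq, sq_tw, sq_one, sq_gp]
  rw [Ew_ones_left _ _ _ rfl, Ew_ones_left _ _ _ rfl, Ew_ones_diag _ _ _ rfl]
  simp only [ge_one, Pi.smul_apply, smul_eq_mul, mul_one]
  push_cast
  linear_combination h0

theorem Ctx.relTr2 (H : Ctx f n F κ) (x a : ℚ) (ha : a ≠ 0) :
    EP (gp x) 1 (1 + a • (gp x - gp (-x))) F + EP (gp (-x)) 1 (1 + a • (gp x - gp (-x))) F
      - EP (gp 0) 1 (1 + a • (gp x - gp (-x))) F =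
    EP (gp (-x)) (1 + a • (gp 0 - gp (-(2 * x)))) (1 + a • (gp 0 - gp (-(2 * x)))) F
      + EP (gp x) (1 + a • (gp (2 * x) - gp 0)) (1 + a • (gp (2 * x) - gp 0)) F := by
  have h0 := Pool.Agent.H44DM.relTr2 H.lie H.h0 H.h1 H.hom ⟨n, rfl⟩ x a ha
  obtain ⟨m, hm⟩ : ∃ m, 2 * n = m + 1 := ⟨2 * n - 1, by have := H.hn; omega⟩
  simp only [H.EP_eq, sq_tw2, sq_one, sq_gp]
  rw [Ew_ones_left _ _ _ rfl, Ew_ones_left _ _ _ rfl, Ew_ones_left _ _ _ rfl,
    Ew_ones_diag _ _ _ rfl, Ew_ones_diag _ _ _ rfl]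
  simp only [Pi.sub_apply, ge_one, Pi.smul_apply, smul_eq_mul, mul_one, sub_self, mul_zero]
  have e2 : (0 : ℚ) ^ (2 * n) = 0 := by rw [hm]; simp
  rw [e2]
  linear_combination h0

end

end

end Pool.Agent.H44DM
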