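import Mathlib
import Pool.Agent.H44DM.Rels

/-!
# Evaluation of the generating function of the coefficients at `2^a 3 2^b`
-/

set_option autoImplicit false

open PowerSeries

namespace Pool.Agent.H44DM

open Pool.Agent.H4DM

noncomputable section

variable {f : NC (Fin 2)} {n : ℕ} {F : NC ℕ+} {κ : ℚ}

theorem cc_tw (c p : ℚ) : constantCoeff (1 + c • gp p) = 1 := by
  simp [constCoeff_gp]

theorem coeff_gp' (a : ℚ) (n : ℕ) : coeff (2 * n + 1) (gp a) = a ^ (2 * n) := by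
  rw [gp, coeff_succ_X_mul, coeff_mk]

theorem Ctx.selfE (H : Ctx f n F κ) (a : ℚ) {γ : ℚ} (hγ : γ ≠ 0) :
    EP (gp a) 1 (1 + γ • gp a) F = κ * ((a * a ^ (2 * n) - (a - γ) * (a - γ) ^ (2 * n)) / γ) := by
  have h1 := EP_self (γ • gp a) F H.nil
  rw [EP_smul, ev_tw a γ H.hp, H.cw, Nat.succPNat_coe] at h1
  have h2 : ((Nat.succ (2 * n) : ℕ) : ℚ) = 2 * n + 1 := by push_cast; ring
  have h3 : (2 * (n : ℚ) + 1) ≠ 0 := by positivity
  rw [h2, mul_div_cancel_right₀ _ h3, Nat.succ_eq_add_one, pow_succ', pow_succ'] at h1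
  field_simp
  linear_combination h1

theorem Ctx.diagE (H : Ctx f n F κ) {Q R G : ℚ⟦X⟧} (hQ : constantCoeff Q = 0)
    (hR : constantCoeff R = 1) (h : Q * R = G) :
    EP G R R F = coeff (2 * n + 1) Q * (κ * (2 * n + 1)) := by
  rw [EP_diag H.hp hQ hR h, H.cw, Nat.succPNat_coe]

theorem Ctx.oneE (H : Ctx f n F κ) (a : ℚ) :
    EP (gp a) 1 1 F = a ^ (2 * n) * (κ * (2 * n + 1)) := by
  rw [H.diagE (constCoeff_gp a) (by simp) (mul_one _), coeff_gp']

/-- `C(a,b) = E(g₀; 0, (a-b) g_a)`, `γ = a - b`. -/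
theorem Ctx.Cform (H : Ctx f n F κ) {a γ : ℚ} (ha : a ≠ 0) (hγ : γ ≠ 0) (hb : a - γ ≠ 0) :
    EP (gp 0) 1 (1 + γ • gp a) F = κ * ((a * a ^ (2 * n) - (a - γ) * (a - γ) ^ (2 * n)) / γ
      - (2 * n + 1) * ((a * a ^ (2 * n) - γ * γ ^ (2 * n)) / (a - γ))
      + (2 * n + 1) * γ ^ (2 * n)) := by
  have h1 := H.relTr1 a γ hγ
  rw [H.selfE a hγ] at h1
  have hQ : ((a / (a - γ)) • gp (-a) - (γ / (a - γ)) • gp (-γ)) * (1 + γ • gp 0) = gp (-a) := by
    rw [sub_mul, smul_mul_assoc, smul_mul_assoc, gp_tw γ (neg_ne_zero.mpr ha),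
      gp_tw γ (neg_ne_zero.mpr hγ), sub_zero, sub_zero]
    match_scalars <;> field_simp <;> ring
  rw [H.diagE (by simp [constCoeff_gp]) (cc_tw _ _) hQ, map_sub, coeff_smul, coeff_smul,
    coeff_gp', coeff_gp', Even.neg_pow ⟨n, by ring⟩, Even.neg_pow ⟨n, by ring⟩] at h1
  simp only [smul_eq_mul] at h1
  linear_combination -h1

/-- `D(p,q) = E(g_{p+q}; 0, (q-p) g_q)`, `p = h + c`, `q = h - c`. -/
theorem Ctx.Dform (H : Ctx f n F κ) {h c : ℚ} (hh : h ≠ 0) (hc : c ≠ 0) (hp : h + c ≠ 0)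
    (hq : h - c ≠ 0) :
    EP (gp (2 * h)) 1 (1 + (-(2 * c)) • gp (h - c)) F =
      κ * (((h + c) * (h + c) ^ (2 * n) - (h - c) * (h - c) ^ (2 * n)) / (2 * c)
        + (2 * n + 1) * ((2 ^ (2 * n) - 1) * (h ^ (2 * n) - c ^ (2 * n)))) := by
  have hL := H.relL3 h c hc
  have hB := H.relB1a h c hc
  -- the first term
  have e1 : EP (gp 0 + gp (2 * h)) (1 + c • gp (h + c)) (1 + (-c) • gp (h - c)) F =
      (h + c) / h * EP (gp 0) 1 (1 + (-(2 * c)) • gp (h - c)) F +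
      (h - c) / h * EP (gp (2 * h)) 1 (1 + (-(2 * c)) • gp (h - c)) F := by
    rw [← EP_smul, ← EP_smul, ← EP_add]
    apply EP_tw (1 + (-c) • gp h) (by simp [constCoeff_gp]) (cc_tw _ _) (cc_tw _ _) (cc_tw _ _)
      H.prim
    · have n1 : (0 : ℚ) ≠ h := fun h' => hh h'.symm
      have n2 : 2 * h ≠ h := fun h' => hh (by linarith)
      rw [add_mul, gp_tw _ n1, gp_tw _ n2]
      match_scalars <;> field_simp <;> ring
    · have n1 : h + c ≠ h := fun h' => hc (by linarith)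
      rw [add_mul, one_mul, smul_mul_assoc, gp_tw _ n1]
      match_scalars <;> field_simp <;> ring
    · have n1 : h - c ≠ h := fun h' => hc (by linarith)
      rw [add_mul, one_mul, smul_mul_assoc, gp_tw _ n1]
      match_scalars <;> field_simp <;> ring
  -- the second term
  have e2 : EP (gp 0 + gp (2 * h)) 1 (1 + (-c) • gp (h - c)) F =
      EP (gp 0) 1 (1 + (-c) • gp (h - c)) F + EP (gp (2 * h)) 1 (1 + (-c) • gp (h - c)) F :=
    EP_add _ _ _ _ _
  -- the third term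
  have e3 : EP (gp (2 * h)) (1 + c • gp (h + c)) (1 + c • gp (h + c)) F =
      ((h - c) / h * (2 * h) ^ (2 * n) + c / h * h ^ (2 * n)) * (κ * (2 * n + 1)) := by
    have hQ : (((h - c) / h) • gp (2 * h) + (c / h) • gp h) * (1 + c • gp (h + c)) =
        gp (2 * h) := by
      have n1 : 2 * h ≠ h + c := fun h' => hq (by linarith)
      have n2 : h ≠ h + c := fun h' => hc (by linarith)
      rw [add_mul, smul_mul_assoc, smul_mul_assoc, gp_tw _ n1, gp_tw _ n2]
      have n3 : 2 * h - (h + c) = h - c := by ring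
      have n4 : h - (h + c) = -c := by ring
      rw [n3, n4]
      match_scalars <;> field_simp <;> ring
    rw [H.diagE (by simp [constCoeff_gp]) (cc_tw _ _) hQ, map_add, coeff_smul, coeff_smul,
      coeff_gp', coeff_gp', smul_eq_mul, smul_eq_mul]
  -- the fifth term
  have e5 : EP (gp 0) (1 + c • gp (h + c)) 1 F =
      (h + c) / h * EP (gp 0) 1 (1 + (-c) • gp h) F +
      (-(c / h)) * EP (gp h) 1 (1 + (-c) • gp h) F := by
    rw [← EP_smul, ← EP_smul, ← EP_add]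
    apply EP_tw (1 + (-c) • gp h) (by simp [constCoeff_gp]) (cc_tw _ _) (by simp) (cc_tw _ _)
      H.prim
    · have n1 : (0 : ℚ) ≠ h := fun h' => hh h'.symm
      rw [gp_tw _ n1]
      match_scalars <;> field_simp <;> ring
    · have n1 : h + c ≠ h := fun h' => hc (by linarith)
      rw [add_mul, one_mul, smul_mul_assoc, gp_tw _ n1]
      match_scalars <;> field_simp <;> ring
    · rw [one_mul]
  have e6 : EP (gp 0) 1 1 F = 0 := by
    rw [H.oneE, zero_pow (by have := H.hn; omega), zero_mul]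
  have hc2 : -(2 * c) ≠ 0 := by intro h'; apply hc; linarith
  have hc1 : -c ≠ 0 := neg_ne_zero.mpr hc
  have c1 := H.Cform (a := h - c) (γ := -(2 * c)) hq hc2 (by intro h'; apply hp; linarith)
  have c2 := H.Cform (a := h - c) (γ := -c) hq hc1 (by intro h'; apply hh; linarith)
  have c3 := H.Cform (a := h) (γ := -c) hh hc1 (by intro h'; apply hp; linarith)
  have c4 := H.selfE h hc1
  rw [e1, e2, e3, e5, e6, hB, c1, c2, c3, c4] at hL
  have s1 : h - c - -(2 * c) = h + c := by ring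
  have s2 : h - c - -c = h := by ring
  have s3 : h - -c = h + c := by ring
  have s4 : (-(2 * c)) ^ (2 * n) = 2 ^ (2 * n) * c ^ (2 * n) := by
    rw [Even.neg_pow ⟨n, by ring⟩, mul_pow]
  have s5 : (-c) ^ (2 * n) = c ^ (2 * n) := by rw [Even.neg_pow ⟨n, by ring⟩]
  have s6 : (2 * h) ^ (2 * n) = 2 ^ (2 * n) * h ^ (2 * n) := mul_pow _ _ _
  rw [s1, s2, s3, s4, s5, s6] at hL
  generalize (2 : ℚ) ^ (2 * n) = T at hL ⊢
  generalize h ^ (2 * n) = hh' at hL ⊢
  generalize c ^ (2 * n) = cc' at hL ⊢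
  generalize (h + c) ^ (2 * n) = pp' at hL ⊢
  generalize (h - c) ^ (2 * n) = qq' at hL ⊢
  generalize EP (gp (2 * h)) 1 (1 + (-(2 * c)) • gp (h - c)) F = DD at hL ⊢
  generalize EP (gp (2 * h)) 1 (1 + (-c) • gp (h - c)) F = D1 at hL
  apply mul_left_cancel₀ hq
  linear_combination (norm := (field_simp; ring)) (-h) * hL

/-! ### The functional `N` -/

/-- `N(g_x) = E(g_x; 0, r*)`, `1 + r* = (1-y²t²)/(1-x²t²)`. -/
theorem Ctx.Nform (H : Ctx f n F κ) {x y : ℚ} (hx : x ≠ 0) (hy : y ≠ 0) (hs : x + y ≠ 0)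
    (hd : x - y ≠ 0) :
    EP (gp x) 1 (1 + ((x ^ 2 - y ^ 2) / (2 * x)) • (gp x - gp (-x))) F =
      κ * (2 * n + 1) * ((x + y) ^ (2 * n) + (x - y) ^ (2 * n)
        - x / y * ((1 - 1 / 2 ^ (2 * n)) * ((x + y) ^ (2 * n) - (x - y) ^ (2 * n)))) := by
  have hd' : y - x ≠ 0 := by intro h'; apply hd; linarith
  have hB := H.relB1b x y hd'
  have nyx : y ≠ x := fun h' => hd (by linarith)
  have nx : -x ≠ x := fun h' => hx (by linarith)
  have nsx : x + y ≠ x := fun h' => hy (by linarith)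
  have e1 : EP (gp y) (1 + (y - x) • gp y) (1 + (y - x) • gp (-x)) F =
      EP (gp x) 1 (1 + ((x ^ 2 - y ^ 2) / (2 * x)) • (gp x - gp (-x))) F := by
    apply EP_tw (1 + (x - y) • gp x) (constCoeff_gp _) (cc_tw _ _) (cc_tw _ _) (cc_tw _ _) H.prim
    · rw [gp_tw _ nyx]
      match_scalars <;> field_simp <;> ring
    · rw [add_mul, one_mul, smul_mul_assoc, gp_tw _ nyx]
      match_scalars <;> field_simp <;> ring
    · rw [add_mul, one_mul, smul_mul_assoc, gp_tw _ nx]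
      have h2 : -x - x = -(2 * x) := by ring
      rw [h2]
      match_scalars <;> field_simp <;> ring
  have e2 : EP (gp (x + y) - gp y) (1 + (y - x) • gp y) 1 F =
      x / y * EP (gp (x + y)) 1 (1 + (x - y) • gp x) F -
      x / y * EP (gp x) 1 (1 + (x - y) • gp x) F := by
    rw [← EP_smul, ← EP_smul, ← EP_sub]
    apply EP_tw (1 + (x - y) • gp x) (by simp [constCoeff_gp]) (cc_tw _ _) (by simp) (cc_tw _ _)
      H.prim
    · rw [sub_mul, gp_tw _ nyx, gp_tw _ nsx]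
      have h2 : x + y - x = y := by ring
      rw [h2]
      match_scalars <;> field_simp <;> ring
    · rw [add_mul, one_mul, smul_mul_assoc, gp_tw _ nyx]
      match_scalars <;> field_simp <;> ring
    · rw [one_mul]
  have hD := H.Dform (h := (x + y) / 2) (c := (y - x) / 2) (by intro h'; apply hs; linarith)
    (by intro h'; apply hd'; linarith)
    (by intro h'; apply hy; linarith) (by intro h'; apply hx; linarith)
  rw [show 2 * ((x + y) / 2) = x + y from by ring, show 2 * ((y - x) / 2) = y - x from by ring,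
    show (x + y) / 2 - (y - x) / 2 = x from by ring, show (x + y) / 2 + (y - x) / 2 = y from by ring,
    show -(y - x) = x - y from by ring, div_pow, div_pow] at hD
  rw [e1, e2, hD, H.selfE x hd, H.oneE, show x - (x - y) = y from by ring] at hB
  have s1 : (y - x) ^ (2 * n) = (x - y) ^ (2 * n) := by
    rw [← Even.neg_pow ⟨n, by ring⟩ (x - y), neg_sub]
  rw [s1] at hB
  have hT : (2 : ℚ) ^ (2 * n) ≠ 0 := by positivity
  generalize (2 : ℚ) ^ (2 * n) = T at hB hT ⊢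
  generalize x ^ (2 * n) = xx at hB
  generalize y ^ (2 * n) = yy at hB
  generalize (x + y) ^ (2 * n) = SS at hB ⊢
  generalize (x - y) ^ (2 * n) = DD at hB ⊢
  linear_combination (norm := (field_simp; ring)) hB

/-! ### The second trace relation -/

theorem gp_tw2 {a b d : ℚ} (c : ℚ) (h1 : a ≠ b) (h2 : a ≠ d) :
    gp a * (1 + c • (gp b - gp d)) = gp a + (c / (a - b)) • (gp a - gp b)
      - (c / (a - d)) • (gp a - gp d) := by
  rw [mul_add, mul_one, mul_smul_comm, mul_sub, gp_mul h1, gp_mul h2]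
  module

theorem cc_tw2 (c p q : ℚ) : constantCoeff (1 + c • (gp p - gp q)) = 1 := by
  simp [constCoeff_gp]

theorem tr_aux {x y : ℚ} (hx : x ≠ 0) (hy : y ≠ 0) (hs : x + y ≠ 0) (hd : x - y ≠ 0) :
    ((x ^ 2 / y ^ 2) • gp (-x) - ((x ^ 2 - y ^ 2) / (2 * y ^ 2)) • (gp (y - x) + gp (-x - y))) *
      (1 + ((x ^ 2 - y ^ 2) / (2 * x)) • (gp 0 - gp (-(2 * x)))) = gp (-x) := by
  have n1 : -x ≠ 0 := neg_ne_zero.mpr hx
  have n2 : -x ≠ -(2 * x) := fun h' => hx (by linarith)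
  have n3 : y - x ≠ 0 := fun h' => hd (by linarith)
  have n4 : y - x ≠ -(2 * x) := fun h' => hs (by linarith)
  have n5 : -x - y ≠ 0 := fun h' => hs (by linarith)
  have n6 : -x - y ≠ -(2 * x) := fun h' => hd (by linarith)
  rw [sub_mul, smul_mul_assoc, smul_mul_assoc, add_mul, gp_tw2 _ n1 n2, gp_tw2 _ n3 n4,
    gp_tw2 _ n5 n6]
  have d1 : -x - 0 = -x := by ring
  have d2 : -x - -(2 * x) = x := by ring
  have d3 : y - x - 0 = -(x - y) := by ring
  have d4 : y - x - -(2 * x) = x + y := by ring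
  have d5 : -x - y - 0 = -(x + y) := by ring
  have d6 : -x - y - -(2 * x) = x - y := by ring
  rw [d1, d2, d3, d4, d5, d6]
  match_scalars <;> field_simp <;> ring

theorem Ctx.trE (H : Ctx f n F κ) {x y : ℚ} (hx : x ≠ 0) (hy : y ≠ 0) (hs : x + y ≠ 0)
    (hd : x - y ≠ 0) :
    EP (gp (-x)) (1 + ((x ^ 2 - y ^ 2) / (2 * x)) • (gp 0 - gp (-(2 * x))))
      (1 + ((x ^ 2 - y ^ 2) / (2 * x)) • (gp 0 - gp (-(2 * x)))) F =
    (x ^ 2 / y ^ 2 * x ^ (2 * n) - (x ^ 2 - y ^ 2) / (2 * y ^ 2) *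
      ((x - y) ^ (2 * n) + (x + y) ^ (2 * n))) * (κ * (2 * n + 1)) := by
  rw [H.diagE (by simp [constCoeff_gp]) (cc_tw2 _ _ _) (tr_aux hx hy hs hd), map_sub, coeff_smul,
    coeff_smul, map_add, coeff_gp', coeff_gp', coeff_gp', Even.neg_pow ⟨n, by ring⟩ x,
    show y - x = -(x - y) from by ring, show -x - y = -(x + y) from by ring,
    Even.neg_pow ⟨n, by ring⟩ (x - y), Even.neg_pow ⟨n, by ring⟩ (x + y)]
  simp only [smul_eq_mul]

theorem Ctx.N0form (H : Ctx f n F κ) {x y : ℚ} (hx : x ≠ 0) (hy : y ≠ 0) (hs : x + y ≠ 0)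
    (hd : x - y ≠ 0) :
    EP ((1 / 2 : ℚ) • (gp x + gp (-x)) - gp 0) 1
      (1 + ((x ^ 2 - y ^ 2) / (2 * x)) • (gp x - gp (-x))) F =
      κ * (2 * n + 1) * (x ^ 2 * ((2 * x ^ (2 * n) - ((x + y) ^ (2 * n) + (x - y) ^ (2 * n)))
        / y ^ 2 + (1 - 1 / 2 ^ (2 * n)) * ((x + y) ^ (2 * n) - (x - y) ^ (2 * n)) / (x * y))) := by
  have hα : (x ^ 2 - y ^ 2) / (2 * x) ≠ 0 := by
    have : x ^ 2 - y ^ 2 = (x + y) * (x - y) := by ring
    rw [this]; exact div_ne_zero (mul_ne_zero hs hd) (mul_ne_zero two_ne_zero hx)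
  have hT2 := H.relTr2 x _ hα
  have h1 := H.Nform hx hy hs hd
  have hx' : -x ≠ 0 := neg_ne_zero.mpr hx
  have hs' : -x + y ≠ 0 := by intro h'; apply hd; linarith
  have hd' : -x - y ≠ 0 := by intro h'; apply hs; linarith
  have h2 := H.Nform hx' hy hs' hd'
  have e2 : (((-x) ^ 2 - y ^ 2) / (2 * -x)) • (gp (-x) - gp (- -x)) =
      ((x ^ 2 - y ^ 2) / (2 * x)) • (gp x - gp (-x)) := by
    rw [neg_neg]
    match_scalars <;> field_simp <;> ring
  have s1 : (-x + y) ^ (2 * n) = (x - y) ^ (2 * n) := by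
    rw [← Even.neg_pow ⟨n, by ring⟩ (x - y)]; congr 1; ring
  have s2 : (-x - y) ^ (2 * n) = (x + y) ^ (2 * n) := by
    rw [← Even.neg_pow ⟨n, by ring⟩ (x + y)]; congr 1; ring
  rw [e2, s1, s2] at h2
  have h3 := H.trE hx hy hs hd
  have h4 := H.trE hx' hy hs' hd'
  have e4 : (((-x) ^ 2 - y ^ 2) / (2 * -x)) • (gp 0 - gp (-(2 * -x))) =
      ((x ^ 2 - y ^ 2) / (2 * x)) • (gp (2 * x) - gp 0) := by
    rw [show -(2 * -x) = 2 * x from by ring]
    match_scalars <;> field_simp <;> ring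
  have s3 : (-x) ^ (2 * n) = x ^ (2 * n) := Even.neg_pow ⟨n, by ring⟩ x
  rw [e4, neg_neg, s1, s2, s3] at h4
  rw [h1, h2, h3, h4] at hT2
  rw [EP_sub, EP_smul, EP_add, h1, h2]
  have hT : (2 : ℚ) ^ (2 * n) ≠ 0 := by positivity
  generalize (2 : ℚ) ^ (2 * n) = T at hT2 hT ⊢
  generalize x ^ (2 * n) = xx at hT2 ⊢
  generalize (x + y) ^ (2 * n) = SS at hT2 ⊢
  generalize (x - y) ^ (2 * n) = DD at hT2 ⊢
  linear_combination (norm := (field_simp; ring)) hT2

end

end Pool.Agent.H44DM
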