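import Mathlib
import Pool.Agent.H44DM.Zagier

/-!
# Extraction of the coefficients at `2^a 3 2^b`
-/

set_option autoImplicit false

open PowerSeries

namespace Pool.Agent.H44DM

open Pool.Agent.H4DM

noncomputable section

section
variable {f : NC (Fin 2)} {n : ℕ} {F : NC ℕ+} {κ : ℚ}

theorem sq_aux (x : ℚ) : (1 - C (x ^ 2) * (X : ℚ⟦X⟧) ^ 2) * (gp x - gp (-x)) = C (2 * x) * X ^ 2 := by
  have h1 := gp_lin x
  have h2 := gp_lin (-x)
  rw [map_neg] at h2
  rw [map_pow, map_mul]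
  have h3 : (C (2 : ℚ) : ℚ⟦X⟧) = 2 := by rw [map_ofNat]
  rw [h3]
  linear_combination (1 + C x * X) * h1 - (1 - C x * X) * h2

theorem sq_aux' (x : ℚ) : (1 - C (x ^ 2) * (X : ℚ⟦X⟧) ^ 2) * (gp x + gp (-x)) = C 2 * X := by
  have h1 := gp_lin x
  have h2 := gp_lin (-x)
  rw [map_neg] at h2
  rw [map_pow]
  have h3 : (C (2 : ℚ) : ℚ⟦X⟧) = 2 := by rw [map_ofNat]
  rw [h3]
  linear_combination (1 + C x * X) * h1 + (1 - C x * X) * h2

theorem gp_zero : gp 0 = X := by
  have := gp_lin 0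
  simpa using this

theorem Ctx.Aform (H : Ctx f n F κ) {x y : ℚ} (hx : x ≠ 0) (hy : y ≠ 0) (hs : x + y ≠ 0)
    (hd : x - y ≠ 0) :
    EP (X ^ 3) (1 - C (x ^ 2) * X ^ 2) (1 - C (y ^ 2) * X ^ 2) F =
      κ * (2 * n + 1) * ((2 * x ^ (2 * n) - ((x + y) ^ (2 * n) + (x - y) ^ (2 * n)))
        / y ^ 2 + (1 - 1 / 2 ^ (2 * n)) * ((x + y) ^ (2 * n) - (x - y) ^ (2 * n)) / (x * y)) := by
  have hU : (1 - C (x ^ 2) * (X : ℚ⟦X⟧) ^ 2) ≠ 0 := by
    intro h2
    have := congrArg (constantCoeff (R := ℚ)) h2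
    simp at this
  have a1 := sq_aux x
  have a2 := sq_aux' x
  have e : EP (X ^ 3) (1 - C (x ^ 2) * X ^ 2) (1 - C (y ^ 2) * X ^ 2) F =
      EP ((1 / x ^ 2) • ((1 / 2 : ℚ) • (gp x + gp (-x)) - gp 0)) 1
        (1 + ((x ^ 2 - y ^ 2) / (2 * x)) • (gp x - gp (-x))) F := by
    apply EP_tw (1 + (x / 2) • (gp x - gp (-x))) (by simp) (by simp) (by simp) (cc_tw2 _ _ _) H.prim
    · apply mul_left_cancel₀ hU
      rw [gp_zero]
      simp only [PowerSeries.smul_eq_C_mul]
      have b1 : (C (x / 2) : ℚ⟦X⟧) * C (2 * x) = C (x ^ 2) := by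
        rw [← map_mul]; congr 1; ring
      have b2 : (C (1 / x ^ 2) : ℚ⟦X⟧) * C (x ^ 2) = 1 := by
        rw [← map_mul, ← map_one C]; congr 1; field_simp
      have b3 : (C (1 / 2) : ℚ⟦X⟧) * C 2 = 1 := by
        rw [← map_mul, ← map_one C]; congr 1; norm_num
      linear_combination (X ^ 3 * C (x / 2)) * a1 - C (1 / x ^ 2) * C (1 / 2) * a2
        + X ^ 5 * b1 - X ^ 3 * b2 - C (1 / x ^ 2) * X * b3
    · rw [PowerSeries.smul_eq_C_mul]
      have b1 : (C (x / 2) : ℚ⟦X⟧) * C (2 * x) = C (x ^ 2) := by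
        rw [← map_mul]; congr 1; ring
      linear_combination C (x / 2) * a1 + X ^ 2 * b1
    · apply mul_left_cancel₀ hU
      simp only [PowerSeries.smul_eq_C_mul]
      have b1 : (C (x / 2) : ℚ⟦X⟧) * C (2 * x) = C (x ^ 2) := by
        rw [← map_mul]; congr 1; ring
      have b2 : (C ((x ^ 2 - y ^ 2) / (2 * x)) : ℚ⟦X⟧) * C (2 * x) = C (x ^ 2) - C (y ^ 2) := by
        rw [← map_mul, ← map_sub]; congr 1; field_simp
      linear_combination ((1 - C (y ^ 2) * X ^ 2) * C (x / 2) - C ((x ^ 2 - y ^ 2) / (2 * x))) * a1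
        + (1 - C (y ^ 2) * X ^ 2) * X ^ 2 * b1 - X ^ 2 * b2
  rw [e, EP_smul, H.N0form hx hy hs hd]
  field_simp

/-! ### The words `2^a 3 2^b` -/

/-- The word `y₂^a y₃ y₂^b`. -/
def w23 (a b : ℕ) : List ℕ+ := List.replicate a 2 ++ 3 :: List.replicate b 2

theorem w23_zero (b : ℕ) : w23 0 b = 3 :: List.replicate b 2 := rfl
theorem w23_succ (a b : ℕ) : w23 (a + 1) b = 2 :: w23 a b := rfl

theorem w23_inj {a b a' b' : ℕ} (h : w23 a b = w23 a' b') : a = a' ∧ b = b' := by
  induction a generalizing a' with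
  | zero =>
    rcases a' with _ | a'
    · rw [w23_zero, w23_zero] at h
      have := congrArg List.length h
      simp at this
      exact ⟨rfl, this⟩
    · rw [w23_zero, w23_succ] at h
      have := (List.cons.inj h).1
      exact absurd this (by decide)
  | succ a ih =>
    rcases a' with _ | a'
    · rw [w23_zero, w23_succ] at h
      have := (List.cons.inj h).1
      exact absurd this (by decide)
    · rw [w23_succ, w23_succ] at h
      obtain ⟨h1, h2⟩ := ih (List.cons.inj h).2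
      exact ⟨by rw [h1], h2⟩

theorem wt_w23 (a b : ℕ) : wt wY (w23 a b) = 2 * (a + b) + 3 := by
  rw [w23, wt_append, wt_cons, wt_replicate, wt_replicate]
  show a * 2 + (3 + b * 2) = _
  ring

theorem yw_replicate_two (b : ℕ) : yw (List.replicate b 2) = hw (List.replicate b false) := by
  induction b with
  | zero => rfl
  | succ b ih => rw [List.replicate_succ, List.replicate_succ, yw, ih]; rfl

theorem yw_w23 (a b : ℕ) : yw (w23 a b) = hw (hb a b) := by
  induction a with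
  | zero => rw [w23_zero, yw, yw_replicate_two]; rfl
  | succ a ih => rw [w23_succ, yw, ih]; rfl

theorem Ew_w23 (g r s : ℕ+ → ℚ) (hg3 : g 3 = 1) (hg2 : g 2 = 0) (hr3 : r 3 = 0) (a b : ℕ) :
    Ew g r s (w23 a b) = r 2 ^ a * s 2 ^ b := by
  induction a with
  | zero =>
    rw [w23_zero, Ew_cons, hg3, hr3, List.map_replicate, List.prod_replicate]; ring
  | succ a ih => rw [w23_succ, Ew_cons, ih, hg2]; ring

theorem Ew_ne (g r s : ℕ+ → ℚ) (hg : ∀ k, k ≠ 3 → g k = 0) (hr : ∀ k, k ≠ 2 → r k = 0)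
    (hs : ∀ k, k ≠ 2 → s k = 0) (t : List ℕ+) (h : Ew g r s t ≠ 0) : ∃ a b, t = w23 a b := by
  induction t with
  | nil => exact absurd rfl h
  | cons k t ih =>
    by_cases hk3 : k = 3
    · subst hk3
      rw [Ew_cons, hr 3 (by decide), zero_mul, add_zero] at h
      have h1 := right_ne_zero_of_mul h
      refine ⟨0, t.length, ?_⟩
      rw [w23_zero]
      congr 1
      rw [List.eq_replicate_iff]
      refine ⟨rfl, fun x hx => ?_⟩
      by_contra hx2
      apply h1
      apply List.prod_eq_zero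
      rw [List.mem_map]
      exact ⟨x, hx, hs x hx2⟩
    · rw [Ew_cons, hg k hk3, zero_mul, zero_add] at h
      have h1 := left_ne_zero_of_mul h
      have h2 := right_ne_zero_of_mul h
      obtain ⟨a, b, hab⟩ := ih h2
      have hk2 : k = 2 := by
        by_contra hk2
        exact h1 (hr k hk2)
      exact ⟨a + 1, b, by rw [w23_succ, hk2, hab]⟩

theorem EE_w23 (g r s : ℕ+ → ℚ) (hg3 : g 3 = 1) (hg : ∀ k, k ≠ 3 → g k = 0)
    (hr : ∀ k, k ≠ 2 → r k = 0) (hs : ∀ k, k ≠ 2 → s k = 0) {m : ℕ} {F : NC ℕ+}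
    (hF : Hg wY (2 * m + 3) F) :
    EE g r s F = ∑ p ∈ Finset.HasAntidiagonal.antidiagonal m,
      r 2 ^ p.1 * s 2 ^ p.2 * cf F (w23 p.1 p.2) := by
  have key : ∀ F : NC ℕ+, EE g r s (comp wY (2 * m + 3) F) =
      ∑ p ∈ Finset.HasAntidiagonal.antidiagonal m,
        r 2 ^ p.1 * s 2 ^ p.2 * cf F (w23 p.1 p.2) := by
    intro F
    induction F using nc_induction with
    | hw l =>
      rw [comp_wd]
      simp only [cf_wd]
      by_cases hl : ∃ a b, l = w23 a b
      · obtain ⟨a, b, rfl⟩ := hl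
        rw [wt_w23]
        by_cases hab : a + b = m
        · rw [if_pos (by rw [hab]), EE_wd, Ew_w23 g r s hg3 (hg 2 (by decide)) (hr 3 (by decide)),
            Finset.sum_eq_single (a, b)]
          · rw [if_pos rfl, mul_one]
          · rintro ⟨a', b'⟩ _ hne
            rw [if_neg, mul_zero]
            intro h
            obtain ⟨h1, h2⟩ := w23_inj h
            exact hne (by simp only at h1 h2; rw [h1, h2])
          · intro h
            exact absurd (Finset.HasAntidiagonal.mem_antidiagonal.mpr hab) h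
        · rw [if_neg (by omega), map_zero, Finset.sum_eq_zero]
          rintro ⟨a', b'⟩ h
          rw [if_neg, mul_zero]
          intro h'
          obtain ⟨h1, h2⟩ := w23_inj h'
          simp only at h1 h2
          rw [Finset.HasAntidiagonal.mem_antidiagonal] at h
          simp only at h
          omega
      · rw [Finset.sum_eq_zero (fun p _ => by
          rw [if_neg, mul_zero]
          intro h
          exact hl ⟨_, _, h⟩)]
        split_ifs
        · rw [EE_wd]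
          by_contra hne
          exact hl (Ew_ne g r s hg hr hs l hne)
        · rw [map_zero]
    | zero => simp
    | add p q hp hq =>
      rw [map_add, map_add, hp, hq, ← Finset.sum_add_distrib]
      apply Finset.sum_congr rfl
      intro x _
      rw [cf_add]; ring
    | smul c p hp =>
      rw [map_smul, map_smul, hp, smul_eq_mul, Finset.mul_sum]
      apply Finset.sum_congr rfl
      intro x _
      rw [cf_smul]; ring
  have := key F
  rwa [hF.comp_eq] at this

theorem pnat_ne {k m : ℕ+} (h : k ≠ m) : (k : ℕ) ≠ (m : ℕ) := fun h' => h (PNat.coe_injective h')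

theorem sq_X3 (k : ℕ+) : sq (X ^ 3) k = if k = 3 then 1 else 0 := by
  rw [sq, coeff_X_pow]
  by_cases h : k = 3
  · subst h; rfl
  · rw [if_neg h, if_neg (show (k : ℕ) ≠ 3 from pnat_ne h)]

theorem sq_X2 (u : ℚ) (k : ℕ+) : sq (1 - C u * X ^ 2) k = if k = 2 then -u else 0 := by
  rw [sq, map_sub, coeff_one, if_neg k.pos.ne', coeff_C_mul, coeff_X_pow]
  by_cases h : k = 2
  · subst h; simp
  · rw [if_neg h, if_neg (show (k : ℕ) ≠ 2 from pnat_ne h)]; simp

theorem EP_w23 (u v : ℚ) {m : ℕ} {F : NC ℕ+} (hF : Hg wY (2 * m + 3) F) :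
    EP (X ^ 3) (1 - C u * X ^ 2) (1 - C v * X ^ 2) F =
      ∑ p ∈ Finset.HasAntidiagonal.antidiagonal m,
        (-u) ^ p.1 * (-v) ^ p.2 * cf F (w23 p.1 p.2) := by
  rw [EP, EE_w23 _ _ _ _ _ _ _ hF]
  · simp only [sq_X2, if_true]
  · rw [sq_X3, if_pos rfl]
  · intro k hk; rw [sq_X3, if_neg hk]
  · intro k hk; rw [sq_X2, if_neg hk]
  · intro k hk; rw [sq_X2, if_neg hk]

theorem Ctx.cf_w23 (H : Ctx f n F κ) (a b : ℕ) : cf F (w23 a b) = cf f (hw (hb a b)) := by
  rw [H.F_eq, cf_add, cf_smul, cf_wd, if_neg, mul_zero, add_zero, piY_eq, cf_Th, yw_w23]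
  · simp
  · intro h
    have h3 : (3 : ℕ+) ∈ List.replicate (2 * n + 1) (1 : ℕ+) := by rw [h]; simp [w23]
    have := List.eq_of_mem_replicate h3
    exact absurd this (by decide)

theorem Ctx.Asum (H : Ctx f n F κ) {m : ℕ} (hm : n = m + 1) (y : ℚ) :
    EP (X ^ 3) (1 - C (1 ^ 2) * X ^ 2) (1 - C (y ^ 2) * X ^ 2) F =
      (-1) ^ m * ∑ p ∈ Finset.HasAntidiagonal.antidiagonal m, y ^ (2 * p.2) *
        cf f (hw (hb p.1 p.2)) := by
  have hF : Hg wY (2 * m + 3) F := by
    have := H.homF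
    rwa [hm, show 2 * (m + 1) + 1 = 2 * m + 3 from by ring] at this
  rw [EP_w23 _ _ hF, Finset.mul_sum]
  apply Finset.sum_congr rfl
  rintro ⟨a, b⟩ hp
  rw [Finset.HasAntidiagonal.mem_antidiagonal] at hp
  simp only at hp ⊢
  rw [H.cf_w23, ← hp, pow_add, neg_pow (y ^ 2) b, pow_mul]
  ring

end

open Polynomial in
theorem zagier_aux {f : NC (Fin 2)} {n : ℕ} {F : NC ℕ+} {κ : ℚ} (H : Ctx f n F κ) (a b : ℕ)
    (hab : a + b + 1 = n) :
    cf f (hw (hb a b)) = 2 * (-1) ^ n * ((Nat.choose (2 * n) (2 * b + 2) : ℚ)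
      - (1 - 1 / 2 ^ (2 * n)) * (Nat.choose (2 * n) (2 * a + 1) : ℚ)) * (κ * (2 * n + 1)) := by
  obtain ⟨m, hm⟩ : ∃ m, n = m + 1 := ⟨a + b, hab.symm⟩
  set θ : ℚ := 1 - 1 / 2 ^ (2 * n) with hθ
  let L : ℚ[X] := ∑ p ∈ Finset.HasAntidiagonal.antidiagonal m,
    Polynomial.C ((-1) ^ m * cf f (hw (hb p.1 p.2))) * Polynomial.X ^ (2 * p.2 + 2)
  let R : ℚ[X] := Polynomial.C (κ * (2 * n + 1)) * (Polynomial.C 2
    - ((Polynomial.X + 1) ^ (2 * n) + (Polynomial.X + Polynomial.C (-1)) ^ (2 * n))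
    + Polynomial.C θ * (Polynomial.X * ((Polynomial.X + 1) ^ (2 * n)
      - (Polynomial.X + Polynomial.C (-1)) ^ (2 * n))))
  have hLR : L = R := by
    apply Polynomial.eq_of_infinite_eval_eq
    apply Set.Infinite.mono (s := {y : ℚ | 1 < y})
    · intro y hy
      rw [Set.mem_ofPred_eq] at hy ⊢
      have hy0 : y ≠ 0 := by intro h; rw [h] at hy; norm_num at hy
      have h1 := H.Aform (x := 1) one_ne_zero hy0 (by intro h; linarith) (by intro h; linarith)
      rw [H.Asum hm y] at h1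
      simp only [L, R, Polynomial.eval_finsetSum, Polynomial.eval_mul, Polynomial.eval_C,
        Polynomial.eval_pow, Polynomial.eval_X, Polynomial.eval_sub, Polynomial.eval_add,
        Polynomial.eval_one]
      have h2 : ∑ p ∈ Finset.HasAntidiagonal.antidiagonal m,
          (-1) ^ m * cf f (hw (hb p.1 p.2)) * y ^ (2 * p.2 + 2) =
          y ^ 2 * ((-1) ^ m * ∑ p ∈ Finset.HasAntidiagonal.antidiagonal m, y ^ (2 * p.2) *
            cf f (hw (hb p.1 p.2))) := by
        rw [Finset.mul_sum, Finset.mul_sum]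
        apply Finset.sum_congr rfl
        intro p _
        ring
      rw [h2, h1]
      have h3 : (1 - y) ^ (2 * n) = (y - 1) ^ (2 * n) := by
        rw [← Even.neg_pow ⟨n, by ring⟩ (1 - y), neg_sub]
      have h4 : (1 + y) ^ (2 * n) = (y + 1) ^ (2 * n) := by rw [add_comm]
      rw [h3, h4, ← hθ, one_pow, ← sub_eq_add_neg]
      generalize (y + 1) ^ (2 * n) = SS
      generalize (y - 1) ^ (2 * n) = DD
      field_simp
    · exact Set.Ioi_infinite 1
  have hc := congrArg (fun P : ℚ[X] => P.coeff (2 * b + 2)) hLR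
  simp only [L, R, Polynomial.finsetSum_coeff, Polynomial.coeff_C_mul, Polynomial.coeff_X_pow,
    Polynomial.coeff_sub, Polynomial.coeff_add] at hc
  rw [Finset.sum_eq_single (a, b)] at hc
  · rw [if_pos rfl, mul_one, Polynomial.coeff_C, if_neg (by omega), Polynomial.coeff_X_mul,
      Polynomial.coeff_sub, Polynomial.coeff_X_add_one_pow, Polynomial.coeff_X_add_one_pow,
      Polynomial.coeff_X_add_C_pow, Polynomial.coeff_X_add_C_pow] at hc
    have e1 : 2 * n - (2 * b + 2) = 2 * a := by omega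
    have e2 : 2 * n - (2 * b + 1) = 2 * a + 1 := by omega
    have e3 : Nat.choose (2 * n) (2 * b + 1) = Nat.choose (2 * n) (2 * a + 1) := by
      apply Nat.choose_symm_of_eq_add; omega
    have e4 : ((-1 : ℚ)) ^ (2 * a) = 1 := by rw [pow_mul]; simp
    have e5 : ((-1 : ℚ)) ^ (2 * a + 1) = -1 := by rw [pow_succ, e4]; ring
    rw [e1, e2, e3, e4, e5] at hc
    have e6 : ((-1 : ℚ)) ^ m * (-1) ^ m = 1 := by rw [← mul_pow]; norm_num
    have e7 : ((-1 : ℚ)) ^ n = -(-1) ^ m := by rw [hm, pow_succ]; ring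
    simp only at hc
    have e8 : cf f (hw (hb a b)) = (-1) ^ m * ((-1) ^ m * cf f (hw (hb a b))) := by
      rw [← mul_assoc, e6, one_mul]
    rw [e8, hc, e7]
    ring
  · rintro ⟨a', b'⟩ hp hne
    rw [Finset.HasAntidiagonal.mem_antidiagonal] at hp
    simp only at hp ⊢
    rw [if_neg, mul_zero]
    intro h
    apply hne
    have : b' = b := by omega
    subst this
    have : a' = a := by omega
    rw [this]
  · intro h
    exact absurd (Finset.HasAntidiagonal.mem_antidiagonal.mpr (by simp only; omega)) h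

/-- Zagier's formula for the coefficients at `2^a 3 2^b` of an arbitrary element of `dm`. -/
theorem zagier {ψ : NC (Fin 2)} (h : IsDM ψ) (a b r : ℕ) (hr : a + b + 1 = r) :
    cf ψ (hw (hb a b)) = 2 * (-1) ^ r * ((Nat.choose (2 * r) (2 * b + 2) : ℚ)
      - (1 - 1 / 2 ^ (2 * r)) * (Nat.choose (2 * r) (2 * a + 1) : ℚ)) *
        cf ψ (List.replicate (2 * r) 0 ++ [1]) := by
  have h1 := zagier_aux (ctx_of_dm (h.comp (2 * r + 1)) (by omega) (Hg_comp _ _)) a b hr
  have h2 : ((2 * r + 1 : ℕ) : ℚ) ≠ 0 := by positivity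
  have h3 : cf (comp wX (2 * r + 1) ψ) (List.replicate (2 * r) 0 ++ [1]) /
      ((2 * r + 1 : ℕ) : ℚ) * (2 * r + 1) = cf ψ (List.replicate (2 * r) 0 ++ [1]) := by
    rw [cf_comp, wt_wX, if_pos (by simp)]
    push_cast at h2 ⊢
    field_simp
  have h4 : cf (comp wX (2 * r + 1) ψ) (hw (hb a b)) = cf ψ (hw (hb a b)) := by
    rw [cf_comp, ← yw_w23, wt_wX, length_yw, wt_w23, if_pos (by omega)]
  rw [h3, h4] at h1
  exact h1

end

end Pool.Agent.H44DM
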