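import Mathlib
import Pool.Agent.H44DM.Defs

/-!
# The action of `S_f` on coefficients at Hoffman words (module STEP)

PROOF SKETCH.  Let `w = 2 r + 1`.  `f` is homogeneous of weight `w`, so
`cf (f * g) W = cf f (W.take w) * cf g (W.drop w)` (if `W.length < w` it is `0`).
For `h_A := lq A h` (`cf h_A W = cf h (A ++ W)`, H4Grade) put `S(A, W) := cf (ihDer f h_A) W`.
From `h = (cf h []) • 1 + x0 * lq1 0 h + x1 * lq1 1 h` (`nc_decomp`) one gets
`S(A, []) = 0` and, for a letter `a`,
`S(A, a :: W') = S(A ++ [a], W') + [a = 1] cf f (W'.take w) * cf h (A ++ [1] ++ W'.drop w)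
   - [(a :: W').drop w starts with 1] cf f ((a :: W').take w) * cf h (A ++ (a :: W').drop w)`.
Run this over a Hoffman word block by block.  `cf (sOp f h) (hw b)` becomes a sum of

(i)   at every block boundary, `b = b₁ ++ b₂`, `u = (hw b₂).take w`, `Q = hw b₁ ++ (hw b₂).drop w`:
      `+ [(hw b₂).drop w does not start with 1] cf f u * cf h Q`
      (the term `+` of the recursion after the last letter `1` of `b₁`, or the term `f * h` if
      `b₁ = []`, together with the term `-` at the first letter of `b₂`; for `b₂ = []` nothing);
(ii)  for every boundary with `b₁ ≠ []` the `-` term at the last letter `1` of `b₁`: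
      `- [(1 :: hw b₂).drop w starts with 1] cf f ((1 :: hw b₂).take w) * cf h Q'`, where
      `(1 :: hw b₂).drop w = (hw b₂).drop (w-1)`; if it starts with `1` then `Q' = Q` of (i) and
      with `V = (hw b₂).take (w-1)` one has `u = V ++ [1]`, so (i)+(ii) is
      `(cf f (V ++ [1]) - cf f (1 :: V)) * cf h Q`, and `cf f (1 :: V) = cf f (V.reverse ++ [1])`
      (`cf_reverse`, odd weight);
(iii) for every block `true` of `b = b₁ ++ true :: b₂` the `-` term at its second letter `0`:
      `- [(0 :: 1 :: hw b₂).drop w starts with 1] cf f ((0::1::hw b₂).take w)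
          * cf h (hw b₁ ++ [0] ++ (0::1::hw b₂).drop w)`.

Cutting a Hoffman word: `(hw b).take w`, `w ≤ length`: the cut is at a block boundary, or after the
first `0` of a block, or after the `00` of a block `true`.  In each case with non-zero contribution
the quotient word is again a Hoffman word `hw b'` with `lev b' < lev b`, and `lev b' = lev b - 1`
only if
 * (i), (ii): `u = hw (hb a b)`, `a + b + 1 = r` (cut at a block boundary); for `b₁ = []` this is the
   term in `pre`, for `b₁ ≠ []` the coefficient is `cf f (hw (hb a b)) - cf f (hw (hb b a))`;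
 * (i) with `u = hw (false^r) ++ [0]`, `b₂ = false^r ++ true :: b₃`, quotient
   `hw (b₁ ++ false :: b₃)`: coefficient `alt`;
 * (iii) with `(0::1::hw b₂).take w = hw (false^r) ++ [0]`: coefficient `alt`, quotient
   `hw (b₁ ++ false :: b₃)`.
(`w` odd forces an odd number of doubled zeros.)  Everything is then estimated with
`padicNorm.nonarchimedean`.
-/

set_option autoImplicit false

namespace Pool.Agent.H44DM

open Pool.Agent.H4DM

noncomputable section

/-! ### Words -/

theorem hw_append (a b : List Bool) : hw (a ++ b) = hw a ++ hw b := by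
  induction a with
  | nil => rfl
  | cons x a ih => cases x <;> simp [hw, ih]

theorem hw_length (b : List Bool) : (hw b).length = 2 * b.length + lev b := by
  induction b with
  | nil => rfl
  | cons x b ih =>
    cases x
    · simp only [hw, List.length_cons, ih, lev, List.count_cons]; simp; omega
    · simp only [hw, List.length_cons, ih, lev, List.count_cons]; simp; omega

theorem lev_append (a b : List Bool) : lev (a ++ b) = lev a + lev b := List.count_append

theorem lev_cons_false (b : List Bool) : lev (false :: b) = lev b := by simp [lev]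

theorem lev_cons_true (b : List Bool) : lev (true :: b) = lev b + 1 := by simp [lev]

theorem hw_head_ne (b : List Bool) : (hw b).head? ≠ some 1 := by
  rcases b with _ | ⟨x, b⟩
  · simp [hw]
  · cases x <;> simp [hw]

/-- Cutting a Hoffman word. -/
theorem hw_cut (b : List Bool) : ∀ n, n ≤ (hw b).length →
    (∃ c d, b = c ++ d ∧ (hw b).take n = hw c ∧ (hw b).drop n = hw d) ∨
    (∃ c d, b = c ++ false :: d ∧ (hw b).take n = hw c ++ [0] ∧ (hw b).drop n = 1 :: hw d) ∨
    (∃ c d, b = c ++ true :: d ∧ (hw b).take n = hw c ++ [0] ∧ (hw b).drop n = 0 :: 1 :: hw d) ∨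
    (∃ c d, b = c ++ true :: d ∧ (hw b).take n = hw c ++ [0, 0] ∧ (hw b).drop n = 1 :: hw d) := by
  induction b with
  | nil =>
    intro n hn
    left
    exact ⟨[], [], rfl, by simp [hw], by simp [hw]⟩
  | cons x b ih =>
    intro n hn
    cases x with
    | false =>
      rcases n with _ | _ | n
      · left; exact ⟨[], false :: b, rfl, rfl, rfl⟩
      · right; left; exact ⟨[], b, rfl, rfl, rfl⟩
      · have hn' : n ≤ (hw b).length := by simp only [hw, List.length_cons] at hn; omega
        rcases ih n hn' with ⟨c, d, h1, h2, h3⟩ | ⟨c, d, h1, h2, h3⟩ | ⟨c, d, h1, h2, h3⟩ |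
          ⟨c, d, h1, h2, h3⟩
        · left
          exact ⟨false :: c, d, by rw [h1]; rfl, by simp [hw, h2], by simp [hw, h3]⟩
        · right; left
          exact ⟨false :: c, d, by rw [h1]; rfl, by simp [hw, h2], by simp [hw, h3]⟩
        · right; right; left
          exact ⟨false :: c, d, by rw [h1]; rfl, by simp [hw, h2], by simp [hw, h3]⟩
        · right; right; right
          exact ⟨false :: c, d, by rw [h1]; rfl, by simp [hw, h2], by simp [hw, h3]⟩
    | true =>
      rcases n with _ | _ | _ | n
      · left; exact ⟨[], true :: b, rfl, rfl, rfl⟩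
      · right; right; left; exact ⟨[], b, rfl, rfl, rfl⟩
      · right; right; right; exact ⟨[], b, rfl, rfl, rfl⟩
      · have hn' : n ≤ (hw b).length := by simp only [hw, List.length_cons] at hn; omega
        rcases ih n hn' with ⟨c, d, h1, h2, h3⟩ | ⟨c, d, h1, h2, h3⟩ | ⟨c, d, h1, h2, h3⟩ |
          ⟨c, d, h1, h2, h3⟩
        · left
          exact ⟨true :: c, d, by rw [h1]; rfl, by simp [hw, h2], by simp [hw, h3]⟩
        · right; left
          exact ⟨true :: c, d, by rw [h1]; rfl, by simp [hw, h2], by simp [hw, h3]⟩
        · right; right; left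
          exact ⟨true :: c, d, by rw [h1]; rfl, by simp [hw, h2], by simp [hw, h3]⟩
        · right; right; right
          exact ⟨true :: c, d, by rw [h1]; rfl, by simp [hw, h2], by simp [hw, h3]⟩

theorem hw_reverse (d : List Bool) : (hw d).reverse ++ [1] = 1 :: hw d.reverse := by
  induction d with
  | nil => rfl
  | cons x d ih =>
    cases x with
    | false =>
      have : (hw (false :: d)).reverse ++ [1] = ((hw d).reverse ++ [1]) ++ [0, 1] := by simp [hw]
      rw [this, ih, List.reverse_cons, hw_append]
      simp [hw]
    | true =>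
      have : (hw (true :: d)).reverse ++ [1] = ((hw d).reverse ++ [1]) ++ [0, 0, 1] := by simp [hw]
      rw [this, ih, List.reverse_cons, hw_append]
      simp [hw]

theorem hw_dropLast_append (x : Bool) (c : List Bool) :
    ∃ u, hw (c ++ [x]) = u ++ [1] := by
  cases x
  · exact ⟨hw c ++ [0], by rw [hw_append]; simp [hw]⟩
  · exact ⟨hw c ++ [0, 0], by rw [hw_append]; simp [hw]⟩

/-! ### The recursion -/

section rec
variable {f : NC (Fin 2)} {w : ℕ}

theorem cf_mul_hom (hf : Hg wX w f) (q : NC (Fin 2)) (W : List (Fin 2)) :
    cf (f * q) W = if w ≤ W.length then cf f (W.take w) * cf q (W.drop w) else 0 := by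
  have hw1 : ∀ a : Fin 2, 1 ≤ wX a := fun _ => le_rfl
  split_ifs with h
  · have h1 : (W.take w).length = w := by rw [List.length_take]; omega
    have h2 : wt wX (W.take w) = w := by rw [wt_wX, h1]
    have h3 : cf (f * q) W = cf (lq (W.take w) (f * q)) (W.drop w) := by
      rw [cf_lq, List.take_append_drop]
    rw [h3, lq_mul hw1 _ q hf (by rw [h2]), lq_self hw1 (by rw [h2]; exact hf)]
    rw [smul_mul_assoc, one_mul, cf_smul]
  · have h2 : wt wX W ≤ w := by rw [wt_wX]; omega
    have h3 : cf (f * q) W = cf (lq W (f * q)) [] := by
      rw [cf_lq, List.append_nil]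
    rw [h3, lq_mul hw1 _ q hf h2, cf_mul_nil, cf_lq, List.append_nil]
    have h4 : cf f W = 0 := by
      by_contra hc
      have := hf _ hc
      rw [wt_wX] at this
      omega
    rw [h4, zero_mul]

/-- contribution of `f` inserted at a cut, with positive sign -/
def pl (f h : NC (Fin 2)) (w : ℕ) (A W : List (Fin 2)) : ℚ :=
  if w ≤ W.length then cf f (W.take w) * cf h (A ++ W.drop w) else 0

/-- contribution of `f` inserted before a letter `x₁` -/
def mi (f h : NC (Fin 2)) (w : ℕ) (A W : List (Fin 2)) : ℚ :=
  if (W.drop w).head? = some 1 then cf f (W.take w) * cf h (A ++ W.drop w) else 0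

/-- the coefficient of `W` in `D_f` of the quotient of `h` by the prefix `A` -/
def Sc (f h : NC (Fin 2)) (A W : List (Fin 2)) : ℚ := cf (ihDer f (lq A h)) W

theorem lq_append (A B : List (Fin 2)) (h : NC (Fin 2)) : lq B (lq A h) = lq (A ++ B) h := by
  apply cf_ext
  intro l
  rw [cf_lq, cf_lq, cf_lq, List.append_assoc]

theorem Sc_nil (hf0 : cf f [] = 0) (h : NC (Fin 2)) (A : List (Fin 2)) : Sc f h A [] = 0 := by
  rw [Sc, nc_decomp (lq A h), map_add, map_smul, ihDer_one, smul_zero, zero_add, map_sum]
  rw [cf_sum]
  apply Finset.sum_eq_zero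
  intro i _
  rw [ihDer_mul, cf_add, cf_mul_nil, cf_mul_nil]
  have h2 : cf (wd [i]) [] = 0 := by rw [cf_wd, if_neg (by simp)]
  rw [h2, zero_mul, add_zero]
  have h3 : cf (ihDer f (wd [i])) [] = 0 := by
    fin_cases i
    · have : ihDer f (wd [0]) = 0 := ihDer_x0 f
      rw [show ((fun (i : Fin 2) => i) ⟨0, by norm_num⟩ : Fin 2) = 0 from rfl, this]; rfl
    · have : ihDer f (wd [1]) = x1 * f - f * x1 := ihDer_x1 f
      rw [show ((fun (i : Fin 2) => i) ⟨1, by norm_num⟩ : Fin 2) = 1 from rfl, this, cf_sub,
        cf_mul_nil, cf_mul_nil, hf0]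
      ring
  rw [h3, zero_mul]

theorem Sc_cons (hf : Hg wX w f) (h : NC (Fin 2)) (A : List (Fin 2)) (a : Fin 2)
    (W : List (Fin 2)) :
    Sc f h A (a :: W) = Sc f h (A ++ [a]) W +
      (if a = 1 then pl f h w (A ++ [1]) W else 0) - mi f h w A (a :: W) := by
  set g := lq A h with hg
  have hga : ∀ i : Fin 2, lq1 i g = lq (A ++ [i]) h := by
    intro i
    rw [← lq_append]; rfl
  have hdec : ihDer f g = x0 * ihDer f (lq1 0 g) + (x1 * (f * lq1 1 g) - f * (x1 * lq1 1 g)
      + x1 * ihDer f (lq1 1 g)) := by
    conv_lhs => rw [nc_decomp g]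
    rw [map_add, map_smul, ihDer_one, smul_zero, zero_add, map_sum, Fin.sum_univ_two]
    have e0 : (wd [0] : NC (Fin 2)) = x0 := rfl
    have e1 : (wd [1] : NC (Fin 2)) = x1 := rfl
    rw [e0, e1, ihDer_mul, ihDer_mul, ihDer_x0, ihDer_x1]
    noncomm_ring
  have hx : cf (f * (x1 * lq1 1 g)) (a :: W) = mi f h w A (a :: W) := by
    rw [cf_mul_hom hf, mi]
    rcases hd : (a :: W).drop w with _ | ⟨b, B⟩
    · have : cf (x1 * lq1 1 g) [] = 0 := cf_wd_mul_nil 1 _
      rw [this]; simp
    · have hlen : w ≤ (a :: W).length := by
        by_contra hc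
        rw [List.drop_eq_nil_of_le (by omega)] at hd
        exact absurd hd (by simp)
      rw [if_pos hlen]
      have h1 : cf (x1 * lq1 1 g) (b :: B) = if (1 : Fin 2) = b then cf (lq1 1 g) B else 0 :=
        cf_wd_mul 1 _ b B
      rw [h1]
      by_cases hb : (1 : Fin 2) = b
      · rw [if_pos hb, if_pos (by rw [← hb]; rfl), hga, cf_lq, ← hb]
        simp
      · rw [if_neg hb, if_neg (by
          intro h2
          apply hb
          simpa using h2.symm), mul_zero]
  rw [Sc, ← hg, hdec, cf_add, cf_add, cf_sub, hx]
  have h0 : cf (x0 * ihDer f (lq1 0 g)) (a :: W) =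
      if (0 : Fin 2) = a then cf (ihDer f (lq1 0 g)) W else 0 := cf_wd_mul 0 _ a W
  have h1 : cf (x1 * (f * lq1 1 g)) (a :: W) =
      if (1 : Fin 2) = a then cf (f * lq1 1 g) W else 0 := cf_wd_mul 1 _ a W
  have h2 : cf (x1 * ihDer f (lq1 1 g)) (a :: W) =
      if (1 : Fin 2) = a then cf (ihDer f (lq1 1 g)) W else 0 := cf_wd_mul 1 _ a W
  rw [h0, h1, h2]
  fin_cases a
  · simp only [Fin.zero_eta, Fin.isValue, if_true, one_ne_zero, if_false, zero_ne_one]
    rw [hga, Sc]; ring
  · simp only [Fin.mk_one, Fin.isValue, if_true, zero_ne_one, if_false]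
    rw [hga, Sc, cf_mul_hom hf, pl]
    simp only [cf_lq]
    ring

theorem cf_sOp (hf : Hg wX w f) (h : NC (Fin 2)) (W : List (Fin 2)) :
    cf (sOp f h) W = Sc f h [] W + pl f h w [] W := by
  rw [sOp_apply, cf_add, cf_mul_hom hf, Sc, pl]
  rw [add_comm]
  rfl

end rec

/-! ### The main decomposition -/

section core
variable {f : NC (Fin 2)} {r : ℕ}

/-- The recursion over one block. -/
theorem T_cons (hf : Hg wX (2 * r + 1) f) (h : NC (Fin 2)) (b1 b2 : List Bool) (x : Bool) :
    Sc f h (hw b1) (hw (x :: b2)) = Sc f h (hw (b1 ++ [x])) (hw b2)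
      + pl f h (2 * r + 1) (hw (b1 ++ [x])) (hw b2)
      - mi f h (2 * r + 1) (hw b1) (hw (x :: b2))
      - mi f h (2 * r + 1) (hw (b1 ++ [x])).dropLast (1 :: hw b2)
      - (if x = true then mi f h (2 * r + 1) (hw b1 ++ [0]) (hw (false :: b2)) else 0) := by
  cases x with
  | false =>
    have e1 : hw (b1 ++ [false]) = hw b1 ++ [0] ++ [1] := by rw [hw_append]; simp [hw]
    have e2 : (hw (b1 ++ [false])).dropLast = hw b1 ++ [0] := by rw [e1, List.dropLast_concat]
    rw [e2, e1]
    simp only [hw, Bool.false_eq_true, if_false, sub_zero]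
    rw [Sc_cons hf, Sc_cons hf]
    simp only [Fin.isValue, zero_ne_one, if_false, if_true, add_zero]
    ring
  | true =>
    have e1 : hw (b1 ++ [true]) = hw b1 ++ [0] ++ [0] ++ [1] := by rw [hw_append]; simp [hw]
    have e2 : (hw (b1 ++ [true])).dropLast = hw b1 ++ [0] ++ [0] := by
      rw [e1, List.dropLast_concat]
    rw [e2, e1]
    simp only [hw, if_true]
    rw [Sc_cons hf, Sc_cons hf, Sc_cons hf]
    simp only [Fin.isValue, zero_ne_one, if_false, if_true, add_zero]
    ring

/-- The sum rule. -/
theorem core (hf : Hg wX (2 * r + 1) f) (hl : f ∈ Lie01) (hr : 1 ≤ r) (h : NC (Fin 2))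
    (Sm : ℚ → Prop) (sm0 : Sm 0) (sma : ∀ x y, Sm x → Sm y → Sm (x + y))
    (sms : ∀ x y, Sm x → Sm y → Sm (x - y)) (b : List Bool)
    (K1 : ∀ b1 c b3, b = b1 ++ c ++ b3 → (hw c).length = 2 * r + 1 →
      Sm ((cf f (hw c) - cf f (hw c.reverse)) * cf h (hw (b1 ++ b3))))
    (K2 : ∀ b1 c b3, b = b1 ++ c ++ true :: b3 → (hw c).length = 2 * r →
      Sm (cf f (hw c ++ [0]) * cf h (hw (b1 ++ false :: b3))))
    (K3 : ∀ b1 b2 c b3, b = b1 ++ true :: b2 → false :: b2 = c ++ false :: b3 →
      (hw c).length = 2 * r → Sm (cf f (hw c ++ [0]) * cf h (hw (b1 ++ false :: b3))))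
    (K4 : ∀ b1 b2 c b3, b = b1 ++ true :: b2 → false :: b2 = c ++ true :: b3 →
      (hw c).length + 2 = 2 * r + 1 →
      Sm (cf f (hw c ++ [0, 0]) * cf h (hw (b1 ++ false :: b3)))) :
    Sm (cf (sOp f h) (hw b) - pre f h r b) := by
  have hrev : ∀ l : List (Fin 2), l.length = 2 * r + 1 → cf f l.reverse = cf f l := by
    intro l hl'
    rw [cf_reverse hl, hl']
    have : (-1 : ℚ) ^ (2 * r + 1 + 1) = 1 := by
      rw [show 2 * r + 1 + 1 = 2 * (r + 1) by ring, pow_mul]; norm_num
    rw [this, one_mul]
  -- the middle term
  have M2 : ∀ b1 b2, b = b1 ++ true :: b2 →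
      Sm (mi f h (2 * r + 1) (hw b1 ++ [0]) (hw (false :: b2))) := by
    intro b1 b2 hb
    by_cases hlen : 2 * r + 1 ≤ (hw (false :: b2)).length
    · rcases hw_cut (false :: b2) (2 * r + 1) hlen with ⟨c, d, h1, h2, h3⟩ | ⟨c, d, h1, h2, h3⟩ |
        ⟨c, d, h1, h2, h3⟩ | ⟨c, d, h1, h2, h3⟩
      · rw [mi, h3, if_neg (hw_head_ne d)]; exact sm0
      · rw [mi, h3, h2, if_pos (by simp)]
        have hc : (hw c).length = 2 * r := by
          have := congrArg List.length h2
          rw [List.length_take, List.length_append] at this
          simp only [List.length_cons, List.length_nil] at this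
          omega
        have := K3 b1 b2 c d hb h1 hc
        rw [hw_append] at this
        simpa [hw] using this
      · rw [mi, h3, if_neg (by simp)]; exact sm0
      · rw [mi, h3, h2, if_pos (by simp)]
        have hc : (hw c).length + 2 = 2 * r + 1 := by
          have := congrArg List.length h2
          rw [List.length_take, List.length_append] at this
          simp only [List.length_cons, List.length_nil] at this
          omega
        have := K4 b1 b2 c d hb h1 hc
        rw [hw_append] at this
        simpa [hw] using this
    · rw [mi, List.drop_eq_nil_of_le (by omega), if_neg (by simp)]; exact sm0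
  -- the boundary terms
  have P1 : ∀ b1 b2, b = b1 ++ b2 → b1 ≠ [] →
      Sm (pl f h (2 * r + 1) (hw b1) (hw b2) - mi f h (2 * r + 1) (hw b1) (hw b2)
        - mi f h (2 * r + 1) (hw b1).dropLast (1 :: hw b2)) := by
    intro b1 b2 hb hne
    have hdl : (hw b1).dropLast ++ [1] = hw b1 := by
      obtain ⟨b1', x, rfl⟩ : ∃ b1' x, b1 = b1' ++ [x] :=
        ⟨b1.dropLast, b1.getLast hne, (List.dropLast_append_getLast hne).symm⟩
      obtain ⟨u, hu⟩ := hw_dropLast_append x b1'
      rw [hu, List.dropLast_concat]
    have hmi : mi f h (2 * r + 1) (hw b1).dropLast (1 :: hw b2) =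
        if ((hw b2).drop (2 * r)).head? = some 1 then
          cf f (1 :: (hw b2).take (2 * r)) * cf h ((hw b1).dropLast ++ (hw b2).drop (2 * r))
        else 0 := rfl
    by_cases hlen : 2 * r ≤ (hw b2).length
    · have htk : (hw b2).take (2 * r + 1) = (hw b2).take (2 * r) ++ ((hw b2).drop (2 * r)).take 1 := by
        rw [List.take_add]
      have hdr : (hw b2).drop (2 * r + 1) = ((hw b2).drop (2 * r)).drop 1 := by
        rw [List.drop_drop]
      have hlt : ((hw b2).take (2 * r)).length = 2 * r := by rw [List.length_take]; omega
      rcases hw_cut b2 (2 * r) hlen with ⟨c, d, h1, h2, h3⟩ | ⟨c, d, h1, h2, h3⟩ |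
        ⟨c, d, h1, h2, h3⟩ | ⟨c, d, h1, h2, h3⟩
      · rw [hmi, h3, if_neg (hw_head_ne d), sub_zero]
        rcases d with _ | ⟨x, d⟩
        · have hl2 : (hw b2).length = 2 * r := by
            have := List.take_append_drop (2 * r) (hw b2)
            rw [h3] at this
            rw [← this]
            simp [hw, hlt]
          rw [pl, if_neg (by omega), mi, List.drop_eq_nil_of_le (by omega), if_neg (by simp)]
          simpa using sm0
        · cases x with
          | false =>
            rw [pl, mi, hdr, htk, h3]
            have hlen2 : 2 * r + 1 ≤ (hw b2).length := by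
              have := congrArg List.length h3
              rw [List.length_drop] at this
              simp only [hw, List.length_cons] at this
              omega
            rw [if_pos hlen2]
            simp only [hw, List.drop_succ_cons, List.drop_zero, List.head?_cons, if_true, sub_self]
            exact sm0
          | true =>
            have hlen2 : 2 * r + 1 ≤ (hw b2).length := by
              have := congrArg List.length h3
              rw [List.length_drop] at this
              simp only [hw, List.length_cons] at this
              omega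
            rw [pl, mi, hdr, htk, h3, h2, if_pos hlen2]
            have hc : (hw c).length = 2 * r := by rw [← h2]; exact hlt
            have := K2 b1 c d (by rw [hb, h1, List.append_assoc]) hc
            rw [hw_append] at this
            simp only [hw, List.drop_succ_cons, List.drop_zero, List.head?_cons,
              List.take_succ_cons, List.take_zero, Fin.isValue, Option.some.injEq, zero_ne_one,
              if_false, sub_zero] at this ⊢
            exact this
      · -- cut before the last letter of a short block
        have hhd : hw (c ++ [false]) = hw c ++ [0] ++ [1] := by rw [hw_append]; simp [hw]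
        have hlen2 : 2 * r + 1 ≤ (hw b2).length := by
          have := congrArg List.length h3
          rw [List.length_drop] at this
          simp only [List.length_cons] at this
          omega
        have hc : (hw (c ++ [false])).length = 2 * r + 1 := by
          rw [hhd, List.length_append, ← h2, hlt]; rfl
        have hr1 : cf f (1 :: (hw c ++ [0])) = cf f (hw (c ++ [false]).reverse) := by
          rw [← hrev _ (by rw [List.length_cons, ← h2, hlt])]
          congr 1
          rw [List.reverse_cons, List.reverse_append, List.append_assoc, hw_reverse,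
            List.reverse_append]
          simp [hw]
        have := K1 b1 (c ++ [false]) d (by rw [hb, h1]; simp) hc
        rw [hmi, pl, mi, hdr, htk, h3, h2, if_pos hlen2]
        simp only [List.drop_succ_cons, List.drop_zero, List.head?_cons, List.take_succ_cons,
          List.take_zero, if_true]
        rw [if_neg (hw_head_ne d), sub_zero, hr1, ← hhd]
        have e : (hw b1).dropLast ++ 1 :: hw d = hw (b1 ++ d) := by
          rw [hw_append]
          conv_rhs => rw [← hdl]
          simp
        rw [e, ← hw_append, ← sub_mul]
        exact this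
      · rw [hmi, h3, if_neg (by simp), sub_zero]
        have hlen2 : 2 * r + 1 ≤ (hw b2).length := by
          have := congrArg List.length h3
          rw [List.length_drop] at this
          simp only [List.length_cons] at this
          omega
        rw [pl, mi, hdr, htk, h3, if_pos hlen2]
        simp only [List.drop_succ_cons, List.drop_zero, List.head?_cons, if_true, sub_self]
        exact sm0
      · have hhd : hw (c ++ [true]) = hw c ++ [0, 0] ++ [1] := by rw [hw_append]; simp [hw]
        have hlen2 : 2 * r + 1 ≤ (hw b2).length := by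
          have := congrArg List.length h3
          rw [List.length_drop] at this
          simp only [List.length_cons] at this
          omega
        have hc : (hw (c ++ [true])).length = 2 * r + 1 := by
          rw [hhd, List.length_append, ← h2, hlt]; rfl
        have hr1 : cf f (1 :: (hw c ++ [0, 0])) = cf f (hw (c ++ [true]).reverse) := by
          rw [← hrev _ (by rw [List.length_cons, ← h2, hlt])]
          congr 1
          rw [List.reverse_cons, List.reverse_append, List.append_assoc, hw_reverse,
            List.reverse_append]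
          simp [hw]
        have := K1 b1 (c ++ [true]) d (by rw [hb, h1]; simp) hc
        rw [hmi, pl, mi, hdr, htk, h3, h2, if_pos hlen2]
        simp only [List.drop_succ_cons, List.drop_zero, List.head?_cons, List.take_succ_cons,
          List.take_zero, if_true]
        rw [if_neg (hw_head_ne d), sub_zero, hr1, ← hhd]
        have e : (hw b1).dropLast ++ 1 :: hw d = hw (b1 ++ d) := by
          rw [hw_append]
          conv_rhs => rw [← hdl]
          simp
        rw [e, ← hw_append, ← sub_mul]
        exact this
    · rw [hmi, pl, mi, if_neg (by omega), List.drop_eq_nil_of_le (by omega),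
        List.drop_eq_nil_of_le (by omega), if_neg (by simp), if_neg (by simp)]
      simpa using sm0
  -- the tail
  have TT : ∀ b2 b1, b = b1 ++ b2 → b1 ≠ [] →
      Sm (Sc f h (hw b1) (hw b2) + pl f h (2 * r + 1) (hw b1) (hw b2)
        - mi f h (2 * r + 1) (hw b1).dropLast (1 :: hw b2)) := by
    intro b2
    induction b2 with
    | nil =>
      intro b1 hb hne
      have h1 : Sc f h (hw b1) (hw []) = 0 := Sc_nil (cf_lie_nil hl) h _
      have h2 : pl f h (2 * r + 1) (hw b1) (hw []) = 0 := by
        rw [pl, if_neg (by simp [hw])]
      have h3 : mi f h (2 * r + 1) (hw b1).dropLast (1 :: hw []) = 0 := by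
        rw [mi, if_neg (by
          rw [List.drop_eq_nil_of_le (by simp [hw])]
          simp)]
      rw [h1, h2, h3]
      simpa using sm0
    | cons x b2 ih =>
      intro b1 hb hne
      have ih' := ih (b1 ++ [x]) (by rw [hb]; simp) (by simp)
      have hp := P1 b1 (x :: b2) hb hne
      rw [T_cons hf]
      cases x with
      | false =>
        have := sma _ _ hp ih'
        simp only [Bool.false_eq_true, if_false, sub_zero]
        convert this using 1
        ring
      | true =>
        have := sms _ _ (sma _ _ hp ih') (M2 b1 b2 hb)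
        simp only [if_true]
        convert this using 1
        ring
  -- the first boundary
  have P0 : Sm (pl f h (2 * r + 1) [] (hw b) - mi f h (2 * r + 1) [] (hw b) - pre f h r b) := by
    have hmono : ∀ i j, i < j → j ≤ b.length → (hw (b.take i)).length < (hw (b.take j)).length := by
      intro i j hij hj
      have e : b.take j = b.take i ++ (b.drop i).take (j - i) := by
        rw [← List.take_add]; congr 1; omega
      rw [e, hw_append, List.length_append, hw_length ((b.drop i).take (j - i)),
        List.length_take, List.length_drop]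
      have : min (j - i) (b.length - i) = j - i := by omega
      rw [this]
      omega
    by_cases hex : ∃ i, i ≤ b.length ∧ (hw (b.take i)).length = 2 * r + 1
    · obtain ⟨i, hi, hi2⟩ := hex
      have hpre : pre f h r b = cf f (hw (b.take i)) * cf h (hw (b.drop i)) := by
        rw [pre, Finset.sum_eq_single i]
        · rw [if_pos hi2]
        · intro j hj hji
          rw [if_neg]
          intro hc
          rw [Finset.mem_range] at hj
          rcases lt_or_gt_of_ne hji with hlt | hlt
          · have := hmono j i hlt hi
            omega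
          · have := hmono i j hlt (by omega)
            omega
        · intro hni
          exact absurd (Finset.mem_range.2 (by omega)) hni
      have e : hw b = hw (b.take i) ++ hw (b.drop i) := by
        rw [← hw_append, List.take_append_drop]
      have e1 : (hw b).take (2 * r + 1) = hw (b.take i) := by
        rw [e, ← hi2, List.take_left]
      have e2 : (hw b).drop (2 * r + 1) = hw (b.drop i) := by
        rw [e, ← hi2, List.drop_left]
      have e3 : 2 * r + 1 ≤ (hw b).length := by
        rw [e, List.length_append, hi2]; omega
      rw [pl, mi, e1, e2, if_pos e3, if_neg (hw_head_ne _), hpre]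
      simpa using sm0
    · have hpre : pre f h r b = 0 := by
        rw [pre]
        apply Finset.sum_eq_zero
        intro j hj
        rw [Finset.mem_range] at hj
        rw [if_neg (fun hc => hex ⟨j, by omega, hc⟩)]
      rw [hpre, sub_zero]
      by_cases hlen : 2 * r + 1 ≤ (hw b).length
      · rcases hw_cut b (2 * r + 1) hlen with ⟨c, d, h1, h2, h3⟩ | ⟨c, d, h1, h2, h3⟩ |
          ⟨c, d, h1, h2, h3⟩ | ⟨c, d, h1, h2, h3⟩
        · exfalso
          apply hex
          refine ⟨c.length, by rw [h1, List.length_append]; omega, ?_⟩
          have : b.take c.length = c := by rw [h1, List.take_left]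
          rw [this, ← h2, List.length_take]
          omega
        · rw [pl, mi, h3, if_pos hlen, if_pos (by simp), sub_self]; exact sm0
        · rw [pl, mi, h3, if_pos hlen, if_neg (by simp), sub_zero, h2]
          have hc : (hw c).length = 2 * r := by
            have := congrArg List.length h2
            rw [List.length_take, List.length_append] at this
            simp only [List.length_cons, List.length_nil] at this
            omega
          have := K2 [] c d (by rw [h1]; rfl) hc
          simpa [hw] using this
        · rw [pl, mi, h3, if_pos hlen, if_pos (by simp), sub_self]; exact sm0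
      · rw [pl, mi, if_neg hlen, List.drop_eq_nil_of_le (by omega), if_neg (by simp)]
        simpa using sm0
  rw [cf_sOp hf]
  rcases hb : b with _ | ⟨x, b2⟩
  · have h1 : Sc f h [] (hw []) = 0 := Sc_nil (cf_lie_nil hl) h _
    have h2 : pl f h (2 * r + 1) [] (hw []) = 0 := by
      rw [pl, if_neg (by simp [hw])]
    have h3 : mi f h (2 * r + 1) [] (hw []) = 0 := by
      rw [mi, if_neg (by
        rw [List.drop_eq_nil_of_le (by simp [hw])]
        simp)]
    rw [hb, h2, h3] at P0
    rw [h1, h2]
    simpa using P0
  · have h1 := T_cons hf h [] b2 x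
    have h2 := TT b2 [x] (by rw [hb]; rfl) (by simp)
    rw [hb] at P0
    have e : hw [] = ([] : List (Fin 2)) := rfl
    rw [e, List.nil_append] at h1
    rw [h1]
    cases x with
    | false =>
      have := sma _ _ P0 h2
      simp only [Bool.false_eq_true, if_false, sub_zero]
      convert this using 1
      ring
    | true =>
      have := sms _ _ (sma _ _ P0 h2) (M2 [] b2 (by rw [hb]; rfl))
      simp only [if_true]
      convert this using 1
      rw [e]
      ring

end core

theorem lev_zero_iff (c : List Bool) (h : lev c = 0) : c = List.replicate c.length false := by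
  rw [List.eq_replicate_iff]
  refine ⟨rfl, fun x hx => ?_⟩
  cases x
  · rfl
  · exfalso
    have := List.count_pos_iff.2 hx
    unfold lev at h
    omega

theorem lev_one (c : List Bool) (h : lev c = 1) : ∃ a b, c = hb a b := by
  have hm : true ∈ c := by
    apply List.count_pos_iff.1
    unfold lev at h
    omega
  obtain ⟨s, t, rfl⟩ := List.append_of_mem hm
  rw [lev_append, lev_cons_true] at h
  refine ⟨s.length, t.length, ?_⟩
  rw [hb, ← lev_zero_iff s (by omega), ← lev_zero_iff t (by omega)]

theorem hb_length (a b : ℕ) : (hb a b).length = a + b + 1 := by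
  simp [hb]; omega

theorem hb_reverse (a b : ℕ) : (hb a b).reverse = hb b a := by
  simp [hb]

theorem level_zero {f : NC (Fin 2)} {r : ℕ} {G : ℚ} (hf : LevelOne f r G) {h : NC (Fin 2)} {m : ℕ}
    (h0 : ∀ b, lev b < m → cf h (hw b) = 0) (b : List Bool) (hb : lev b < m + 1) :
    cf (sOp f h) (hw b) = 0 := by
  have key := core hf.hom hf.lie hf.hr h (fun x => x = 0) rfl
    (fun x y hx hy => by rw [hx, hy, add_zero]) (fun x y hx hy => by rw [hx, hy, sub_zero]) b
    (by
      intro b1 c b3 he hc
      rw [h0, mul_zero]
      rw [he, lev_append, lev_append] at hb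
      rw [hw_length] at hc
      rw [lev_append]
      omega)
    (by
      intro b1 c b3 he hc
      rw [h0, mul_zero]
      rw [he, lev_append, lev_append, lev_cons_true] at hb
      rw [lev_append, lev_cons_false]
      omega)
    (by
      intro b1 b2 c b3 he he2 hc
      rw [h0, mul_zero]
      have h2 := congrArg lev he2
      rw [lev_append, lev_cons_false, lev_cons_false] at h2
      rw [he, lev_append, lev_cons_true] at hb
      rw [lev_append, lev_cons_false]
      omega)
    (by
      intro b1 b2 c b3 he he2 hc
      rw [h0, mul_zero]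
      have h2 := congrArg lev he2
      rw [lev_append, lev_cons_false, lev_cons_true] at h2
      rw [he, lev_append, lev_cons_true] at hb
      rw [lev_append, lev_cons_false]
      omega)
  have hpre : pre f h r b = 0 := by
    rw [pre]
    apply Finset.sum_eq_zero
    intro i _
    split_ifs with hi
    · have h1 : lev b = lev (b.take i) + lev (b.drop i) := by
        rw [← lev_append, List.take_append_drop]
      rw [hw_length] at hi
      rw [h0, mul_zero]
      omega
    · rfl
  simp only [hpre, sub_zero] at key
  exact key

theorem level_step {f : NC (Fin 2)} {r : ℕ} {G : ℚ} (hf : LevelOne f r G) {h : NC (Fin 2)} {m : ℕ}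
    {H : ℚ} (h0 : ∀ b, lev b < m → cf h (hw b) = 0)
    (h1 : ∀ b, lev b = m → padicNorm 2 (cf h (hw b)) ≤ H) (b : List Bool) (hb : lev b = m + 1) :
    padicNorm 2 (cf (sOp f h) (hw b) - pre f h r b) ≤ G / 2 * H := by
  have hH : 0 ≤ H := by
    have := h1 (List.replicate m true) (by simp [lev])
    exact le_trans (padicNorm.nonneg _) this
  have hG := hf.pos
  have hGH : 0 ≤ G / 2 * H := by positivity
  have hmul : ∀ x b', padicNorm 2 x ≤ G / 2 → lev b' = m →
      padicNorm 2 (x * cf h (hw b')) ≤ G / 2 * H := by
    intro x b' hx hb'
    rw [padicNorm.mul]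
    exact mul_le_mul hx (h1 b' hb') (padicNorm.nonneg _) (by positivity)
  refine core hf.hom hf.lie hf.hr h (fun x => padicNorm 2 x ≤ G / 2 * H) (by simpa using hGH)
    (fun x y hx hy => (padicNorm.nonarchimedean).trans (max_le hx hy))
    (fun x y hx hy => (padicNorm.sub).trans (max_le hx hy)) b ?_ ?_ ?_ ?_
  · intro b1 c b3 he hc
    rw [he, lev_append, lev_append] at hb
    rw [hw_length] at hc
    by_cases hc1 : lev c = 1
    · obtain ⟨a, b', rfl⟩ := lev_one c hc1
      rw [hb_length] at hc
      refine hmul _ _ ?_ (by rw [lev_append]; omega)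
      rw [hb_reverse]
      exact hf.rev a b' (by omega)
    · rw [h0 _ (by rw [lev_append]; omega), mul_zero]
      simpa using hGH
  · intro b1 c b3 he hc
    rw [he, lev_append, lev_append, lev_cons_true] at hb
    rw [hw_length] at hc
    by_cases hc1 : lev c = 0
    · refine hmul _ _ ?_ (by rw [lev_append, lev_cons_false]; omega)
      rw [lev_zero_iff c hc1]
      have : c.length = r := by omega
      rw [this]
      exact hf.alt
    · rw [h0 _ (by rw [lev_append, lev_cons_false]; omega), mul_zero]
      simpa using hGH
  · intro b1 b2 c b3 he he2 hc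
    have h2 := congrArg lev he2
    rw [lev_append, lev_cons_false, lev_cons_false] at h2
    rw [he, lev_append, lev_cons_true] at hb
    rw [hw_length] at hc
    by_cases hc1 : lev c = 0
    · refine hmul _ _ ?_ (by rw [lev_append, lev_cons_false]; omega)
      rw [lev_zero_iff c hc1]
      have : c.length = r := by omega
      rw [this]
      exact hf.alt
    · rw [h0 _ (by rw [lev_append, lev_cons_false]; omega), mul_zero]
      simpa using hGH
  · intro b1 b2 c b3 he he2 hc
    have h2 := congrArg lev he2
    rw [lev_append, lev_cons_false, lev_cons_true] at h2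
    rw [he, lev_append, lev_cons_true] at hb
    rw [h0 _ (by rw [lev_append, lev_cons_false]; omega), mul_zero]
    simpa using hGH

end

end Pool.Agent.H44DM
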