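import Mathlib
import Pool.Agent.H44DM.Step

/-!
# The action of `S_f` on coefficients at Hoffman words, arbitrary weight

The analogue of `core` of `Step.lean` for homogeneous `f` of arbitrary weight `v + 1`.
-/

set_option autoImplicit false

namespace Pool.Agent.H44DM

open Pool.Agent.H4DM

noncomputable section

/-- The contribution of the removal of a prefix to the coefficient of `hw b` in `S_f(h)`. -/
def preW (f h : NC (Fin 2)) (w : ℕ) (b : List Bool) : ℚ :=
  ∑ i ∈ Finset.range (b.length + 1),
    if (hw (b.take i)).length = w then cf f (hw (b.take i)) * cf h (hw (b.drop i)) else 0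

/-! ### The main decomposition -/

section core
variable {f : NC (Fin 2)} {v : ℕ}

/-- The recursion over one block. -/
theorem T_consW (hf : Hg wX (v + 1) f) (h : NC (Fin 2)) (b1 b2 : List Bool) (x : Bool) :
    Sc f h (hw b1) (hw (x :: b2)) = Sc f h (hw (b1 ++ [x])) (hw b2)
      + pl f h (v + 1) (hw (b1 ++ [x])) (hw b2)
      - mi f h (v + 1) (hw b1) (hw (x :: b2))
      - mi f h (v + 1) (hw (b1 ++ [x])).dropLast (1 :: hw b2)
      - (if x = true then mi f h (v + 1) (hw b1 ++ [0]) (hw (false :: b2)) else 0) := by
  cases x with
  | false =>
    have e1 : hw (b1 ++ [false]) = hw b1 ++ [0] ++ [1] := by rw [hw_append]; simp [hw]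
    have e2 : (hw (b1 ++ [false])).dropLast = hw b1 ++ [0] := by rw [e1, List.dropLast_concat]
    rw [e2, e1]
    simp only [hw, Bool.false_eq_true, if_false, sub_zero]
    rw [Sc_cons hf, Sc_cons hf]
    simp only [Fin.isValue, zero_ne_one, if_false, if_true, add_zero]
    ring
  | true =>
    have e1 : hw (b1 ++ [true]) = hw b1 ++ [0] ++ [0] ++ [1] := by rw [hw_append]; simp [hw]
    have e2 : (hw (b1 ++ [true])).dropLast = hw b1 ++ [0] ++ [0] := by
      rw [e1, List.dropLast_concat]
    rw [e2, e1]
    simp only [hw, if_true]
    rw [Sc_cons hf, Sc_cons hf, Sc_cons hf]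
    simp only [Fin.isValue, zero_ne_one, if_false, if_true, add_zero]
    ring

/-- The sum rule. -/
theorem coreW (hf : Hg wX (v + 1) f) (hl : f ∈ Lie01) (h : NC (Fin 2))
    (Sm : ℚ → Prop) (sm0 : Sm 0) (sma : ∀ x y, Sm x → Sm y → Sm (x + y))
    (sms : ∀ x y, Sm x → Sm y → Sm (x - y)) (b : List Bool)
    (K1 : ∀ b1 c b3, b = b1 ++ c ++ b3 → (hw c).length = v + 1 →
      Sm ((cf f (hw c) - (-1) ^ v * cf f (hw c.reverse)) * cf h (hw (b1 ++ b3))))
    (K2 : ∀ b1 c b3, b = b1 ++ c ++ true :: b3 → (hw c).length = v →
      Sm (cf f (hw c ++ [0]) * cf h (hw (b1 ++ false :: b3))))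
    (K3 : ∀ b1 b2 c b3, b = b1 ++ true :: b2 → false :: b2 = c ++ false :: b3 →
      (hw c).length = v → Sm (cf f (hw c ++ [0]) * cf h (hw (b1 ++ false :: b3))))
    (K4 : ∀ b1 b2 c b3, b = b1 ++ true :: b2 → false :: b2 = c ++ true :: b3 →
      (hw c).length + 2 = v + 1 →
      Sm (cf f (hw c ++ [0, 0]) * cf h (hw (b1 ++ false :: b3)))) :
    Sm (cf (sOp f h) (hw b) - preW f h (v + 1) b) := by
  have hrev : ∀ l : List (Fin 2), l.length = v + 1 → (-1) ^ v * cf f l.reverse = cf f l := by
    intro l hl'
    rw [cf_reverse hl, hl', ← mul_assoc]
    have : (-1 : ℚ) ^ v * (-1 : ℚ) ^ (v + 1 + 1) = 1 := by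
      rw [← pow_add, show v + (v + 1 + 1) = 2 * (v + 1) by ring, pow_mul]; norm_num
    rw [this, one_mul]
  -- the middle term
  have M2 : ∀ b1 b2, b = b1 ++ true :: b2 →
      Sm (mi f h (v + 1) (hw b1 ++ [0]) (hw (false :: b2))) := by
    intro b1 b2 hb
    by_cases hlen : v + 1 ≤ (hw (false :: b2)).length
    · rcases hw_cut (false :: b2) (v + 1) hlen with ⟨c, d, h1, h2, h3⟩ | ⟨c, d, h1, h2, h3⟩ |
        ⟨c, d, h1, h2, h3⟩ | ⟨c, d, h1, h2, h3⟩
      · rw [mi, h3, if_neg (hw_head_ne d)]; exact sm0
      · rw [mi, h3, h2, if_pos (by simp)]
        have hc : (hw c).length = v := by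
          have := congrArg List.length h2
          rw [List.length_take, List.length_append] at this
          simp only [List.length_cons, List.length_nil] at this
          omega
        have := K3 b1 b2 c d hb h1 hc
        rw [hw_append] at this
        simpa [hw] using this
      · rw [mi, h3, if_neg (by simp)]; exact sm0
      · rw [mi, h3, h2, if_pos (by simp)]
        have hc : (hw c).length + 2 = v + 1 := by
          have := congrArg List.length h2
          rw [List.length_take, List.length_append] at this
          simp only [List.length_cons, List.length_nil] at this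
          omega
        have := K4 b1 b2 c d hb h1 hc
        rw [hw_append] at this
        simpa [hw] using this
    · rw [mi, List.drop_eq_nil_of_le (by omega), if_neg (by simp)]; exact sm0
  -- the boundary terms
  have P1 : ∀ b1 b2, b = b1 ++ b2 → b1 ≠ [] →
      Sm (pl f h (v + 1) (hw b1) (hw b2) - mi f h (v + 1) (hw b1) (hw b2)
        - mi f h (v + 1) (hw b1).dropLast (1 :: hw b2)) := by
    intro b1 b2 hb hne
    have hdl : (hw b1).dropLast ++ [1] = hw b1 := by
      obtain ⟨b1', x, rfl⟩ : ∃ b1' x, b1 = b1' ++ [x] :=
        ⟨b1.dropLast, b1.getLast hne, (List.dropLast_append_getLast hne).symm⟩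
      obtain ⟨u, hu⟩ := hw_dropLast_append x b1'
      rw [hu, List.dropLast_concat]
    have hmi : mi f h (v + 1) (hw b1).dropLast (1 :: hw b2) =
        if ((hw b2).drop (v)).head? = some 1 then
          cf f (1 :: (hw b2).take (v)) * cf h ((hw b1).dropLast ++ (hw b2).drop (v))
        else 0 := rfl
    by_cases hlen : v ≤ (hw b2).length
    · have htk : (hw b2).take (v + 1) = (hw b2).take (v) ++ ((hw b2).drop (v)).take 1 := by
        rw [List.take_add]
      have hdr : (hw b2).drop (v + 1) = ((hw b2).drop (v)).drop 1 := by
        rw [List.drop_drop]
      have hlt : ((hw b2).take (v)).length = v := by rw [List.length_take]; omega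
      rcases hw_cut b2 (v) hlen with ⟨c, d, h1, h2, h3⟩ | ⟨c, d, h1, h2, h3⟩ |
        ⟨c, d, h1, h2, h3⟩ | ⟨c, d, h1, h2, h3⟩
      · rw [hmi, h3, if_neg (hw_head_ne d), sub_zero]
        rcases d with _ | ⟨x, d⟩
        · have hl2 : (hw b2).length = v := by
            have := List.take_append_drop (v) (hw b2)
            rw [h3] at this
            rw [← this]
            simp [hw, hlt]
          rw [pl, if_neg (by omega), mi, List.drop_eq_nil_of_le (by omega), if_neg (by simp)]
          simpa using sm0
        · cases x with
          | false =>
            rw [pl, mi, hdr, htk, h3]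
            have hlen2 : v + 1 ≤ (hw b2).length := by
              have := congrArg List.length h3
              rw [List.length_drop] at this
              simp only [hw, List.length_cons] at this
              omega
            rw [if_pos hlen2]
            simp only [hw, List.drop_succ_cons, List.drop_zero, List.head?_cons, if_true, sub_self]
            exact sm0
          | true =>
            have hlen2 : v + 1 ≤ (hw b2).length := by
              have := congrArg List.length h3
              rw [List.length_drop] at this
              simp only [hw, List.length_cons] at this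
              omega
            rw [pl, mi, hdr, htk, h3, h2, if_pos hlen2]
            have hc : (hw c).length = v := by rw [← h2]; exact hlt
            have := K2 b1 c d (by rw [hb, h1, List.append_assoc]) hc
            rw [hw_append] at this
            simp only [hw, List.drop_succ_cons, List.drop_zero, List.head?_cons,
              List.take_succ_cons, List.take_zero, Fin.isValue, Option.some.injEq, zero_ne_one,
              if_false, sub_zero] at this ⊢
            exact this
      · -- cut before the last letter of a short block
        have hhd : hw (c ++ [false]) = hw c ++ [0] ++ [1] := by rw [hw_append]; simp [hw]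
        have hlen2 : v + 1 ≤ (hw b2).length := by
          have := congrArg List.length h3
          rw [List.length_drop] at this
          simp only [List.length_cons] at this
          omega
        have hc : (hw (c ++ [false])).length = v + 1 := by
          rw [hhd, List.length_append, ← h2, hlt]; rfl
        have hr1 : cf f (1 :: (hw c ++ [0])) = (-1) ^ v * cf f (hw (c ++ [false]).reverse) := by
          rw [← hrev _ (by rw [List.length_cons, ← h2, hlt])]
          congr 1
          rw [List.reverse_cons, List.reverse_append, List.append_assoc, hw_reverse,
            List.reverse_append]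
          simp [hw]
        have := K1 b1 (c ++ [false]) d (by rw [hb, h1]; simp) hc
        rw [hmi, pl, mi, hdr, htk, h3, h2, if_pos hlen2]
        simp only [List.drop_succ_cons, List.drop_zero, List.head?_cons, List.take_succ_cons,
          List.take_zero, if_true]
        rw [if_neg (hw_head_ne d), sub_zero, hr1, ← hhd]
        have e : (hw b1).dropLast ++ 1 :: hw d = hw (b1 ++ d) := by
          rw [hw_append]
          conv_rhs => rw [← hdl]
          simp
        rw [e, ← hw_append, ← sub_mul]
        exact this
      · rw [hmi, h3, if_neg (by simp), sub_zero]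
        have hlen2 : v + 1 ≤ (hw b2).length := by
          have := congrArg List.length h3
          rw [List.length_drop] at this
          simp only [List.length_cons] at this
          omega
        rw [pl, mi, hdr, htk, h3, if_pos hlen2]
        simp only [List.drop_succ_cons, List.drop_zero, List.head?_cons, if_true, sub_self]
        exact sm0
      · have hhd : hw (c ++ [true]) = hw c ++ [0, 0] ++ [1] := by rw [hw_append]; simp [hw]
        have hlen2 : v + 1 ≤ (hw b2).length := by
          have := congrArg List.length h3
          rw [List.length_drop] at this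
          simp only [List.length_cons] at this
          omega
        have hc : (hw (c ++ [true])).length = v + 1 := by
          rw [hhd, List.length_append, ← h2, hlt]; rfl
        have hr1 : cf f (1 :: (hw c ++ [0, 0])) = (-1) ^ v * cf f (hw (c ++ [true]).reverse) := by
          rw [← hrev _ (by rw [List.length_cons, ← h2, hlt])]
          congr 1
          rw [List.reverse_cons, List.reverse_append, List.append_assoc, hw_reverse,
            List.reverse_append]
          simp [hw]
        have := K1 b1 (c ++ [true]) d (by rw [hb, h1]; simp) hc
        rw [hmi, pl, mi, hdr, htk, h3, h2, if_pos hlen2]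
        simp only [List.drop_succ_cons, List.drop_zero, List.head?_cons, List.take_succ_cons,
          List.take_zero, if_true]
        rw [if_neg (hw_head_ne d), sub_zero, hr1, ← hhd]
        have e : (hw b1).dropLast ++ 1 :: hw d = hw (b1 ++ d) := by
          rw [hw_append]
          conv_rhs => rw [← hdl]
          simp
        rw [e, ← hw_append, ← sub_mul]
        exact this
    · rw [hmi, pl, mi, if_neg (by omega), List.drop_eq_nil_of_le (by omega),
        List.drop_eq_nil_of_le (by omega), if_neg (by simp), if_neg (by simp)]
      simpa using sm0
  -- the tail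
  have TT : ∀ b2 b1, b = b1 ++ b2 → b1 ≠ [] →
      Sm (Sc f h (hw b1) (hw b2) + pl f h (v + 1) (hw b1) (hw b2)
        - mi f h (v + 1) (hw b1).dropLast (1 :: hw b2)) := by
    intro b2
    induction b2 with
    | nil =>
      intro b1 hb hne
      have h1 : Sc f h (hw b1) (hw []) = 0 := Sc_nil (cf_lie_nil hl) h _
      have h2 : pl f h (v + 1) (hw b1) (hw []) = 0 := by
        rw [pl, if_neg (by simp [hw])]
      have h3 : mi f h (v + 1) (hw b1).dropLast (1 :: hw []) = 0 := by
        rw [mi, if_neg (by
          rw [List.drop_eq_nil_of_le (by simp [hw])]
          simp)]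
      rw [h1, h2, h3]
      simpa using sm0
    | cons x b2 ih =>
      intro b1 hb hne
      have ih' := ih (b1 ++ [x]) (by rw [hb]; simp) (by simp)
      have hp := P1 b1 (x :: b2) hb hne
      rw [T_consW hf]
      cases x with
      | false =>
        have := sma _ _ hp ih'
        simp only [Bool.false_eq_true, if_false, sub_zero]
        convert this using 1
        ring
      | true =>
        have := sms _ _ (sma _ _ hp ih') (M2 b1 b2 hb)
        simp only [if_true]
        convert this using 1
        ring
  -- the first boundary
  have P0 : Sm (pl f h (v + 1) [] (hw b) - mi f h (v + 1) [] (hw b) - preW f h (v + 1) b) := by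
    have hmono : ∀ i j, i < j → j ≤ b.length → (hw (b.take i)).length < (hw (b.take j)).length := by
      intro i j hij hj
      have e : b.take j = b.take i ++ (b.drop i).take (j - i) := by
        rw [← List.take_add]; congr 1; omega
      rw [e, hw_append, List.length_append, hw_length ((b.drop i).take (j - i)),
        List.length_take, List.length_drop]
      have : min (j - i) (b.length - i) = j - i := by omega
      rw [this]
      omega
    by_cases hex : ∃ i, i ≤ b.length ∧ (hw (b.take i)).length = v + 1
    · obtain ⟨i, hi, hi2⟩ := hex
      have hpre : preW f h (v + 1) b = cf f (hw (b.take i)) * cf h (hw (b.drop i)) := by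
        rw [preW, Finset.sum_eq_single i]
        · rw [if_pos hi2]
        · intro j hj hji
          rw [if_neg]
          intro hc
          rw [Finset.mem_range] at hj
          rcases lt_or_gt_of_ne hji with hlt | hlt
          · have := hmono j i hlt hi
            omega
          · have := hmono i j hlt (by omega)
            omega
        · intro hni
          exact absurd (Finset.mem_range.2 (by omega)) hni
      have e : hw b = hw (b.take i) ++ hw (b.drop i) := by
        rw [← hw_append, List.take_append_drop]
      have e1 : (hw b).take (v + 1) = hw (b.take i) := by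
        rw [e, ← hi2, List.take_left]
      have e2 : (hw b).drop (v + 1) = hw (b.drop i) := by
        rw [e, ← hi2, List.drop_left]
      have e3 : v + 1 ≤ (hw b).length := by
        rw [e, List.length_append, hi2]; omega
      rw [pl, mi, e1, e2, if_pos e3, if_neg (hw_head_ne _), hpre]
      simpa using sm0
    · have hpre : preW f h (v + 1) b = 0 := by
        rw [preW]
        apply Finset.sum_eq_zero
        intro j hj
        rw [Finset.mem_range] at hj
        rw [if_neg (fun hc => hex ⟨j, by omega, hc⟩)]
      rw [hpre, sub_zero]
      by_cases hlen : v + 1 ≤ (hw b).length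
      · rcases hw_cut b (v + 1) hlen with ⟨c, d, h1, h2, h3⟩ | ⟨c, d, h1, h2, h3⟩ |
          ⟨c, d, h1, h2, h3⟩ | ⟨c, d, h1, h2, h3⟩
        · exfalso
          apply hex
          refine ⟨c.length, by rw [h1, List.length_append]; omega, ?_⟩
          have : b.take c.length = c := by rw [h1, List.take_left]
          rw [this, ← h2, List.length_take]
          omega
        · rw [pl, mi, h3, if_pos hlen, if_pos (by simp), sub_self]; exact sm0
        · rw [pl, mi, h3, if_pos hlen, if_neg (by simp), sub_zero, h2]
          have hc : (hw c).length = v := by
            have := congrArg List.length h2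
            rw [List.length_take, List.length_append] at this
            simp only [List.length_cons, List.length_nil] at this
            omega
          have := K2 [] c d (by rw [h1]; rfl) hc
          simpa [hw] using this
        · rw [pl, mi, h3, if_pos hlen, if_pos (by simp), sub_self]; exact sm0
      · rw [pl, mi, if_neg hlen, List.drop_eq_nil_of_le (by omega), if_neg (by simp)]
        simpa using sm0
  rw [cf_sOp hf]
  rcases hb : b with _ | ⟨x, b2⟩
  · have h1 : Sc f h [] (hw []) = 0 := Sc_nil (cf_lie_nil hl) h _
    have h2 : pl f h (v + 1) [] (hw []) = 0 := by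
      rw [pl, if_neg (by simp [hw])]
    have h3 : mi f h (v + 1) [] (hw []) = 0 := by
      rw [mi, if_neg (by
        rw [List.drop_eq_nil_of_le (by simp [hw])]
        simp)]
    rw [hb, h2, h3] at P0
    rw [h1, h2]
    simpa using P0
  · have h1 := T_consW hf h [] b2 x
    have h2 := TT b2 [x] (by rw [hb]; rfl) (by simp)
    rw [hb] at P0
    have e : hw [] = ([] : List (Fin 2)) := rfl
    rw [e, List.nil_append] at h1
    rw [h1]
    cases x with
    | false =>
      have := sma _ _ P0 h2
      simp only [Bool.false_eq_true, if_false, sub_zero]
      convert this using 1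
      ring
    | true =>
      have := sms _ _ (sma _ _ P0 h2) (M2 [] b2 (by rw [hb]; rfl))
      simp only [if_true]
      convert this using 1
      rw [e]
      ring

end core


end

end Pool.Agent.H44DM
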