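import Mathlib
import Pool.Agent.H44DM.Defs

/-!
# The 2-adic estimates (module VALU)

`f ∈ Lie01` homogeneous of weight `2r+1` (`r ≥ 1`) with level-one coefficients
`cf f (2^a 3 2^b) = 2 (-1)^r (C(2r,2b+2) - (1 - 2^{-2r}) C(2r,2a+1)) c`, `c ≠ 0`.  Then `LevelOne`.

PROOF SKETCH.  Let `G = padicNorm 2 (cf f (hw (hb (r-1) 0)))`.
 * `b = 0`: the bracket is `r(2r-1) - 2r + 2r 2^{-2r}`, so `z = 2r (-1)^r (2r - 3 + 2^{1-2r}) c` has
   norm `|r| 2^{2r-2} |c|` (ultrametric, `|2^{1-2r}| = 2^{2r-1} > |2r-3|`).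
 * general: `|2^{1-2r} C(2r,2a+1)| ≤ |r| 2^{2r-2}` because `(2a+1) C(2r,2a+1) = 2r C(2r-1,2a)`, and
   `|2 C(..)| ≤ 1/2 ≤ |r| 2^{2r-2}` (as `|r| ≥ 1/r` and `r ≤ 2^{2r-2}·2`).
 * `|c| ≤ G`; `z(a,b) - z(b,a) = 2 (-1)^r (C(2r,2b+2) - C(2r,2a+2)) c` since
   `C(2r,2a+1) = C(2r,2b+1)` for `a+b+1 = r`.
 * `alt`: `d0 f = 0` (H4DMLie `d0_eq_zero`) at the word `hw (false^r)`: inserting one `0` in all
   positions gives `cf f ((01)^r 0) + 2 ∑_{a+b+1=r} z(a,b) = 0`, and
   `∑ z(a,b) = -(-1)^r c` (`∑_b C(2r,2b+2) = 2^{2r-1} - 1`, `∑_a C(2r,2a+1) = 2^{2r-1}`), so the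
   coefficient is `2 (-1)^r c`.
-/

set_option autoImplicit false

namespace Pool.Agent.H44DM

open Pool.Agent.H4DM

noncomputable section

/-! ### insertion of the letter `0` -/

/-- `lq1` and `d0`. -/
theorem valu_lq1_d0 (a : Fin 2) (p : NC (Fin 2)) :
    lq1 a (d0 p) = lq1 a (lq1 0 p) + d0 (lq1 a p) := by
  induction p using nc_induction with
  | hw l =>
    rcases l with _ | ⟨b, t⟩
    · rw [lq1_nil, lq1_nil, wd_nil, d0_one]; simp
    · have hc : cf (wd [b]) [] = 0 := by rw [cf_wd, if_neg (by simp)]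
      rw [d0_wd_cons, map_add, lq1_mul, hc, zero_smul, add_zero, lq1_wd_cons a b [],
        lq1_wd_cons 0 b t, lq1_wd_cons a b t]
      by_cases hb : b = a
      · rw [if_pos hb, if_pos hb, wd_nil, one_mul]
      · rw [if_neg hb, if_neg hb, zero_mul, map_zero]
  | zero => simp
  | add x y hx hy => rw [map_add, map_add, hx, hy, map_add, map_add, map_add, map_add]; abel
  | smul c x hx =>
    rw [map_smul, map_smul, hx, map_smul, map_smul, map_smul, map_smul, smul_add]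

theorem valu_cf_d0_cons (p : NC (Fin 2)) (a : Fin 2) (u : List (Fin 2)) :
    cf (d0 p) (a :: u) = cf p (0 :: a :: u) + cf (d0 (lq1 a p)) u := by
  rw [← cf_lq1, valu_lq1_d0, cf_add, cf_lq1, cf_lq1]

theorem valu_hb_succ (a b : ℕ) : hb (a + 1) b = false :: hb a b := by
  simp [hb, List.replicate_succ]

theorem valu_hb_zero (b : ℕ) : hb 0 b = true :: List.replicate b false := by
  simp [hb]

/-- The coefficients of `d0 p` at the words `(01)^r`. -/
theorem valu_cf_d0_hw (r : ℕ) : ∀ p : NC (Fin 2),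
    cf (d0 p) (hw (List.replicate r false)) =
      2 * ∑ a ∈ Finset.range r, cf p (hw (hb a (r - 1 - a))) +
        cf p (hw (List.replicate r false) ++ [0]) := by
  induction r with
  | zero =>
    intro p
    simp [hw, cf_d0_nil]
  | succ r ih =>
    intro p
    have h1 : hw (List.replicate (r + 1) false) = 0 :: 1 :: hw (List.replicate r false) := by
      rw [List.replicate_succ]; rfl
    rw [h1, valu_cf_d0_cons, valu_cf_d0_cons, cf_lq1, ih, Finset.sum_range_succ']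
    have h2 : ∀ a ∈ Finset.range r, cf (lq1 1 (lq1 0 p)) (hw (hb a (r - 1 - a))) =
        cf p (hw (hb (a + 1) (r + 1 - 1 - (a + 1)))) := by
      intro a ha
      rw [Finset.mem_range] at ha
      rw [cf_lq1, cf_lq1, valu_hb_succ]
      have h3 : r + 1 - 1 - (a + 1) = r - 1 - a := by omega
      rw [h3]
      rfl
    rw [Finset.sum_congr rfl h2, cf_lq1, cf_lq1]
    have h4 : cf p (hw (hb 0 (r + 1 - 1 - 0))) = cf p (0 :: 0 :: 1 :: hw (List.replicate r false)) := by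
      rw [valu_hb_zero]
      rfl
    rw [h4]
    simp only [List.cons_append]
    ring

/-! ### sums of binomial coefficients -/

theorem valu_sum_parity (F : ℕ → ℚ) (r : ℕ) :
    ∑ m ∈ Finset.range (2 * r), F m = ∑ j ∈ Finset.range r, (F (2 * j) + F (2 * j + 1)) := by
  induction r with
  | zero => simp
  | succ r ih =>
    rw [show 2 * (r + 1) = 2 * r + 1 + 1 by ring, Finset.sum_range_succ, Finset.sum_range_succ, ih,
      Finset.sum_range_succ]
    ring

theorem valu_sums (r : ℕ) (hr : 1 ≤ r) :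
    ∑ j ∈ Finset.range r, (Nat.choose (2 * r) (2 * j + 1) : ℚ) = 2 ^ (2 * r) / 2 ∧
    ∑ j ∈ Finset.range r, (Nat.choose (2 * r) (2 * j + 2) : ℚ) = 2 ^ (2 * r) / 2 - 1 := by
  have hE : ∑ m ∈ Finset.range (2 * r + 1), (Nat.choose (2 * r) m : ℚ) = 2 ^ (2 * r) := by
    exact_mod_cast Nat.sum_range_choose (2 * r)
  have hA : ∑ m ∈ Finset.range (2 * r + 1), ((-1) ^ m * (Nat.choose (2 * r) m : ℚ)) = 0 := by
    have := Int.alternating_sum_range_choose_of_ne (n := 2 * r) (by omega)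
    exact_mod_cast this
  rw [Finset.sum_range_succ, valu_sum_parity, Finset.sum_add_distrib, Nat.choose_self,
    Nat.cast_one] at hE
  rw [Finset.sum_range_succ, valu_sum_parity, Finset.sum_add_distrib, Nat.choose_self,
    Nat.cast_one] at hA
  have e1 : ∀ j : ℕ, (-1 : ℚ) ^ (2 * j) = 1 := fun j => by rw [pow_mul]; norm_num
  have e2 : ∀ j : ℕ, (-1 : ℚ) ^ (2 * j + 1) = -1 := fun j => by rw [pow_succ, e1]; norm_num
  simp only [e1, e2, one_mul, mul_one, neg_one_mul, Finset.sum_neg_distrib] at hA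
  have hS : ∑ j ∈ Finset.range r, (Nat.choose (2 * r) (2 * j + 2) : ℚ) =
      ∑ j ∈ Finset.range r, (Nat.choose (2 * r) (2 * j) : ℚ) := by
    have h1 := Finset.sum_range_succ (fun j => (Nat.choose (2 * r) (2 * j) : ℚ)) r
    have h2 := Finset.sum_range_succ' (fun j => (Nat.choose (2 * r) (2 * j) : ℚ)) r
    rw [h1] at h2
    simp only [Nat.choose_self, Nat.cast_one, mul_zero, Nat.choose_zero_right] at h2
    have h3 : ∀ j, 2 * (j + 1) = 2 * j + 2 := fun j => by ring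
    simp only [h3] at h2
    linarith
  constructor
  · linarith
  · rw [hS]; linarith

/-! ### 2-adic norms -/

theorem valu_norm_nat (m : ℕ) : padicNorm 2 (m : ℚ) ≤ 1 := by
  exact_mod_cast padicNorm.of_int (p := 2) (m : ℤ)

theorem valu_norm_odd (m : ℕ) : padicNorm 2 ((2 * m + 1 : ℕ) : ℚ) = 1 := by
  have h := (padicNorm.int_eq_one_iff (p := 2) ((2 * m + 1 : ℕ) : ℤ)).mpr (by
    intro h
    have := Int.natCast_dvd_natCast.mp h
    omega)
  exact_mod_cast h

theorem valu_norm_two : padicNorm 2 (2 : ℚ) = 1 / 2 := by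
  have := padicNorm.padicNorm_p (p := 2) (by norm_num)
  simpa using this

theorem valu_norm_pow (m : ℕ) (x : ℚ) : padicNorm 2 (x ^ m) = padicNorm 2 x ^ m := by
  induction m with
  | zero => simp
  | succ m ih => rw [pow_succ, padicNorm.mul, ih, pow_succ]

theorem valu_norm_negone (m : ℕ) : padicNorm 2 ((-1 : ℚ) ^ m) = 1 := by
  rw [valu_norm_pow, padicNorm.neg, padicNorm.one, one_pow]

/-- `1 ≤ |r| 2^(2r-2)`. -/
theorem valu_key (r : ℕ) (hr : 1 ≤ r) : 1 ≤ padicNorm 2 (r : ℚ) * 2 ^ (2 * r - 2) := by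
  have h0 : (r : ℚ) ≠ 0 := by
    have : r ≠ 0 := by omega
    exact_mod_cast this
  -- `|r| = 2^(-v)` with `2^v ∣ r`
  have h1 : padicNorm 2 (r : ℚ) = ((2 : ℚ) ^ (padicValNat 2 r))⁻¹ := by
    rw [padicNorm.eq_zpow_of_nonzero h0, padicValRat.of_nat, zpow_neg, zpow_natCast]
    norm_num
  have h2 : 2 ^ (padicValNat 2 r) ≤ r :=
    Nat.le_of_dvd (by omega) pow_padicValNat_dvd
  have h3 : padicValNat 2 r ≤ 2 * r - 2 := by
    rcases Nat.lt_or_ge r 2 with h | h
    · have : r = 1 := by omega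
      subst this
      simp
    · have h4 : padicValNat 2 r < r :=
        lt_of_lt_of_le (Nat.lt_two_pow_self) h2
      omega
  rw [h1, ← div_eq_inv_mul, le_div_iff₀ (by positivity), one_mul]
  exact pow_le_pow_right₀ (by norm_num) h3

/-- `|C(2r, 2a+1)| ≤ |2r|`. -/
theorem valu_choose (r a : ℕ) (hr : 1 ≤ r) :
    padicNorm 2 (Nat.choose (2 * r) (2 * a + 1) : ℚ) ≤ padicNorm 2 (r : ℚ) * (1 / 2) := by
  have h := Nat.add_one_mul_choose_eq (2 * r - 1) (2 * a)
  rw [show 2 * r - 1 + 1 = 2 * r by omega] at h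
  have h2 : ((2 * a + 1 : ℕ) : ℚ) * (Nat.choose (2 * r) (2 * a + 1) : ℚ) =
      2 * r * (Nat.choose (2 * r - 1) (2 * a) : ℚ) := by
    rw [mul_comm]
    have h3 : ((2 * r * Nat.choose (2 * r - 1) (2 * a) : ℕ) : ℚ) =
      ((Nat.choose (2 * r) (2 * a + 1) * (2 * a + 1) : ℕ) : ℚ) := by rw [h]
    push_cast at h3 ⊢
    linarith
  have h3 := congrArg (padicNorm 2) h2
  rw [padicNorm.mul, valu_norm_odd, one_mul, padicNorm.mul, padicNorm.mul, valu_norm_two] at h3
  rw [h3]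
  have h4 := valu_norm_nat (Nat.choose (2 * r - 1) (2 * a))
  have h5 : 0 ≤ padicNorm 2 (r : ℚ) := padicNorm.nonneg _
  nlinarith

theorem levelOne_of_coeff {f : NC (Fin 2)} {r : ℕ} {c : ℚ} (hf : f ∈ Lie01) (h0 : cf f [0] = 0)
    (hr : 1 ≤ r) (hom : Hg wX (2 * r + 1) f) (hc : c ≠ 0)
    (hz : ∀ a b, a + b + 1 = r → cf f (hw (hb a b)) =
      2 * (-1) ^ r * ((Nat.choose (2 * r) (2 * b + 2) : ℚ)
        - (1 - 1 / 2 ^ (2 * r)) * (Nat.choose (2 * r) (2 * a + 1) : ℚ)) * c) :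
    ∃ G, LevelOne f r G := by
  have hcn : 0 < padicNorm 2 c := lt_of_le_of_ne (padicNorm.nonneg _)
    (Ne.symm (padicNorm.nonzero hc))
  have hrn : 0 ≤ padicNorm 2 (r : ℚ) := padicNorm.nonneg _
  have hkey := valu_key r hr
  -- the value of `G`
  have hG : padicNorm 2 (cf f (hw (hb (r - 1) 0))) =
      padicNorm 2 (r : ℚ) * 2 ^ (2 * r - 2) * padicNorm 2 c := by
    rw [hz (r - 1) 0 (by omega)]
    have e1 : (Nat.choose (2 * r) (2 * 0 + 2) : ℚ) = r * (2 * r - 1) := by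
      have h := Nat.choose_two_right (2 * r)
      have h2 : 2 * Nat.choose (2 * r) 2 = 2 * r * (2 * r - 1) := by
        rw [h]
        exact Nat.mul_div_cancel' (Nat.even_mul_pred_self (2 * r)).two_dvd
      have h3 : (2 : ℚ) * (Nat.choose (2 * r) 2 : ℚ) = 2 * r * (2 * r - 1) := by
        have h4 : ((2 * Nat.choose (2 * r) 2 : ℕ) : ℚ) = ((2 * r * (2 * r - 1) : ℕ) : ℚ) := by rw [h2]
        rw [Nat.cast_mul, Nat.cast_mul, Nat.cast_mul, Nat.cast_sub (by omega)] at h4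
        push_cast at h4
        exact h4
      simp only [mul_zero, zero_add]
      linarith
    have e2 : (Nat.choose (2 * r) (2 * (r - 1) + 1) : ℚ) = 2 * r := by
      have h : 2 * (r - 1) + 1 = 2 * r - 1 := by omega
      rw [h, ← Nat.choose_symm (by omega : 2 * r - 1 ≤ 2 * r), show 2 * r - (2 * r - 1) = 1 by omega,
        Nat.choose_one_right]
      push_cast
      ring
    rw [e1, e2]
    have e3 : (2 : ℚ) * (-1) ^ r * (r * (2 * r - 1) - (1 - 1 / 2 ^ (2 * r)) * (2 * r)) * c =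
        2 * (-1) ^ r * r * (((2 * (r : ℤ) - 3 : ℤ) : ℚ) + 2 / 2 ^ (2 * r)) * c := by
      push_cast
      ring
    rw [e3]
    have e4 : padicNorm 2 ((2 : ℚ) / 2 ^ (2 * r)) = 2 ^ (2 * r - 1) := by
      rw [padicNorm.div, valu_norm_two, valu_norm_pow, valu_norm_two]
      have : (2 : ℚ) ^ (2 * r) = 2 * 2 ^ (2 * r - 1) := by
        rw [← pow_succ']
        congr 1
        omega
      rw [one_div_pow, this]
      field_simp
    have e5 : padicNorm 2 ((2 * (r : ℤ) - 3 : ℤ) : ℚ) ≤ 1 := padicNorm.of_int _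
    have e6 : (1 : ℚ) < 2 ^ (2 * r - 1) := one_lt_pow₀ (by norm_num) (by omega)
    have e7 : padicNorm 2 (((2 * (r : ℤ) - 3 : ℤ) : ℚ) + 2 / 2 ^ (2 * r)) = 2 ^ (2 * r - 1) := by
      rw [padicNorm.add_eq_max_of_ne, e4, max_eq_right (by linarith)]
      rw [e4]
      linarith
    rw [padicNorm.mul, padicNorm.mul, padicNorm.mul, padicNorm.mul, e7, valu_norm_negone,
      valu_norm_two]
    have e8 : (2 : ℚ) ^ (2 * r - 1) = 2 * 2 ^ (2 * r - 2) := by
      rw [← pow_succ']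
      congr 1
      omega
    rw [e8]
    ring
  have hGc : padicNorm 2 c ≤ padicNorm 2 (r : ℚ) * 2 ^ (2 * r - 2) * padicNorm 2 c := by
    nlinarith
  refine ⟨padicNorm 2 (cf f (hw (hb (r - 1) 0))), hf, hom, hr, ?_, ?_, ?_, ?_, rfl⟩
  · rw [hG]
    exact lt_of_lt_of_le hcn hGc
  · -- bound
    intro a b hab
    rw [hG, hz a b hab]
    have e1 : (2 : ℚ) * (-1) ^ r * ((Nat.choose (2 * r) (2 * b + 2) : ℚ)
        - (1 - 1 / 2 ^ (2 * r)) * (Nat.choose (2 * r) (2 * a + 1) : ℚ)) * c =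
        2 * (-1) ^ r * ((((Nat.choose (2 * r) (2 * b + 2) : ℤ) -
          (Nat.choose (2 * r) (2 * a + 1) : ℤ) : ℤ) : ℚ)
        + (Nat.choose (2 * r) (2 * a + 1) : ℚ) / 2 ^ (2 * r)) * c := by
      push_cast
      ring
    have e2 : padicNorm 2 ((((Nat.choose (2 * r) (2 * b + 2) : ℤ) -
          (Nat.choose (2 * r) (2 * a + 1) : ℤ) : ℤ) : ℚ)) ≤ 1 := padicNorm.of_int _
    have e3 : padicNorm 2 ((Nat.choose (2 * r) (2 * a + 1) : ℚ) / 2 ^ (2 * r)) ≤
        2 * (padicNorm 2 (r : ℚ) * 2 ^ (2 * r - 2)) := by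
      rw [padicNorm.div, valu_norm_pow, valu_norm_two, one_div_pow, div_eq_mul_inv, one_div, inv_inv]
      have h1 := valu_choose r a hr
      have h2 : (2 : ℚ) ^ (2 * r) = 4 * 2 ^ (2 * r - 2) := by
        rw [show (4 : ℚ) = 2 ^ 2 by norm_num, ← pow_add]
        congr 1
        omega
      rw [h2]
      have h3 : (0 : ℚ) < 2 ^ (2 * r - 2) := by positivity
      nlinarith
    have e4 : padicNorm 2 ((((Nat.choose (2 * r) (2 * b + 2) : ℤ) -
          (Nat.choose (2 * r) (2 * a + 1) : ℤ) : ℤ) : ℚ)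
        + (Nat.choose (2 * r) (2 * a + 1) : ℚ) / 2 ^ (2 * r)) ≤
        2 * (padicNorm 2 (r : ℚ) * 2 ^ (2 * r - 2)) := by
      refine padicNorm.nonarchimedean.trans (max_le ?_ e3)
      linarith
    rw [e1, padicNorm.mul, padicNorm.mul, padicNorm.mul, valu_norm_negone, valu_norm_two]
    nlinarith
  · -- rev
    intro a b hab
    rw [hG, hz a b hab, hz b a (by omega)]
    have hsym : Nat.choose (2 * r) (2 * b + 1) = Nat.choose (2 * r) (2 * a + 1) := by
      rw [← Nat.choose_symm (by omega : 2 * b + 1 ≤ 2 * r)]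
      congr 1
      omega
    rw [hsym]
    have e1 : (2 : ℚ) * (-1) ^ r * ((Nat.choose (2 * r) (2 * b + 2) : ℚ)
        - (1 - 1 / 2 ^ (2 * r)) * (Nat.choose (2 * r) (2 * a + 1) : ℚ)) * c -
        2 * (-1) ^ r * ((Nat.choose (2 * r) (2 * a + 2) : ℚ)
        - (1 - 1 / 2 ^ (2 * r)) * (Nat.choose (2 * r) (2 * a + 1) : ℚ)) * c =
        2 * (-1) ^ r * (((Nat.choose (2 * r) (2 * b + 2) : ℤ) -
          (Nat.choose (2 * r) (2 * a + 2) : ℤ) : ℤ) : ℚ) * c := by
      push_cast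
      ring
    have e2 : padicNorm 2 ((((Nat.choose (2 * r) (2 * b + 2) : ℤ) -
          (Nat.choose (2 * r) (2 * a + 2) : ℤ) : ℤ) : ℚ)) ≤ 1 := padicNorm.of_int _
    rw [e1, padicNorm.mul, padicNorm.mul, padicNorm.mul, valu_norm_negone, valu_norm_two]
    nlinarith
  · -- alt
    have h1 := valu_cf_d0_hw r f
    rw [d0_eq_zero hf h0, cf_zero] at h1
    have h2 : ∀ a ∈ Finset.range r, cf f (hw (hb a (r - 1 - a))) =
        2 * (-1) ^ r * ((Nat.choose (2 * r) (2 * (r - 1 - a) + 2) : ℚ)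
        - (1 - 1 / 2 ^ (2 * r)) * (Nat.choose (2 * r) (2 * a + 1) : ℚ)) * c := by
      intro a ha
      rw [Finset.mem_range] at ha
      exact hz a (r - 1 - a) (by omega)
    rw [Finset.sum_congr rfl h2, ← Finset.sum_mul, ← Finset.mul_sum, Finset.sum_sub_distrib,
      ← Finset.mul_sum,
      Finset.sum_range_reflect (fun b => (Nat.choose (2 * r) (2 * b + 2) : ℚ)) r] at h1
    obtain ⟨s1, s2⟩ := valu_sums r hr
    rw [s1, s2] at h1
    have h3 : cf f (hw (List.replicate r false) ++ [0]) = 2 * (-1) ^ r * c := by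
      have h4 : (2 : ℚ) ^ (2 * r) ≠ 0 := by positivity
      have h5 : (2 : ℚ) ^ (2 * r) / 2 - 1 - (1 - 1 / 2 ^ (2 * r)) * (2 ^ (2 * r) / 2) = -1 / 2 := by
        field_simp
        ring
      rw [h5] at h1
      linarith
    rw [h3, hG, padicNorm.mul, padicNorm.mul, valu_norm_negone, valu_norm_two]
    linarith

end

end Pool.Agent.H44DM
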