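import Mathlib
import Pool.Agent.H44DM.Coeff
import Pool.Agent.H44DM.Valu
import Pool.Agent.H44DM.StepW

/-!
# Elements of `dm` whose depth-one coefficients vanish

Depth-one coefficients of elements of `dm` vanish in even weight, and an element of `dm` without
depth-one coefficients raises the level by two.
-/

set_option autoImplicit false

open PowerSeries

namespace Pool.Agent.H44DM

open Pool.Agent.H4DM

noncomputable section

/-! ### Reversal -/

theorem yw_reverse (t : List ℕ+) : (yw t).reverse ++ [1] = 1 :: yw t.reverse := by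
  induction t with
  | nil => rfl
  | cons n t ih =>
    have h : (yw (n :: t)).reverse ++ [1] =
        ((yw t).reverse ++ [1]) ++ (List.replicate ((n : ℕ) - 1) 0 ++ [1]) := by
      rw [yw]; simp
    rw [h, ih, List.reverse_cons, yw_append]
    simp [yw]

theorem rev_word (t : List ℕ+) : (yw (1 :: t)).reverse = yw (1 :: t.reverse) := by
  have h : ∀ t, yw (1 :: t) = 1 :: yw t := by intro t; simp [yw]
  rw [h, h, List.reverse_cons, yw_reverse]

/-- The functional `f ↦ E(g₀; 0, s)(π_Y f)`. -/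
def revT (s : ℕ+ → ℚ) : NC (Fin 2) →ₗ[ℚ] ℚ := EE (ge 0) 0 s ∘ₗ piY

theorem ge_zero (k : ℕ+) (hk : k ≠ 1) : (ge 0 k : ℚ) = 0 := by
  have h1 : (k : ℕ) ≠ 1 := fun h => hk (PNat.coe_injective h)
  have := k.pos
  exact zero_pow (by omega)

theorem revT_yw (s : ℕ+ → ℚ) (t : List ℕ+) : revT s (wd (yw (1 :: t))) = (t.map s).prod := by
  have h1 := parse_unparse (1 :: t) 0
  rw [List.replicate_zero, List.append_nil] at h1
  rw [revT, LinearMap.comp_apply, piY_word, h1, if_pos rfl, EE_wd, Ew_cons]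
  simp [ge]

theorem revT_ne (s : ℕ+ → ℚ) (l : List (Fin 2)) (h : ∀ t, l ≠ yw (1 :: t)) :
    revT s (wd l) = 0 := by
  rw [revT, LinearMap.comp_apply, piY_word]
  split_ifs with h2
  · have h1 := unparse_parse l
    rw [h2, List.replicate_zero, List.append_nil] at h1
    rw [EE_wd]
    rcases hp : (parse l).1 with _ | ⟨k, t⟩
    · rfl
    · rw [Ew_cons, Pi.zero_apply, zero_mul, add_zero, ge_zero, zero_mul]
      intro hk
      rw [hp, hk] at h1
      exact h t h1.symm
  · rw [map_zero]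

theorem revT_reverse (s : ℕ+ → ℚ) (l : List (Fin 2)) :
    revT s (wd l.reverse) = revT s (wd l) := by
  by_cases h : ∃ t, l = yw (1 :: t)
  · obtain ⟨t, rfl⟩ := h
    rw [rev_word, revT_yw, revT_yw, List.map_reverse, List.prod_reverse]
  · push Not at h
    rw [revT_ne s l h, revT_ne]
    intro t ht
    apply h t.reverse
    rw [← rev_word, ← ht, List.reverse_reverse]

theorem rev_zero {f : NC (Fin 2)} (hf : f ∈ Lie01) {w : ℕ} (hom : Hg wX w f) (hw : Even w)
    (s : ℕ+ → ℚ) : EE (ge 0) 0 s (piY f) = 0 := by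
  have key : ∀ g : NC (Fin 2), revT s (revL (comp wX w g)) = revT s (comp wX w g) := by
    intro g
    induction g using nc_induction with
    | hw l =>
      rw [comp_wd]
      split_ifs with h
      · rw [revL, linw_wd, map_smul, revT_reverse]
        rw [wt_wX] at h
        rw [h, hw.neg_one_pow, one_smul]
      · simp
    | zero => simp
    | add p q hp hq => simp only [map_add, hp, hq]
    | smul c p hp => simp only [map_smul, hp]
  have h1 := key f
  rw [hom.comp_eq, revL_lie hf, map_neg] at h1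
  have h2 : revT s f = EE (ge 0) 0 s (piY f) := rfl
  rw [← h2]
  linarith

/-! ### Even weight -/

theorem corr_even {f : NC (Fin 2)} {m : ℕ} (hm : 2 ≤ m) (hf : Hg wX m f) :
    corr f = ((-1) ^ (m - 1) / m * cf f (List.replicate (m - 1) 0 ++ [1])) •
      wd (List.replicate m 1) := by
  have key : ∀ f : NC (Fin 2), corr (comp wX m f) =
      ((-1) ^ (m - 1) / m * cf f (List.replicate (m - 1) 0 ++ [1])) •
      wd (List.replicate m 1) := by
    intro f
    induction f using nc_induction with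
    | hw l =>
      rw [comp_wd, wt_wX, cf_wd]
      split_ifs with h1 h2 h2
      · rw [corr, linw_wd, h1, if_pos ⟨hm, by rw [h2]⟩]
        congr 1
        ring
      · rw [corr, linw_wd, h1, if_neg (by rintro ⟨_, h3⟩; exact h2 h3)]
        simp
      · exfalso; apply h1; rw [h2]; simp; omega
      · simp
    | zero => simp
    | add p q hp hq => rw [map_add, map_add, hp, hq, cf_add, mul_add, add_smul]
    | smul c p hp => rw [map_smul, map_smul, hp, cf_smul, smul_smul]; congr 1; ring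
  have := key f
  rwa [hf.comp_eq] at this

theorem HP_psiStar {f : NC (Fin 2)} (hf : IsDM f) {m : ℕ} (hom : Hg wX (m + 1) f) :
    HP (psiStar f) m.succPNat := by
  refine ⟨hf.2.2.2.2, ?_⟩
  rw [Nat.succPNat_coe]
  apply Hg_of_comp
  rw [← psiStar_comp, hom.comp_eq]

theorem cf_psiStar_letter {f : NC (Fin 2)} {m : ℕ} (hm : 1 ≤ m) (hom : Hg wX (m + 1) f) :
    cf (psiStar f) [m.succPNat] = cf f (List.replicate m 0 ++ [1]) := by
  rw [psiStar, corr_even (by omega) hom, cf_add, cf_piY_letter, cf_smul, cf_wd, if_neg, mul_zero,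
    add_zero]
  intro h
  have := congrArg List.length h
  simp at this
  omega

/-- The depth-one coefficients of elements of `dm` of even weight vanish. -/
theorem parity {f : NC (Fin 2)} (hf : IsDM f) {k : ℕ} (hk : 2 ≤ k) (hom : Hg wX (2 * k) f) :
    cf f (List.replicate (2 * k - 1) 0 ++ [1]) = 0 := by
  obtain ⟨m, hm⟩ : ∃ m, 2 * k = m + 1 := ⟨2 * k - 1, by omega⟩
  have hm1 : 1 ≤ m := by omega
  rw [hm] at hom
  rw [hm, Nat.add_sub_cancel]
  set c := cf f (List.replicate m 0 ++ [1]) with hc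
  have hP := HP_psiStar hf hom
  have hcw := cf_psiStar_letter hm1 hom
  rw [← hc] at hcw
  have hEven : Even (m + 1) := ⟨k, by omega⟩
  have hOdd : Odd m := by
    rcases Nat.even_or_odd m with h | h
    · exfalso
      exact Nat.not_even_iff_odd.mpr (h.add_one) hEven
    · exact h
  have hcorr : corr f = (-(c / (m + 1))) • wd (List.replicate (m + 1) 1) := by
    rw [corr_even (by omega) hom, Nat.add_sub_cancel, hOdd.neg_one_pow, ← hc]
    congr 1
    push_cast
    ring
  set κ : ℚ := c / (m + 1) with hκ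
  have hm0 : ((m : ℚ) + 1) ≠ 0 := by positivity
  have hcκ : c = κ * (m + 1) := by rw [hκ]; field_simp
  have hEP : ∀ G R S : ℚ⟦X⟧, EP G R S (psiStar f) = EE (sq G) (sq R) (sq S) (piY f)
      - κ * Ew (sq G) (sq R) (sq S) (List.replicate (m + 1) 1) := by
    intro G R S
    rw [EP, psiStar, hcorr, map_add, map_smul, EE_wd, smul_eq_mul]; ring
  -- the relation
  have h0 := Pool.Agent.H44DM.relB1b hf.1 1 (-1) (by norm_num)
  have d1 : (-1 : ℚ) - 1 = -2 := by norm_num
  have d2 : (1 : ℚ) + -1 = 0 := by norm_num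
  rw [d1, d2] at h0
  have r1 := hEP (gp (-1)) (1 + (-2 : ℚ) • gp (-1)) (1 + (-2 : ℚ) • gp (-1))
  have r2 := hEP (gp 0 - gp (-1)) (1 + (-2 : ℚ) • gp (-1)) 1
  have r3 := hEP (gp 0) 1 1
  rw [sq_tw, sq_gp, Ew_ones_diag _ _ _ rfl] at r1
  rw [sq_tw, sq_gp_sub, sq_one, Ew_ones_right _ _ _ rfl] at r2
  rw [sq_gp, sq_one, Ew_ones_left _ _ _ rfl] at r3
  simp only [Pi.sub_apply, ge_one, Pi.smul_apply, smul_eq_mul, mul_one, Pi.zero_apply] at r1 r2 r3
  rw [zero_pow (by omega)] at r3
  rw [hOdd.neg_pow] at r1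
  -- evaluation of the three terms
  have hQ : gp 1 * (1 + (-2 : ℚ) • gp (-1)) = gp (-1) := by
    rw [gp_tw _ (by norm_num)]
    have : (1 : ℚ) - -1 = 2 := by norm_num
    rw [this]
    match_scalars <;> norm_num
  have e1 : EP (gp (-1)) (1 + (-2 : ℚ) • gp (-1)) (1 + (-2 : ℚ) • gp (-1)) (psiStar f) = c := by
    rw [EP_diag hP (constCoeff_gp 1) (cc_tw _ _) hQ, coeff_gp, one_pow, one_mul, hcw]
  have e2 : EP (gp 0 - gp (-1)) (1 + (-2 : ℚ) • gp (-1)) 1 (psiStar f) =
      EP (gp 1) 1 (1 + (2 : ℚ) • gp 1) (psiStar f) - EP (gp 0) 1 (1 + (2 : ℚ) • gp 1) (psiStar f) := by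
    rw [← EP_sub]
    apply EP_tw (1 + (2 : ℚ) • gp 1) (by simp [constCoeff_gp]) (cc_tw _ _) (by simp) (cc_tw _ _)
      hP.prim
    · rw [sub_mul, gp_tw _ (by norm_num), gp_tw _ (by norm_num)]
      have t1 : (0 : ℚ) - 1 = -1 := by norm_num
      have t2 : (-1 : ℚ) - 1 = -2 := by norm_num
      rw [t1, t2]
      match_scalars <;> norm_num
    · rw [add_mul, one_mul, smul_mul_assoc, gp_tw _ (by norm_num)]
      have t2 : (-1 : ℚ) - 1 = -2 := by norm_num
      rw [t2]
      match_scalars <;> norm_num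
    · rw [one_mul]
  have e3 : EP (gp 0) 1 1 (psiStar f) = 0 := by
    rw [EP_one_one _ _ hP.hom, coeff_gp, Nat.succPNat_coe]
    rw [zero_pow (by omega), zero_mul]
  have e4 : EP (gp 1) 1 (1 + (2 : ℚ) • gp 1) (psiStar f) = 0 := by
    have h1 := EP_self ((2 : ℚ) • gp 1) (psiStar f) hP.prim.cf_nil
    rw [EP_smul, ev_tw 1 2 hP, Nat.succPNat_coe, one_pow, show (1 : ℚ) - 2 = -1 from by norm_num,
      hEven.neg_one_pow, sub_self, mul_zero] at h1
    linarith
  have e5 : EP (gp 0) 1 (1 + (2 : ℚ) • gp 1) (psiStar f) = -κ * 2 ^ m := by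
    rw [hEP, sq_gp, sq_one, sq_tw, rev_zero hf.1 hom hEven, Ew_ones_left _ _ _ rfl]
    simp only [ge_one, Pi.smul_apply, smul_eq_mul, mul_one]
    ring
  rw [e1] at r1
  rw [e2, e4, e5] at r2
  rw [e3] at r3
  have hfin : κ * ((m + 1) + 2 ^ m - (m + 1) * 2 ^ m) = 0 := by
    linear_combination r1 + r2 - r3 + h0 - hcκ
  have h2m : (m : ℚ) + 1 < m * 2 ^ m := by
    have h3 : 3 ≤ m := by omega
    have h4 : m + 1 ≤ 2 ^ m := Nat.lt_two_pow_self
    have h5 : (3 : ℚ) ≤ m := by exact_mod_cast h3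
    have h6 : ((m : ℚ) + 1) ≤ 2 ^ m := by exact_mod_cast h4
    nlinarith
  have hne : ((m : ℚ) + 1) + 2 ^ m - (m + 1) * 2 ^ m ≠ 0 := by
    intro h
    linarith
  have hκ0 : κ = 0 := (mul_eq_zero.mp hfin).resolve_right hne
  rw [hcκ, hκ0, zero_mul]

end

end Pool.Agent.H44DM
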