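import Mathlib
import Pool.Agent.H44DM.Step

/-!
# Freeness from the level-one estimates (module FREE)

PROOF SKETCH.  `evA ψ : NC ι →ₐ End (NC (Fin 2))` (H4DMFree) sends the letter `i` to
`sOp (ψ i).val`.  Write `E P := evA ψ P 1`.  Let `P : NC ι`, all of whose words have length `≥ l`
and some of length exactly `l`.  Claim, by induction on `l`: there is `N > 0` with
 (1) `lev b < l → cf (E P) (hw b) = 0`,
 (2) `lev b = l → padicNorm 2 (cf (E P) (hw b)) ≤ N`,
 (3) `∃ b, lev b = l ∧ padicNorm 2 (cf (E P) (hw b)) = N`.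
`l = 0`: `N = |cf P []|`, `b = []` (note `cf (E P) [] = cf P []`, and for `b = false^k`, `k > 0`,
the coefficient vanishes by `level_zero` applied to `∑ sOp (ψ i) (..)`, and `cf 1 (hw b) = 0`).
`l + 1`: `P = ∑_i wd [i] * lq1 i P`, `E P = ∑_i sOp (ψ i) (E (lq1 i P))` (finite sum over the first
letters of `P`; `nc_decomp`/`evA_decomp` are stated for `Fintype ι`, so either redo it for finite
support or restrict to the finite set of letters occurring in `P`).  Let `N_i` be the constants of the
`P_i = lq1 i P` having words of length exactly `l` (for the other `i` the term does not contribute at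
level `l + 1`, by `level_zero`).  Choose `i₀` with `G_i N_i` maximal, and among those `r_i` maximal,
`b'` with `|cf (E P_{i₀}) (hw b')| = N_{i₀}` and `b = hb (r_{i₀} - 1) 0 ++ b'`.  By `level_step` the
coefficient of `hw b` in `sOp (ψ i) (E P_i)` is `pre ..` up to an error of norm `≤ G_i N_i / 2`, and
 * `r_i = r_{i₀}` (so `i = i₀`): `pre = cf ψ (hw (hb (r-1) 0)) * cf (E P_i) (hw b')` has norm
   `G_i N_i = N`,
 * `r_i < r_{i₀}`: `pre = 0` (no prefix of `b` has length `2 r_i + 1`),
 * `r_i > r_{i₀}`: `|pre| ≤ G_i N_i < N`.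
So `N := G_{i₀} N_{i₀}` works.  Finally `E P ≠ 0` for `P ≠ 0`, and one concludes as in
`lift_injective` of H4DMFree.
-/

set_option autoImplicit false

namespace Pool.Agent.H44DM

open Pool.Agent.H4DM

noncomputable section

attribute [local instance] LieRing.ofAssociativeRing

variable {ι : Type}

/-! ### Decomposition by first letters, arbitrary alphabet -/

theorem decomp_fin (P : NC ι) : ∃ s : Finset ι, (∀ i, i ∉ s → lq1 i P = 0) ∧
    ∀ t : Finset ι, s ⊆ t → P = (cf P []) • (1 : NC ι) + ∑ i ∈ t, wd [i] * lq1 i P := by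
  classical
  induction P using nc_induction with
  | hw l =>
    rcases l with _ | ⟨a, u⟩
    · refine ⟨∅, fun i _ => lq1_nil i, fun t _ => ?_⟩
      simp only [lq1_nil, mul_zero, Finset.sum_const_zero, add_zero]
      rw [wd_nil, cf_one_nil, one_smul]
    · refine ⟨{a}, fun i hi => lq1_cons_ne (by
        rintro rfl; exact hi (Finset.mem_singleton_self _)) u, fun t ht => ?_⟩
      have ha : a ∈ t := ht (Finset.mem_singleton_self a)
      rw [Finset.sum_eq_single_of_mem a ha (fun i _ hi => by
        rw [lq1_cons_ne (Ne.symm hi), mul_zero]), lq1_cons_self, ← wd_cons, cf_wd,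
        if_neg (by simp), zero_smul, zero_add]
  | zero => exact ⟨∅, fun i _ => map_zero _, fun t _ => by simp⟩
  | add p q hp hq =>
    obtain ⟨s, h1, h2⟩ := hp
    obtain ⟨s', h1', h2'⟩ := hq
    refine ⟨s ∪ s', fun i hi => ?_, fun t ht => ?_⟩
    · rw [Finset.mem_union, not_or] at hi
      rw [map_add, h1 i hi.1, h1' i hi.2, add_zero]
    · conv_lhs => rw [h2 t (Finset.union_subset_left ht), h2' t (Finset.union_subset_right ht)]
      simp only [map_add, mul_add, Finset.sum_add_distrib, cf_add, add_smul]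
      abel
  | smul c p hp =>
    obtain ⟨s, h1, h2⟩ := hp
    refine ⟨s, fun i hi => ?_, fun t ht => ?_⟩
    · rw [map_smul, h1 i hi, smul_zero]
    · conv_lhs => rw [h2 t ht]
      simp only [map_smul, cf_smul, smul_add, Finset.smul_sum, mul_smul_comm, smul_smul]

theorem evA_decomp_fin (ψ : ι → IharaLie) (P : NC ι) (t : Finset ι)
    (ht : P = (cf P []) • (1 : NC ι) + ∑ i ∈ t, wd [i] * lq1 i P) :
    evA ψ P 1 = (cf P []) • 1 + ∑ i ∈ t, sOp (ψ i).val (evA ψ (lq1 i P) 1) := by
  conv_lhs => rw [ht]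
  rw [map_add, map_smul, map_one (evA ψ), LinearMap.add_apply, LinearMap.smul_apply, map_sum,
    LinearMap.sum_apply, Module.End.one_apply]
  congr 1
  apply Finset.sum_congr rfl
  intro i _
  rw [map_mul, evA_letter]
  rfl

/-! ### Vanishing below the length -/

section
variable (ψ : ι → IharaLie) (r : ι → ℕ) (G : ι → ℚ)

theorem vanish (h : ∀ i, LevelOne (ψ i).val (r i) (G i)) (l : ℕ) :
    ∀ P : NC ι, (∀ u, cf P u ≠ 0 → l ≤ u.length) →
      ∀ b, lev b < l → cf (evA ψ P 1) (hw b) = 0 := by
  induction l with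
  | zero => intro P _ b hb; exact absurd hb (Nat.not_lt_zero _)
  | succ l ih =>
    intro P hP b hb
    obtain ⟨s, _, h2⟩ := decomp_fin P
    have h0 : cf P [] = 0 := by
      by_contra hc
      have := hP [] hc
      simp at this
    rw [evA_decomp_fin ψ P s (h2 s (Finset.Subset.refl s)), h0, zero_smul, zero_add, cf_sum]
    apply Finset.sum_eq_zero
    intro i _
    refine level_zero (h i) (ih (lq1 i P) ?_) b hb
    intro u hu
    rw [cf_lq1] at hu
    have := hP _ hu
    rw [List.length_cons] at this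
    omega

/-! ### The prefix term -/

theorem lev_rep (j : ℕ) : lev (List.replicate j false) = 0 := by
  unfold lev
  rw [List.count_replicate]
  simp

theorem lev_hb (a b : ℕ) : lev (hb a b) = 1 := by
  rw [hb, lev_append, lev_cons_true, lev_rep, lev_rep]

theorem lev_take_hb (a : ℕ) (b' : List Bool) (j : ℕ) (hj : j ≤ a) :
    lev ((hb a 0 ++ b').take j) = 0 := by
  have : (hb a 0 ++ b').take j = List.replicate j false := by
    rw [hb, List.append_assoc, List.take_append_of_le_length (by simpa using hj),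
      List.take_replicate, min_eq_left hj]
  rw [this]
  exact lev_rep j

theorem pre_le {f : NC (Fin 2)} {r : ℕ} {G : ℚ} (hf : LevelOne f r G) {g : NC (Fin 2)} {m : ℕ}
    {H : ℚ} (h0 : ∀ b, lev b < m → cf g (hw b) = 0)
    (h1 : ∀ b, lev b = m → padicNorm 2 (cf g (hw b)) ≤ H) (hH : 0 ≤ H) (b : List Bool)
    (hb : lev b = m + 1) : padicNorm 2 (pre f g r b) ≤ G * H := by
  have hG := hf.pos
  have hGH : 0 ≤ G * H := by positivity
  rw [pre]
  refine padicNorm.sum_le' (fun j _ => ?_) hGH
  split_ifs with hj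
  · have hl : lev b = lev (b.take j) + lev (b.drop j) := by
      rw [← lev_append, List.take_append_drop]
    rw [hw_length] at hj
    by_cases hc : lev (b.take j) = 1
    · obtain ⟨a, b', he⟩ := lev_one _ hc
      rw [he, hb_length, ← he, hc] at hj
      rw [padicNorm.mul, he]
      exact mul_le_mul (hf.bound a b' (by omega)) (h1 _ (by omega)) (padicNorm.nonneg _) hG.le
    · rw [h0 (b.drop j) (by omega), mul_zero]
      simpa using hGH
  · simpa using hGH

theorem pre_eq {f g : NC (Fin 2)} {r : ℕ} (hr : 1 ≤ r) (b' : List Bool) :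
    pre f g r (hb (r - 1) 0 ++ b') = cf f (hw (hb (r - 1) 0)) * cf g (hw b') := by
  have hlen : (hb (r - 1) 0).length = r := by rw [hb_length]; omega
  have hmem : r ∈ Finset.range ((hb (r - 1) 0 ++ b').length + 1) := by
    rw [Finset.mem_range, List.length_append]; omega
  rw [pre, Finset.sum_eq_single_of_mem r hmem]
  · have e1 : (hb (r - 1) 0 ++ b').take r = hb (r - 1) 0 := by
      rw [List.take_append_of_le_length (by omega), List.take_of_length_le (by omega)]
    have e2 : (hb (r - 1) 0 ++ b').drop r = b' := List.drop_left' hlen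
    rw [e1, e2, if_pos]
    rw [hw_length, hlen]
    have := lev_hb (r - 1) 0
    omega
  · intro j hj hne
    rw [if_neg]
    intro hc
    rw [hw_length] at hc
    rw [Finset.mem_range] at hj
    rw [List.length_take] at hc
    rcases lt_or_gt_of_ne hne with hlt | hgt
    · rw [lev_take_hb _ _ _ (by omega)] at hc
      omega
    · omega

theorem pre_zero {f g : NC (Fin 2)} {r r0 : ℕ} (hr : r < r0) (b' : List Bool) :
    pre f g r (hb (r0 - 1) 0 ++ b') = 0 := by
  have hlen : (hb (r0 - 1) 0).length = r0 := by rw [hb_length]; omega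
  rw [pre]
  apply Finset.sum_eq_zero
  intro j hj
  rw [if_neg]
  intro hc
  rw [hw_length] at hc
  rw [Finset.mem_range] at hj
  rw [List.length_take] at hc
  rcases Nat.lt_or_ge j r0 with hlt | hge
  · rw [lev_take_hb _ _ _ (by omega)] at hc
    omega
  · rw [List.length_append] at hc hj
    omega

/-! ### The triangularity induction -/

theorem level_norm (hr : Function.Injective r) (h : ∀ i, LevelOne (ψ i).val (r i) (G i)) (l : ℕ) :
    ∀ P : NC ι, (∀ u, cf P u ≠ 0 → l ≤ u.length) → (∃ u, u.length = l ∧ cf P u ≠ 0) →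
      ∃ N : ℚ, 0 < N ∧ (∀ b, lev b = l → padicNorm 2 (cf (evA ψ P 1) (hw b)) ≤ N) ∧
        ∃ b, lev b = l ∧ padicNorm 2 (cf (evA ψ P 1) (hw b)) = N := by
  classical
  induction l with
  | zero =>
    intro P _ hne
    obtain ⟨u, hu, hc⟩ := hne
    obtain rfl := List.length_eq_zero_iff.1 hu
    obtain ⟨s, _, h2⟩ := decomp_fin P
    have key : ∀ b, lev b = 0 → cf (evA ψ P 1) (hw b) = cf P [] * cf (1 : NC (Fin 2)) (hw b) := by
      intro b hb
      rw [evA_decomp_fin ψ P s (h2 s (Finset.Subset.refl s)), cf_add, cf_smul, cf_sum,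
        Finset.sum_eq_zero, add_zero]
      intro i _
      exact level_zero (h i) (m := 0) (fun b hb => absurd hb (Nat.not_lt_zero _)) b (by omega)
    refine ⟨padicNorm 2 (cf P []), lt_of_le_of_ne (padicNorm.nonneg _)
      (Ne.symm (padicNorm.nonzero hc)), fun b hb => ?_, [], rfl, ?_⟩
    · rw [key b hb, padicNorm.mul]
      have h1 : padicNorm 2 (cf (1 : NC (Fin 2)) (hw b)) ≤ 1 := by
        rw [← wd_nil, cf_wd]
        split_ifs
        · simp
        · simp
      calc padicNorm 2 (cf P []) * padicNorm 2 (cf (1 : NC (Fin 2)) (hw b))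
          ≤ padicNorm 2 (cf P []) * 1 := mul_le_mul_of_nonneg_left h1 (padicNorm.nonneg _)
        _ = _ := mul_one _
    · rw [key [] rfl]
      have : cf (1 : NC (Fin 2)) (hw []) = 1 := cf_one_nil
      rw [this, mul_one]
  | succ l ih =>
    intro P hP hne
    obtain ⟨s, hs1, hs2⟩ := decomp_fin P
    have hc0 : cf P [] = 0 := by
      by_contra hc
      have := hP [] hc
      simp at this
    have hPi : ∀ i, ∀ u, cf (lq1 i P) u ≠ 0 → l ≤ u.length := by
      intro i u hu
      rw [cf_lq1] at hu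
      have := hP _ hu
      rw [List.length_cons] at this
      omega
    set I := s.filter (fun i => ∃ u, u.length = l ∧ cf (lq1 i P) u ≠ 0) with hI
    have hIne : I.Nonempty := by
      obtain ⟨u, hu, hc⟩ := hne
      rcases u with _ | ⟨i, u⟩
      · simp at hu
      · refine ⟨i, ?_⟩
        rw [hI, Finset.mem_filter]
        have h3 : cf (lq1 i P) u ≠ 0 := by rwa [cf_lq1]
        refine ⟨?_, u, by simpa using hu, h3⟩
        by_contra hi
        apply h3
        rw [hs1 i hi]; rfl
    have hex : ∀ i, ∃ N : ℚ, i ∈ I → 0 < N ∧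
        (∀ b, lev b = l → padicNorm 2 (cf (evA ψ (lq1 i P) 1) (hw b)) ≤ N) ∧
        ∃ b, lev b = l ∧ padicNorm 2 (cf (evA ψ (lq1 i P) 1) (hw b)) = N := by
      intro i
      by_cases hi : i ∈ I
      · rw [hI, Finset.mem_filter] at hi
        obtain ⟨N, hN⟩ := ih (lq1 i P) (hPi i) hi.2
        exact ⟨N, fun _ => hN⟩
      · exact ⟨0, fun hi' => absurd hi' hi⟩
    choose Nf hNf using hex
    -- the coefficient at level `l + 1`
    have hsum : ∀ b, lev b = l + 1 → cf (evA ψ P 1) (hw b) =
        ∑ i ∈ I, cf (sOp (ψ i).val (evA ψ (lq1 i P) 1)) (hw b) := by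
      intro b hb
      rw [evA_decomp_fin ψ P s (hs2 s (Finset.Subset.refl s)), hc0, zero_smul, zero_add, cf_sum]
      symm
      apply Finset.sum_subset (Finset.filter_subset _ _)
      intro i hi hi2
      refine level_zero (h i) (m := l + 1) (vanish ψ r G h (l + 1) (lq1 i P) ?_) b (by omega)
      intro u hu
      have h3 := hPi i u hu
      rcases Nat.lt_or_ge l u.length with h4 | h4
      · exact h4
      · exfalso
        apply hi2
        rw [Finset.mem_filter]
        exact ⟨hi, u, by omega, hu⟩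
    have hv : ∀ i b, lev b < l → cf (evA ψ (lq1 i P) 1) (hw b) = 0 :=
      fun i => vanish ψ r G h l (lq1 i P) (hPi i)
    -- the maximal index
    obtain ⟨i0, hi0, hmax⟩ : ∃ i0 ∈ I, ∀ i ∈ I, G i * Nf i < G i0 * Nf i0 ∨
        (G i * Nf i = G i0 * Nf i0 ∧ r i ≤ r i0) := by
      obtain ⟨i0, hi0, hm⟩ := Finset.exists_max_image I
        (fun i => toLex (G i * Nf i, r i)) hIne
      refine ⟨i0, hi0, fun i hi => ?_⟩
      have := hm i hi
      rw [Prod.Lex.le_iff] at this
      exact this
    obtain ⟨hN0, hb1, b', hb', hbN⟩ := hNf i0 hi0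
    have hGpos : ∀ i, 0 < G i := fun i => (h i).pos
    have hNpos : 0 < G i0 * Nf i0 := mul_pos (hGpos i0) hN0
    have hterm : ∀ i ∈ I, ∀ b, lev b = l + 1 →
        padicNorm 2 (cf (sOp (ψ i).val (evA ψ (lq1 i P) 1)) (hw b) -
          pre (ψ i).val (evA ψ (lq1 i P) 1) (r i) b) ≤ G i / 2 * Nf i :=
      fun i hi b hb => level_step (h i) (hv i) (hNf i hi).2.1 b hb
    have hle : ∀ i ∈ I, ∀ b, lev b = l + 1 →
        padicNorm 2 (cf (sOp (ψ i).val (evA ψ (lq1 i P) 1)) (hw b)) ≤ G i * Nf i := by
      intro i hi b hb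
      have h1 := hterm i hi b hb
      have h2 := pre_le (h i) (hv i) (hNf i hi).2.1 (hNf i hi).1.le b hb
      have h3 : cf (sOp (ψ i).val (evA ψ (lq1 i P) 1)) (hw b) =
          (cf (sOp (ψ i).val (evA ψ (lq1 i P) 1)) (hw b) -
          pre (ψ i).val (evA ψ (lq1 i P) 1) (r i) b) +
          pre (ψ i).val (evA ψ (lq1 i P) 1) (r i) b := by ring
      rw [h3]
      have h4 : 0 < G i * Nf i := mul_pos (hGpos i) (hNf i hi).1
      refine padicNorm.nonarchimedean.trans (max_le (h1.trans ?_) h2)
      linarith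
    refine ⟨G i0 * Nf i0, hNpos, fun b hb => ?_, hb (r i0 - 1) 0 ++ b', ?_, ?_⟩
    · rw [hsum b hb]
      refine padicNorm.sum_le' (fun i hi => (hle i hi b hb).trans ?_) hNpos.le
      rcases hmax i hi with h1 | h1
      · exact h1.le
      · exact h1.1.le
    · rw [lev_append, hb']
      have := lev_hb (r i0 - 1) 0
      omega
    · have hlevb : lev (hb (r i0 - 1) 0 ++ b') = l + 1 := by
        rw [lev_append, hb']
        have := lev_hb (r i0 - 1) 0
        omega
      rw [hsum _ hlevb, ← Finset.add_sum_erase I _ hi0]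
      -- the main term
      have hmain : padicNorm 2 (cf (sOp (ψ i0).val (evA ψ (lq1 i0 P) 1))
          (hw (hb (r i0 - 1) 0 ++ b'))) = G i0 * Nf i0 := by
        have h1 := hterm i0 hi0 _ hlevb
        rw [pre_eq (h i0).hr] at h1
        have h2 : padicNorm 2 (cf (ψ i0).val (hw (hb (r i0 - 1) 0)) *
            cf (evA ψ (lq1 i0 P) 1) (hw b')) = G i0 * Nf i0 := by
          rw [padicNorm.mul, (h i0).top, hbN]
        set x := cf (sOp (ψ i0).val (evA ψ (lq1 i0 P) 1)) (hw (hb (r i0 - 1) 0 ++ b')) with hx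
        set y := cf (ψ i0).val (hw (hb (r i0 - 1) 0)) * cf (evA ψ (lq1 i0 P) 1) (hw b') with hy
        have h3 : x = (x - y) + y := by ring
        have h4 : padicNorm 2 (x - y) < padicNorm 2 y := by
          rw [h2]
          refine lt_of_le_of_lt h1 ?_
          linarith
        rw [h3, padicNorm.add_eq_max_of_ne (ne_of_lt h4), max_eq_right h4.le, h2]
      -- the other terms
      have hother : ∀ i ∈ I.erase i0, padicNorm 2 (cf (sOp (ψ i).val (evA ψ (lq1 i P) 1))
          (hw (hb (r i0 - 1) 0 ++ b'))) < G i0 * Nf i0 := by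
        intro i hi
        rw [Finset.mem_erase] at hi
        rcases hmax i hi.2 with h1 | ⟨h1, h2⟩
        · exact lt_of_le_of_lt (hle i hi.2 _ hlevb) h1
        · have h3 : r i < r i0 := lt_of_le_of_ne h2 (fun he => hi.1 (hr he))
          have h4 := hterm i hi.2 _ hlevb
          rw [pre_zero h3, sub_zero] at h4
          refine lt_of_le_of_lt h4 ?_
          linarith
      have hrest := padicNorm.sum_lt' (p := 2) hother hNpos
      rw [padicNorm.add_eq_max_of_ne (by rw [hmain]; exact ne_of_gt hrest), hmain,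
        max_eq_left hrest.le]

theorem exists_level (hr : Function.Injective r) (h : ∀ i, LevelOne (ψ i).val (r i) (G i))
    (P : NC ι) (l : ℕ) (hl : ∀ u, cf P u ≠ 0 → l ≤ u.length)
    (hne : ∃ u, u.length = l ∧ cf P u ≠ 0) :
    (∀ b, lev b < l → cf (evA ψ P 1) (hw b) = 0) ∧
      ∃ b, lev b = l ∧ cf (evA ψ P 1) (hw b) ≠ 0 := by
  refine ⟨vanish ψ r G h l P hl, ?_⟩
  obtain ⟨N, hN, _, b, hb, hbN⟩ := level_norm ψ r G hr h l P hl hne
  refine ⟨b, hb, fun h0 => ?_⟩
  rw [h0, padicNorm.zero] at hbN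
  exact hN.ne hbN

end

/-- Operators whose evaluation kills no nonzero polynomial give an injective Lie homomorphism. -/
theorem lift_injective_of_evA (ψ : ι → IharaLie)
    (hev : ∀ P : NC ι, evA ψ P 1 = 0 → P = 0) :
    Function.Injective (FreeLieAlgebra.lift ℚ ψ) := by
  rw [injective_iff_map_eq_zero]
  intro a ha
  have hP : ((evA ψ).toLieHom).comp (H4FreeLie.toNC ι) = sOpL.comp (FreeLieAlgebra.lift ℚ ψ) := by
    apply FreeLieAlgebra.hom_ext
    intro x
    have h1 : (H4FreeLie.toNC ι) (FreeLieAlgebra.of ℚ x) = wd [x] := by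
      simp [H4FreeLie.toNC]; rfl
    have h2 : (FreeLieAlgebra.lift ℚ ψ) (FreeLieAlgebra.of ℚ x) = ψ x := by simp
    rw [LieHom.comp_apply, LieHom.comp_apply, h1, h2]
    exact evA_letter ψ x
  have h1 : evA ψ (H4FreeLie.toNC ι a) = 0 := by
    have := congrArg (fun F => F a) hP
    simp only [LieHom.comp_apply] at this
    rw [ha, map_zero] at this
    exact this
  apply H4FreeLie.toNC_injective ι
  rw [map_zero]
  exact hev _ (by rw [h1]; rfl)

theorem free_of_levelOne {ι : Type} (ψ : ι → IharaLie) (r : ι → ℕ) (G : ι → ℚ)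
    (hr : Function.Injective r) (h : ∀ i, LevelOne (ψ i).val (r i) (G i)) :
    Function.Injective (FreeLieAlgebra.lift ℚ ψ) := by
  classical
  apply lift_injective_of_evA
  intro P hP
  by_contra hne
  obtain ⟨u, hu⟩ := exists_cf_ne hne
  have hex : ∃ l, ∃ u : List ι, u.length = l ∧ cf P u ≠ 0 := ⟨_, u, rfl, hu⟩
  obtain ⟨_, b, _, hb⟩ := exists_level ψ r G hr h P (Nat.find hex)
    (fun v hv => Nat.find_min' hex ⟨v, rfl, hv⟩) (Nat.find_spec hex)
  apply hb
  rw [hP]; rfl

end

end Pool.Agent.H44DM
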