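import Mathlib
import Pool.Agent.H44DM.Parity
import Pool.Agent.Lib.H4DMKey

/-!
# Elements of `dm` raise the level, those without depth-one coefficients raise it by two
-/

set_option autoImplicit false

open PowerSeries

namespace Pool.Agent.H44DM

open Pool.Agent.H4DM

noncomputable section

theorem Hg_cf {f : NC (Fin 2)} {w : ℕ} (hf : Hg wX w f) {l : List (Fin 2)} (hl : l.length ≠ w) :
    cf f l = 0 := by
  by_contra h
  have := hf l h
  rw [wt_wX] at this
  exact hl this

/-! ### Level zero -/

theorem ev_twos (u : ℚ) (k : ℕ) {F : NC ℕ+} (hF : Hg wY (2 * k) F) :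
    ev (sq (1 - C u * X ^ 2)) F = (-u) ^ k * cf F (List.replicate k 2) := by
  have key : ∀ F : NC ℕ+, ev (sq (1 - C u * X ^ 2)) (comp wY (2 * k) F) =
      (-u) ^ k * cf F (List.replicate k 2) := by
    intro F
    induction F using nc_induction with
    | hw l =>
      rw [comp_wd, cf_wd]
      by_cases hl : l = List.replicate k 2
      · rw [if_pos hl, hl, wt_replicate, if_pos (by show k * 2 = 2 * k; ring), ev_wd_prod,
          List.map_replicate, List.prod_replicate, sq_X2, if_pos rfl, mul_one]
      · rw [if_neg hl, mul_zero]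
        split_ifs with h
        · rw [ev_wd_prod]
          apply List.prod_eq_zero
          by_contra hc
          apply hl
          have hall : ∀ x ∈ l, x = 2 := by
            intro x hx
            by_contra hx2
            apply hc
            rw [List.mem_map]
            exact ⟨x, hx, by rw [sq_X2, if_neg hx2]⟩
          have h1 : l = List.replicate l.length 2 := List.eq_replicate_iff.mpr ⟨rfl, hall⟩
          rw [h1, wt_replicate] at h
          have h2 : l.length = k := by
            have : l.length * 2 = 2 * k := h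
            omega
          rw [h1, h2]
        · rw [map_zero]
    | zero => simp
    | add p q hp hq => rw [map_add, map_add, hp, hq, cf_add]; ring
    | smul c p hp => rw [map_smul, map_smul, hp, cf_smul, smul_eq_mul]; ring
  have := key F
  rwa [hF.comp_eq] at this

theorem twos_zero {F : NC ℕ+} {w : ℕ+} (hF : HP F w) (h0 : cf F [w] = 0) {k : ℕ}
    (hk : (w : ℕ) = 2 * k) : cf F (List.replicate k 2) = 0 := by
  have h1 : (1 + (-1 : ℚ) • gp 0) * (1 + (1 : ℚ) • gp 0) = 1 - C (1 : ℚ) * X ^ 2 := by
    rw [gp_zero, one_smul, neg_one_smul, map_one]; ring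
  have h2 := ph_mul (cc_tw (-1) 0) (cc_tw 1 0) hF.prim
  have hh := hF.hom
  rw [hk] at hh
  rw [h1, ev_tw _ _ hF, ev_tw _ _ hF, h0, ev_twos 1 k hh] at h2
  have h3 : (-1 : ℚ) ^ k ≠ 0 := pow_ne_zero _ (by norm_num)
  have h4 : (-1 : ℚ) ^ k * cf F (List.replicate k 2) = 0 := by rw [h2]; ring
  exact (mul_eq_zero.mp h4).resolve_left h3

theorem hw_false (k : ℕ) : hw (List.replicate k false) = yw (List.replicate k 2) :=
  (yw_replicate_two k).symm

/-- The coefficients of an element of `dm` at `(x₀x₁)^k` vanish. -/
theorem level_zero_cf {f : NC (Fin 2)} (hf : IsDM f) (k : ℕ) :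
    cf f (hw (List.replicate k false)) = 0 := by
  have hlen : (hw (List.replicate k false)).length = 2 * k := by
    rw [hw_length]; simp [lev, List.count_replicate]
  by_cases hk : k ≤ 1
  · exact dm_small hf _ (by omega)
  · have h1 : cf f (hw (List.replicate k false)) =
        cf (comp wX (2 * k) f) (hw (List.replicate k false)) := by
      rw [cf_comp, wt_wX, hlen, if_pos rfl]
    obtain ⟨m, hm⟩ : ∃ m, 2 * k = m + 1 := ⟨2 * k - 1, by omega⟩
    have hg := hf.comp (2 * k)
    have hom : Hg wX (2 * k) (comp wX (2 * k) f) := Hg_comp _ _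
    set g := comp wX (2 * k) f with hgdef
    have hpar := parity hg (by omega) hom
    rw [h1]
    have hom' := hom
    rw [hm] at hom'
    have hP := HP_psiStar hg hom'
    have hcw := cf_psiStar_letter (by omega) hom'
    rw [hm, Nat.add_sub_cancel] at hpar
    rw [hpar] at hcw
    have h2 := twos_zero hP hcw (k := k) (by rw [Nat.succPNat_coe]; omega)
    rw [psiStar, cf_add, piY_eq, cf_Th, List.replicate_zero, List.append_nil, ← hw_false,
      corr_even (by omega) hom', cf_smul, Nat.add_sub_cancel, hpar, mul_zero, zero_mul,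
      add_zero] at h2
    exact h2

theorem lev_rev (c : List Bool) : lev c.reverse = lev c := by
  simp [lev]

theorem cf_lev_zero {f : NC (Fin 2)} (hf : IsDM f) {c : List Bool} (hc : lev c = 0) :
    cf f (hw c) = 0 := by
  rw [lev_zero_iff c hc]
  exact level_zero_cf hf _

/-- If the depth-one coefficient vanishes so do the level-one coefficients. -/
theorem cf_lev_one {f : NC (Fin 2)} (hf : IsDM f) {v : ℕ} (hom : Hg wX (v + 1) f)
    (h1 : cf f (List.replicate v 0 ++ [1]) = 0) {c : List Bool} (hc : lev c = 1) :
    cf f (hw c) = 0 := by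
  obtain ⟨a, b, rfl⟩ := lev_one c hc
  by_cases hv : v + 1 = 2 * (a + b + 1) + 1
  · rw [zagier hf a b _ rfl]
    have : v = 2 * (a + b + 1) := by omega
    rw [← this, h1, mul_zero]
  · apply Hg_cf hom
    rw [hw_length, hb_length, hc]
    omega

theorem cf_alt {f : NC (Fin 2)} (hf : IsDM f) {v : ℕ} (hom : Hg wX (v + 1) f)
    (h1 : cf f (List.replicate v 0 ++ [1]) = 0) (k : ℕ) :
    cf f (hw (List.replicate k false) ++ [0]) = 0 := by
  have h2 := valu_cf_d0_hw k f
  rw [d0_eq_zero hf.1 hf.2.1, cf_zero] at h2
  have h3 : ∑ a ∈ Finset.range k, cf f (hw (hb a (k - 1 - a))) = 0 := by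
    apply Finset.sum_eq_zero
    intro a _
    apply cf_lev_one hf hom h1
    rw [hb, lev_append, lev_cons_true]
    simp [lev, List.count_replicate]
  rw [h3] at h2
  linarith

/-! ### The two statements -/

theorem level_one_hom {f : NC (Fin 2)} (hf : IsDM f) {v : ℕ} (hom : Hg wX (v + 1) f)
    {h : NC (Fin 2)} {m : ℕ} (h0 : ∀ b, lev b < m → cf h (hw b) = 0) (b : List Bool)
    (hb : lev b < m + 1) : cf (sOp f h) (hw b) = 0 := by
  have key := coreW hom hf.1 h (fun x => x = 0) rfl
    (fun x y hx hy => by rw [hx, hy, add_zero]) (fun x y hx hy => by rw [hx, hy, sub_zero]) b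
    (by
      intro b1 c b3 he hc
      by_cases hc0 : lev c = 0
      · rw [cf_lev_zero hf hc0, cf_lev_zero hf (by rw [lev_rev, hc0])]; ring
      · rw [h0, mul_zero]
        rw [he, lev_append, lev_append] at hb
        rw [lev_append]
        omega)
    (by
      intro b1 c b3 he hc
      rw [h0, mul_zero]
      rw [he, lev_append, lev_append, lev_cons_true] at hb
      rw [lev_append, lev_cons_false]
      omega)
    (by
      intro b1 b2 c b3 he he2 hc
      rw [h0, mul_zero]
      have h2 := congrArg lev he2
      rw [lev_append, lev_cons_false, lev_cons_false] at h2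
      rw [he, lev_append, lev_cons_true] at hb
      rw [lev_append, lev_cons_false]
      omega)
    (by
      intro b1 b2 c b3 he he2 hc
      rw [h0, mul_zero]
      have h2 := congrArg lev he2
      rw [lev_append, lev_cons_false, lev_cons_true] at h2
      rw [he, lev_append, lev_cons_true] at hb
      rw [lev_append, lev_cons_false]
      omega)
  have hpre : preW f h (v + 1) b = 0 := by
    rw [preW]
    apply Finset.sum_eq_zero
    intro i _
    split_ifs with hi
    · by_cases hc0 : lev (b.take i) = 0
      · rw [cf_lev_zero hf hc0, zero_mul]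
      · have h1 : lev b = lev (b.take i) + lev (b.drop i) := by
          rw [← lev_append, List.take_append_drop]
        rw [h0 _ (by omega), mul_zero]
    · rfl
  simp only [hpre, sub_zero] at key
  exact key

theorem level_two_hom {f : NC (Fin 2)} (hf : IsDM f) {v : ℕ} (hom : Hg wX (v + 1) f)
    (h1 : cf f (List.replicate v 0 ++ [1]) = 0)
    {h : NC (Fin 2)} {m : ℕ} (h0 : ∀ b, lev b < m → cf h (hw b) = 0) (b : List Bool)
    (hb : lev b < m + 2) : cf (sOp f h) (hw b) = 0 := by
  have hlow : ∀ c, lev c ≤ 1 → cf f (hw c) = 0 := by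
    intro c hc
    rcases Nat.le_one_iff_eq_zero_or_eq_one.mp hc with hc | hc
    · exact cf_lev_zero hf hc
    · exact cf_lev_one hf hom h1 hc
  have key := coreW hom hf.1 h (fun x => x = 0) rfl
    (fun x y hx hy => by rw [hx, hy, add_zero]) (fun x y hx hy => by rw [hx, hy, sub_zero]) b
    (by
      intro b1 c b3 he hc
      by_cases hc0 : lev c ≤ 1
      · rw [hlow c hc0, hlow _ (by rw [lev_rev]; exact hc0)]; ring
      · rw [h0, mul_zero]
        rw [he, lev_append, lev_append] at hb
        rw [lev_append]
        omega)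
    (by
      intro b1 c b3 he hc
      by_cases hc0 : lev c = 0
      · rw [lev_zero_iff c hc0, cf_alt hf hom h1, zero_mul]
      · rw [h0, mul_zero]
        rw [he, lev_append, lev_append, lev_cons_true] at hb
        rw [lev_append, lev_cons_false]
        omega)
    (by
      intro b1 b2 c b3 he he2 hc
      by_cases hc0 : lev c = 0
      · rw [lev_zero_iff c hc0, cf_alt hf hom h1, zero_mul]
      · rw [h0, mul_zero]
        have h2 := congrArg lev he2
        rw [lev_append, lev_cons_false, lev_cons_false] at h2
        rw [he, lev_append, lev_cons_true] at hb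
        rw [lev_append, lev_cons_false]
        omega)
    (by
      intro b1 b2 c b3 he he2 hc
      rw [h0, mul_zero]
      have h2 := congrArg lev he2
      rw [lev_append, lev_cons_false, lev_cons_true] at h2
      rw [he, lev_append, lev_cons_true] at hb
      rw [lev_append, lev_cons_false]
      omega)
  have hpre : preW f h (v + 1) b = 0 := by
    rw [preW]
    apply Finset.sum_eq_zero
    intro i _
    split_ifs with hi
    · by_cases hc0 : lev (b.take i) ≤ 1
      · rw [hlow _ hc0, zero_mul]
      · have h1 : lev b = lev (b.take i) + lev (b.drop i) := by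
          rw [← lev_append, List.take_append_drop]
        rw [h0 _ (by omega), mul_zero]
    · rfl
  simp only [hpre, sub_zero] at key
  exact key

/-! ### Arbitrary elements -/

theorem sOp_sum_left {ι : Type*} (s : Finset ι) (f : ι → NC (Fin 2)) (h : NC (Fin 2)) :
    sOp (∑ i ∈ s, f i) h = ∑ i ∈ s, sOp (f i) h := by
  classical
  induction s using Finset.induction_on with
  | empty => rw [Finset.sum_empty, Finset.sum_empty, sOp_zero_left]
  | insert i s hi ih => rw [Finset.sum_insert hi, Finset.sum_insert hi, sOp_add,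
      LinearMap.add_apply, ih]

theorem sOp_comp_sum (f h : NC (Fin 2)) (hf : cf f [] = 0) (l : List (Fin 2)) :
    cf (sOp f h) l = ∑ v ∈ Finset.range ((Gr wX f).natDegree + 1),
      cf (sOp (comp wX (v + 1) f) h) l := by
  have h1 := sum_comp (w := wX) f ((Gr wX f).natDegree + 1 + 1) (by omega)
  have h2 : comp wX 0 f = 0 := by
    have h3 := Hg_zero_eq (w := wX) (fun _ => le_rfl) (Hg_comp 0 f)
    rw [h3, cf_comp, wt_nil, if_pos rfl, hf, zero_smul]
  conv_lhs => rw [← h1]
  rw [Finset.sum_range_succ', h2, add_zero, sOp_sum_left, cf_sum]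

theorem level_one_dm {f : NC (Fin 2)} (hf : IsDM f) {h : NC (Fin 2)} {m : ℕ}
    (h0 : ∀ b, lev b < m → cf h (hw b) = 0) (b : List Bool) (hb : lev b < m + 1) :
    cf (sOp f h) (hw b) = 0 := by
  rw [sOp_comp_sum f h (cf_lie_nil hf.1)]
  apply Finset.sum_eq_zero
  intro v _
  exact level_one_hom (hf.comp (v + 1)) (Hg_comp _ _) h0 b hb

theorem level_two_dm {f : NC (Fin 2)} (hf : IsDM f)
    (h1 : ∀ r, cf f (List.replicate (2 * r) 0 ++ [1]) = 0) {h : NC (Fin 2)} {m : ℕ}
    (h0 : ∀ b, lev b < m → cf h (hw b) = 0) (b : List Bool) (hb : lev b < m + 2) :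
    cf (sOp f h) (hw b) = 0 := by
  rw [sOp_comp_sum f h (cf_lie_nil hf.1)]
  apply Finset.sum_eq_zero
  intro v _
  apply level_two_hom (hf.comp (v + 1)) (Hg_comp _ _) _ h0 b hb
  rcases Nat.even_or_odd v with ⟨r, hr⟩ | ⟨r, hr⟩
  · rw [cf_comp]
    split_ifs
    · rw [show v = 2 * r by omega]; exact h1 r
    · rfl
  · by_cases hr0 : r = 0
    · subst hr0
      rw [cf_comp]
      split_ifs
      · rw [hr]; exact hf.2.2.2.1
      · rfl
    · have h2 := parity (hf.comp (v + 1)) (k := r + 1) (by omega)
        (by rw [show 2 * (r + 1) = v + 1 by omega]; exact Hg_comp _ _)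
      rw [show 2 * (r + 1) - 1 = v by omega] at h2
      exact h2

end

end Pool.Agent.H44DM
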