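import Mathlib
import Pool.Agent.H44DM.LevelTwo
import Pool.Agent.H44DM.Free

/-!
# Subspaces of `dm` without elements of depth at least two generate free Lie algebras
-/

set_option autoImplicit false

namespace Pool.Agent.H44DM

open Pool.Agent.H4DM

noncomputable section

attribute [local instance] LieRing.ofAssociativeRing

/-- The coefficient of `x₀^{2r} x₁`. -/
def dc (f : NC (Fin 2)) (r : ℕ) : ℚ := cf f (List.replicate (2 * r) 0 ++ [1])

/-! ### Maps between free algebras given by linear maps of the letters -/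

section alg
variable {α β : Type}

/-- A linear combination of letters. -/
def linc : (α →₀ ℚ) →ₗ[ℚ] NC α := Finsupp.linearCombination ℚ (fun a => wd [a])

theorem linc_single (a : α) : linc (Finsupp.single a 1) = (wd [a] : NC α) := by
  simp [linc]

/-- Words have their length as weight. -/
def w1 : α → ℕ := fun _ => 1

theorem wt_w1 (l : List α) : wt w1 l = l.length := by
  induction l with
  | nil => rfl
  | cons a l ih => rw [wt_cons, ih, List.length_cons]; show 1 + _ = _; omega

theorem Hg_linc (c : α →₀ ℚ) : Hg w1 1 (linc c : NC α) := by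
  rw [linc, Finsupp.linearCombination_apply, Finsupp.sum]
  apply Finset.sum_induction _ (fun p => Hg w1 1 p)
  · exact fun _ _ h1 h2 => h1.add h2
  · exact Hg.zero 1
  · intro a _
    apply Hg.smul
    have := Hg_wd (w := w1) ([a] : List α)
    rwa [wt_w1] at this

/-- The algebra homomorphism sending the letter `a` to the linear combination `C a`. -/
def Aalg (C : α → (β →₀ ℚ)) : NC α →ₐ[ℚ] NC β := ev (fun a => linc (C a))

theorem Aalg_cons (C : α → (β →₀ ℚ)) (a : α) (u : List α) :
    Aalg C (wd (a :: u)) = linc (C a) * Aalg C (wd u) := ev_cons _ _ _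

theorem Hg_Aalg_wd (C : α → (β →₀ ℚ)) (u : List α) : Hg w1 u.length (Aalg C (wd u)) := by
  induction u with
  | nil => rw [wd_nil, map_one]; exact Hg_one
  | cons a u ih =>
    rw [Aalg_cons, List.length_cons, add_comm]
    exact (Hg_linc _).mul ih

theorem comp_Aalg (C : α → (β →₀ ℚ)) (n : ℕ) (P : NC α) :
    comp w1 n (Aalg C P) = Aalg C (comp w1 n P) := by
  induction P using nc_induction with
  | hw u =>
    rw [comp_wd, wt_w1]
    split_ifs with h
    · rw [← h]; exact (Hg_Aalg_wd C u).comp_eq
    · rw [map_zero]; exact (Hg_Aalg_wd C u).comp_ne (fun h' => h h'.symm)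
  | zero => simp
  | add p q hp hq => simp only [map_add, hp, hq]
  | smul c p hp => simp only [map_smul, hp]

theorem Aalg_injective {C : α → (β →₀ ℚ)} (hC : LinearIndependent ℚ C) :
    Function.Injective (Aalg C) := by
  have hker : LinearMap.ker (Finsupp.linearCombination ℚ C) = ⊥ :=
    LinearMap.ker_eq_bot.mpr hC
  obtain ⟨φ, hφ⟩ := LinearMap.exists_leftInverse_of_injective _ hker
  have hφ' : ∀ a, φ (C a) = Finsupp.single a 1 := by
    intro a
    have := LinearMap.congr_fun hφ (Finsupp.single a 1)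
    simpa using this
  have hB : ∀ c : β →₀ ℚ, Aalg (fun b => φ (Finsupp.single b 1)) (linc c) = linc (φ c) := by
    intro c
    have : (Aalg (fun b => φ (Finsupp.single b 1))).toLinearMap ∘ₗ linc = linc ∘ₗ φ := by
      apply Finsupp.lhom_ext'
      intro b
      apply LinearMap.ext_ring
      simp only [LinearMap.comp_apply, Finsupp.lsingle_apply, AlgHom.toLinearMap_apply]
      rw [linc_single]
      exact ev_letter _ b
    exact LinearMap.congr_fun this c
  have hid : (Aalg (fun b => φ (Finsupp.single b 1))).comp (Aalg C) = AlgHom.id ℚ (NC α) := by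
    apply algHom_ext_letters
    intro a
    rw [AlgHom.comp_apply, AlgHom.id_apply]
    have : Aalg C (wd [a]) = linc (C a) := ev_letter _ a
    rw [this, hB, hφ', linc_single]
  exact Function.LeftInverse.injective (g := Aalg (fun b => φ (Finsupp.single b 1)))
    (fun p => by
      have := congrArg (fun F : NC α →ₐ[ℚ] NC α => F p) hid
      simpa using this)

end alg

/-! ### The homogeneous elements -/

theorem IsDM_zero : IsDM 0 := by
  refine ⟨Lie01.zero_mem, rfl, rfl, rfl, ?_⟩
  have : psiStar 0 = 0 := by rw [psiStar, map_zero, map_zero, add_zero]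
  rw [this]
  exact Prim.zero

theorem IsDM.add {f g : NC (Fin 2)} (hf : IsDM f) (hg : IsDM g) : IsDM (f + g) := by
  have h : f + g = f - (-1 : ℚ) • g := by rw [neg_one_smul, sub_neg_eq_add]
  rw [h]
  exact hf.sub (hg.smul _)

/-- The `r` for which `dm` has a homogeneous element of weight `2r+1` with non-zero depth-one
coefficient. -/
def SI : Type := {r : ℕ // ∃ s : IharaLie, IsDM s.val ∧ Hg wX (2 * r + 1) s.val ∧ dc s.val r = 1}

/-- A choice of such elements. -/
def sg (r : SI) : IharaLie := r.2.choose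

theorem sg_dm (r : SI) : IsDM (sg r).val := r.2.choose_spec.1
theorem sg_hom (r : SI) : Hg wX (2 * r.1 + 1) (sg r).val := r.2.choose_spec.2.1
theorem sg_dc (r : SI) : dc (sg r).val r.1 = 1 := r.2.choose_spec.2.2

theorem sg_dc_ne (r : SI) {m : ℕ} (h : m ≠ r.1) : dc (sg r).val m = 0 := by
  apply Hg_cf (sg_hom r)
  simp
  omega

theorem SI_pos (r : SI) : 1 ≤ r.1 := by
  by_contra h
  have h0 : r.1 = 0 := by omega
  have h1 := sg_dc r
  rw [h0] at h1
  have h2 : dc (sg r).val 0 = cf (sg r).val [1] := rfl
  rw [h2, (sg_dm r).2.2.1] at h1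
  exact zero_ne_one h1

theorem sg_levelOne (r : SI) : ∃ G, LevelOne (sg r).val r.1 G := by
  apply levelOne_of_coeff (c := 1) (sg_dm r).1 (sg_dm r).2.1 (SI_pos r) (sg_hom r) one_ne_zero
  intro a b hab
  rw [zagier (sg_dm r) a b _ hab]
  have h := sg_dc r
  rw [dc] at h
  rw [h]

theorem mem_SI {f : NC (Fin 2)} (hf : IsDM f) {r : ℕ} (h : dc f r ≠ 0) :
    ∃ s : IharaLie, IsDM s.val ∧ Hg wX (2 * r + 1) s.val ∧ dc s.val r = 1 := by
  have h1 := (hf.comp (2 * r + 1)).smul (dc f r)⁻¹
  refine ⟨⟨_, h1.1⟩, h1, (Hg_comp _ _).smul _, ?_⟩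
  show cf ((dc f r)⁻¹ • comp wX (2 * r + 1) f) (List.replicate (2 * r) 0 ++ [1]) = 1
  rw [cf_smul, cf_comp, wt_wX, if_pos (by simp)]
  exact inv_mul_cancel₀ h

/-- The depth-one coefficients, as a finitely supported function on `SI`. -/
def Cf (f : NC (Fin 2)) : SI →₀ ℚ :=
  Finsupp.ofSupportFinite (fun r : SI => dc f r.1) (by
    obtain ⟨N, hN⟩ := exists_length_bound f
    apply Set.Finite.subset (s := {r : SI | r.1 < N})
    · have : {r : SI | r.1 < N} = (fun r : SI => r.1) ⁻¹' (Set.Iio N) := rfl
      rw [this]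
      exact (Set.finite_Iio N).preimage (Subtype.val_injective.injOn)
    · intro r hr
      rw [Function.mem_support] at hr
      by_contra hc
      apply hr
      apply hN
      have : ¬ (r.1 < N) := hc
      simp
      omega)

theorem Cf_apply (f : NC (Fin 2)) (r : SI) : Cf f r = dc f r.1 := rfl

/-- The combination of the chosen elements with the same depth-one coefficients. -/
def qq (c : SI →₀ ℚ) : NC (Fin 2) := c.sum (fun r x => x • (sg r).val)

theorem qq_dm (c : SI →₀ ℚ) : IsDM (qq c) := by
  rw [qq, Finsupp.sum]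
  apply Finset.sum_induction _ (fun p => IsDM p)
  · exact fun _ _ h1 h2 => IsDM.add h1 h2
  · exact IsDM_zero
  · intro r _
    exact (sg_dm r).smul _

theorem dc_qq (c : SI →₀ ℚ) (m : ℕ) : dc (qq c) m = c.sum (fun r x => x * dc (sg r).val m) := by
  rw [qq, dc, Finsupp.sum, cf_sum]
  rfl

theorem dc_sub_qq {f : NC (Fin 2)} (hf : IsDM f) (m : ℕ) : dc (f - qq (Cf f)) m = 0 := by
  have h1 : dc (f - qq (Cf f)) m = dc f m - dc (qq (Cf f)) m := rfl
  rw [h1, dc_qq, sub_eq_zero]
  by_cases hm : dc f m = 0
  · rw [hm]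
    symm
    apply Finset.sum_eq_zero
    intro r _
    show Cf f r * dc (sg r).val m = 0
    by_cases hr : r.1 = m
    · rw [Cf_apply, hr, hm, zero_mul]
    · rw [sg_dc_ne r (fun h => hr h.symm), mul_zero]
  · set r : SI := ⟨m, mem_SI hf hm⟩ with hr
    rw [Finsupp.sum, Finset.sum_eq_single r]
    · have h2 : dc (sg r).val m = 1 := sg_dc r
      rw [h2, mul_one]; rfl
    · intro s _ hs
      rw [sg_dc_ne s, mul_zero]
      intro h
      apply hs
      apply Subtype.ext
      exact h.symm
    · intro h
      rw [Finsupp.notMem_support_iff] at h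
      rw [h, zero_mul]

theorem evA_linc (c : SI →₀ ℚ) : evA sg (linc c) = sOp (qq c) := by
  refine LinearMap.ext fun h => ?_
  rw [linc, Finsupp.linearCombination_apply, Finsupp.sum, map_sum, LinearMap.sum_apply, qq,
    Finsupp.sum, sOp_sum_left]
  apply Finset.sum_congr rfl
  intro r _
  rw [map_smul, evA_letter, sOp_smul]

/-! ### Comparison -/

section compare
variable {ι : Type} (ψ : ι → IharaLie) (hdm : ∀ i, IsDM (ψ i).val)
include hdm

theorem compare_word (u : List ι) :
    (∀ b, lev b < u.length → cf (evA ψ (wd u) 1) (hw b) = 0) ∧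
    (∀ b, lev b < u.length →
      cf (evA sg (Aalg (fun i => Cf (ψ i).val) (wd u)) 1) (hw b) = 0) ∧
    (∀ b, lev b < u.length + 1 → cf (evA ψ (wd u) 1) (hw b) =
      cf (evA sg (Aalg (fun i => Cf (ψ i).val) (wd u)) 1) (hw b)) := by
  induction u with
  | nil =>
    refine ⟨fun b hb => absurd hb (by simp), fun b hb => absurd hb (by simp), fun b _ => ?_⟩
    rw [wd_nil, map_one (evA ψ), map_one (Aalg _), map_one (evA sg)]
  | cons i u ih =>
    obtain ⟨ih1, ih2, ih3⟩ := ih
    have e1 : evA ψ (wd (i :: u)) 1 = sOp (ψ i).val (evA ψ (wd u) 1) := by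
      rw [wd_cons, map_mul, evA_letter]; rfl
    have e2 : evA sg (Aalg (fun i => Cf (ψ i).val) (wd (i :: u))) 1 =
        sOp (qq (Cf (ψ i).val)) (evA sg (Aalg (fun i => Cf (ψ i).val) (wd u)) 1) := by
      rw [Aalg_cons, map_mul, evA_linc]; rfl
    rw [e1, e2, List.length_cons]
    refine ⟨fun b hb => level_one_dm (hdm i) ih1 b hb,
      fun b hb => level_one_dm (qq_dm _) ih2 b hb, fun b hb => ?_⟩
    set h := evA ψ (wd u) 1
    set h' := evA sg (Aalg (fun i => Cf (ψ i).val) (wd u)) 1
    have k1 : cf (sOp (ψ i).val (h - h')) (hw b) = 0 := by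
      apply level_one_dm (hdm i) (m := u.length + 1) _ b hb
      intro b' hb'
      rw [cf_sub, ih3 b' hb', sub_self]
    have k2 : cf (sOp ((ψ i).val - qq (Cf (ψ i).val)) h') (hw b) = 0 := by
      apply level_two_dm ((hdm i).sub (qq_dm _)) (fun r => dc_sub_qq (hdm i) r) ih2 b hb
    have k3 : sOp ((ψ i).val - qq (Cf (ψ i).val)) h' = sOp (ψ i).val h' -
        sOp (qq (Cf (ψ i).val)) h' := by
      have e : (ψ i).val - qq (Cf (ψ i).val) = (ψ i).val + (-1 : ℚ) • qq (Cf (ψ i).val) := by
        rw [neg_one_smul, sub_eq_add_neg]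
      rw [e, sOp_add, sOp_smul, LinearMap.add_apply, LinearMap.smul_apply, neg_one_smul,
        sub_eq_add_neg]
    rw [map_sub, cf_sub] at k1
    rw [k3, cf_sub] at k2
    linarith

theorem compare_comp (n : ℕ) (P : NC ι) (b : List Bool) (hb : lev b < n + 1) :
    cf (evA ψ (comp w1 n P) 1) (hw b) =
      cf (evA sg (Aalg (fun i => Cf (ψ i).val) (comp w1 n P)) 1) (hw b) := by
  induction P using nc_induction with
  | hw u =>
    rw [comp_wd, wt_w1]
    split_ifs with h
    · rw [← h] at hb
      exact (compare_word ψ hdm u).2.2 b hb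
    · simp only [map_zero]
  | zero => simp only [map_zero]
  | add p q hp hq =>
    simp only [map_add, LinearMap.add_apply, cf_add, hp, hq]
  | smul c p hp =>
    simp only [map_smul, LinearMap.smul_apply, cf_smul, hp]

theorem compare_all {P : NC ι} {l : ℕ} (hl : ∀ n, n < l → comp w1 n P = 0) (b : List Bool)
    (hb : lev b < l + 1) :
    cf (evA ψ P 1) (hw b) = cf (evA sg (Aalg (fun i => Cf (ψ i).val) P) 1) (hw b) := by
  have h1 := sum_comp (w := w1) P ((Gr w1 P).natDegree + 1) (by omega)
  rw [← h1]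
  simp only [map_sum, LinearMap.sum_apply, cf_sum]
  apply Finset.sum_congr rfl
  intro n _
  by_cases hn : n < l
  · rw [hl n hn]; simp only [map_zero]
  · exact compare_comp ψ hdm n P b (by omega)

end compare

/-! ### The freeness theorem -/

open Classical in
/-- The family of the depth-one coefficients, read off from `Cf`. -/
def readC : (SI →₀ ℚ) →ₗ[ℚ] (ℕ → ℚ) where
  toFun c := fun r =>
    if h : ∃ s : IharaLie, IsDM s.val ∧ Hg wX (2 * r + 1) s.val ∧ dc s.val r = 1
      then c ⟨r, h⟩ else 0
  map_add' c d := by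
    funext r
    simp only [Pi.add_apply]
    split_ifs
    · rfl
    · simp
  map_smul' x c := by
    funext r
    simp only [Pi.smul_apply, RingHom.id_apply]
    split_ifs
    · rfl
    · simp

open Classical in
theorem readC_Cf {f : NC (Fin 2)} (hf : IsDM f) : readC (Cf f) = dc f := by
  funext r
  show (if h : ∃ s : IharaLie, IsDM s.val ∧ Hg wX (2 * r + 1) s.val ∧ dc s.val r = 1
      then Cf f ⟨r, h⟩ else 0) = dc f r
  split_ifs with h
  · rfl
  · by_contra hne
    exact h (mem_SI hf (fun h0 => hne h0.symm))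

theorem free_of_indep {ι : Type} (ψ : ι → IharaLie) (hdm : ∀ i, IsDM (ψ i).val)
    (hind : LinearIndependent ℚ (fun i => dc (ψ i).val)) :
    Function.Injective (FreeLieAlgebra.lift ℚ ψ) := by
  classical
  set C : ι → (SI →₀ ℚ) := fun i => Cf (ψ i).val with hC
  have hCind : LinearIndependent ℚ C := by
    apply LinearIndependent.of_comp readC
    have : readC ∘ C = fun i => dc (ψ i).val := by
      funext i
      exact readC_Cf (hdm i)
    rw [this]
    exact hind
  apply lift_injective_of_evA
  intro P hP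
  by_contra hne
  have hex : ∃ l, comp w1 l P ≠ 0 := by
    by_contra hc
    push Not at hc
    apply hne
    have h1 := sum_comp (w := w1) P ((Gr w1 P).natDegree + 1) (by omega)
    rw [← h1]
    exact Finset.sum_eq_zero (fun n _ => hc n)
  set l := Nat.find hex with hl
  have hmin : ∀ n, n < l → comp w1 n P = 0 := by
    intro n hn
    by_contra hc
    exact Nat.find_min hex hn hc
  set Q := Aalg C P with hQ
  have hQc : ∀ n, comp w1 n Q = Aalg C (comp w1 n P) := fun n => comp_Aalg C n P
  have hQl : comp w1 l Q ≠ 0 := by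
    rw [hQc]
    intro h
    exact Nat.find_spec hex (Aalg_injective hCind (h.trans (map_zero _).symm))
  have hQmin : ∀ u, cf Q u ≠ 0 → l ≤ u.length := by
    intro u hu
    by_contra hc
    apply hu
    have h1 : cf (comp w1 u.length Q) u = cf Q u := by
      rw [cf_comp, wt_w1, if_pos rfl]
    rw [← h1, hQc, hmin _ (by omega), map_zero]
    rfl
  have hQne : ∃ u, u.length = l ∧ cf Q u ≠ 0 := by
    obtain ⟨u, hu⟩ := exists_cf_ne hQl
    rw [cf_comp, wt_w1] at hu
    split_ifs at hu with h
    · exact ⟨u, h, hu⟩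
    · exact absurd rfl hu
  have hL : ∀ r : SI, ∃ G, LevelOne (sg r).val r.1 G := sg_levelOne
  choose G hG using hL
  obtain ⟨_, b, hb, hbne⟩ := exists_level sg (fun r : SI => r.1) G Subtype.val_injective hG Q l
    hQmin hQne
  apply hbne
  have h1 := compare_all ψ hdm hmin b (by omega)
  rw [hP] at h1
  rw [hQ, ← h1]
  rfl

end

end Pool.Agent.H44DM
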